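import Pool.Agent.Lib.MP_8c2010_pr.Words

set_option autoImplicit false
set_option linter.unusedSectionVars false

/-! # Lower bound: untouched sites -/

namespace Pool.Agent.Lib.MP_8c2010_pr

open Equiv Finset

variable {α : Type*} [Fintype α] [DecidableEq α]

/-- indicator that the word avoids all sites of `A` -/
def un (A : Finset α) : List (α × α) → ℝ
  | [] => 1
  | a :: w => (if a.1 ∉ A ∧ a.2 ∉ A then 1 else 0) * un A w

lemma un_cons (A : Finset α) (a : α × α) (w : List (α × α)) :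
    un A (a :: w) = (if a.1 ∉ A ∧ a.2 ∉ A then 1 else 0) * un A w := rfl

lemma un_zero_or_one (A : Finset α) (w : List (α × α)) : un A w = 0 ∨ un A w = 1 := by
  induction w with
  | nil => exact Or.inr rfl
  | cons a w ih =>
    rw [un_cons]
    split_ifs
    · simpa using ih
    · left; ring

lemma un_nonneg (A : Finset α) (w : List (α × α)) : 0 ≤ un A w := by
  rcases un_zero_or_one A w with h | h <;> rw [h]
  exact zero_le_one

lemma un_mul (A B : Finset α) (w : List (α × α)) : un A w * un B w = un (A ∪ B) w := by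
  induction w with
  | nil => simp [un]
  | cons a w ih =>
    have e : (if a.1 ∉ A ∪ B ∧ a.2 ∉ A ∪ B then (1 : ℝ) else 0) =
        (if a.1 ∉ A ∧ a.2 ∉ A then 1 else 0) * (if a.1 ∉ B ∧ a.2 ∉ B then 1 else 0) := by
      simp only [Finset.mem_union, not_or]
      by_cases h1 : a.1 ∉ A ∧ a.2 ∉ A
      · by_cases h2 : a.1 ∉ B ∧ a.2 ∉ B
        · rw [if_pos h1, if_pos h2, if_pos ⟨⟨h1.1, h2.1⟩, ⟨h1.2, h2.2⟩⟩, one_mul]
        · rw [if_neg h2, if_neg (fun h => h2 ⟨h.1.2, h.2.2⟩), mul_zero]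
      · rw [if_neg h1, if_neg (fun h => h1 ⟨h.1.1, h.2.1⟩), zero_mul]
    rw [un_cons, un_cons, un_cons, ← ih, e]
    ring

lemma un_fix {i : α} {w : List (α × α)} (h : un {i} w ≠ 0) : Xw w i = i := by
  induction w with
  | nil => rfl
  | cons a w ih =>
    rw [un_cons] at h
    have h1 : a.1 ∉ ({i} : Finset α) ∧ a.2 ∉ ({i} : Finset α) := by
      by_contra hc
      rw [if_neg hc, zero_mul] at h
      exact h rfl
    rw [if_pos h1, one_mul] at h
    rw [Xw, Perm.mul_apply, ih h]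
    simp only [Finset.mem_singleton] at h1
    exact swap_apply_of_ne_of_ne (fun h => h1.1 h.symm) (fun h => h1.2 h.symm)

lemma Ew_un {p : α → ℝ} (hs : ∑ i, p i = 1) (A : Finset α) (t : ℕ) :
    Ew p t (un A) = ((1 - ∑ i ∈ A, p i) ^ 2) ^ t := by
  induction t with
  | zero => simp [Ew_zero, un]
  | succ t ih =>
    rw [Ew_succ]
    have h1 : ∀ a : α × α, wt p a * Ew p t (fun w => un A (a :: w)) =
        (wt p a * (if a.1 ∉ A ∧ a.2 ∉ A then 1 else 0)) * Ew p t (un A) := by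
      intro a
      simp only [un_cons]
      rw [Ew_const_mul, mul_assoc]
    simp only [h1]
    rw [← Finset.sum_mul, ih]
    have h2 : ∑ a : α × α, (wt p a * (if a.1 ∉ A ∧ a.2 ∉ A then (1 : ℝ) else 0)) =
        (1 - ∑ i ∈ A, p i) ^ 2 := by
      have h3 : ∑ i ∈ Aᶜ, p i = 1 - ∑ i ∈ A, p i := by
        rw [← hs, ← Finset.sum_compl_add_sum A]; ring
      rw [← h3, sq, Fintype.sum_prod_type]
      have h4 : ∀ x y : α, (wt p (x, y) * (if (x, y).1 ∉ A ∧ (x, y).2 ∉ A then (1 : ℝ) else 0)) =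
          (if x ∈ Aᶜ then p x else 0) * (if y ∈ Aᶜ then p y else 0) := by
        intro x y
        simp only [wt, Finset.mem_compl]
        by_cases hx : x ∉ A
        · by_cases hy : y ∉ A
          · simp [hx, hy]
          · simp [hy]
        · simp [hx]
      simp only [h4]
      have h5 : Finset.univ.filter (fun x => x ∈ Aᶜ) = Aᶜ := by ext; simp
      have h6 : ∀ f : α → ℝ, ∑ x, (if x ∈ Aᶜ then f x else 0) = ∑ x ∈ Aᶜ, f x := by
        intro f
        rw [← Finset.sum_filter, h5]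
      rw [← Finset.sum_mul_sum, h6]
    rw [h2]
    ring

/-- expected number of untouched sites -/
noncomputable def mu (p : α → ℝ) (t : ℕ) : ℝ := ∑ i, ((1 - p i) ^ 2) ^ t

noncomputable def UU (w : List (α × α)) : ℝ := ∑ i : α, un {i} w

/-- number of fixed points -/
noncomputable def fixc (X : Perm α) : ℝ := ∑ i : α, if X i = i then (1 : ℝ) else 0

lemma UU_le_fixc (w : List (α × α)) : UU w ≤ fixc (Xw w) := by
  refine Finset.sum_le_sum fun i _ => ?_
  rcases un_zero_or_one {i} w with h | h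
  · rw [h]; split_ifs <;> norm_num
  · rw [if_pos (un_fix (by rw [h]; exact one_ne_zero)), h]

lemma Ew_UU {p : α → ℝ} (hs : ∑ i, p i = 1) (t : ℕ) : Ew p t UU = mu p t := by
  rw [show (UU : List (α × α) → ℝ) = fun w => ∑ i ∈ (Finset.univ : Finset α), un {i} w from rfl,
    Ew_fsum]
  refine Finset.sum_congr rfl fun i _ => ?_
  rw [Ew_un hs]; simp

lemma Ew_UU_sq {p : α → ℝ} (hp : ∀ i, 0 ≤ p i) (hs : ∑ i, p i = 1) (t : ℕ) :
    Ew p t (fun w => UU w ^ 2) ≤ mu p t + mu p t ^ 2 := by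
  have h1 : ∀ w : List (α × α), UU w ^ 2 =
      ∑ i ∈ (Finset.univ : Finset α), ∑ j ∈ (Finset.univ : Finset α), un ({i} ∪ {j}) w := by
    intro w
    rw [UU, sq, Finset.sum_mul_sum]
    exact Finset.sum_congr rfl fun i _ => Finset.sum_congr rfl fun j _ => un_mul _ _ _
  simp only [h1]
  rw [Ew_fsum]
  simp only [Ew_fsum, Ew_un hs]
  have hle1 : ∀ i, p i ≤ 1 := fun i => by
    rw [← hs]; exact Finset.single_le_sum (fun j _ => hp j) (Finset.mem_univ i)
  have h2 : ∀ i j : α, ((1 - ∑ k ∈ ({i} ∪ {j} : Finset α), p k) ^ 2) ^ t ≤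
      (if i = j then ((1 - p i) ^ 2) ^ t else 0) + ((1 - p i) ^ 2) ^ t * ((1 - p j) ^ 2) ^ t := by
    intro i j
    by_cases hij : i = j
    · subst hij
      simp only [Finset.union_self, Finset.sum_singleton, if_true]
      have : 0 ≤ ((1 - p i) ^ 2) ^ t * ((1 - p i) ^ 2) ^ t := by positivity
      linarith
    · rw [if_neg hij, zero_add, ← mul_pow, ← mul_pow]
      have h3 : ({i} ∪ {j} : Finset α) = {i, j} := rfl
      have h5 : ∑ k ∈ ({i, j} : Finset α), p k ≤ 1 := by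
        rw [← hs]
        exact Finset.sum_le_sum_of_subset_of_nonneg (Finset.subset_univ _) fun k _ _ => hp k
      rw [Finset.sum_pair hij] at h5
      rw [h3, Finset.sum_pair hij]
      refine pow_le_pow_left₀ (by positivity) ?_ t
      refine pow_le_pow_left₀ (by linarith) ?_ 2
      nlinarith [mul_nonneg (hp i) (hp j)]
  calc ∑ i, ∑ j, ((1 - ∑ k ∈ ({i} ∪ {j} : Finset α), p k) ^ 2) ^ t
      ≤ ∑ i, ∑ j, ((if i = j then ((1 - p i) ^ 2) ^ t else 0) +
          ((1 - p i) ^ 2) ^ t * ((1 - p j) ^ 2) ^ t) :=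
        Finset.sum_le_sum fun i _ => Finset.sum_le_sum fun j _ => h2 i j
    _ = mu p t + mu p t ^ 2 := by
        simp only [Finset.sum_add_distrib]
        congr 1
        · simp [mu]
        · rw [mu, sq, Finset.sum_mul_sum]

lemma av_fixc [Nonempty α] : av (fixc : Perm α → ℝ) ∅ 1 = 1 := by
  have h0 : (0 : ℝ) < Fintype.card α := by exact_mod_cast Fintype.card_pos
  have hE : (0 : ℝ) < ((ext (∅ : Finset α) (1 : Perm α)).card : ℝ) := by
    exact_mod_cast ext_one_card_pos ∅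
  rw [av]
  rw [div_eq_one_iff_eq hE.ne']
  have h1 : ∑ X ∈ ext (∅ : Finset α) (1 : Perm α), fixc X =
      ∑ i : α, ((ext (insert i ∅) (1 : Perm α)).card : ℝ) := by
    simp only [fixc]
    rw [Finset.sum_comm]
    refine Finset.sum_congr rfl fun i _ => ?_
    rw [← Finset.sum_filter, Finset.sum_const, nsmul_eq_mul, mul_one]
    congr 2
    ext X
    simp [mem_ext]
  rw [h1]
  have h2 : ∀ i : α, ((ext (insert i ∅) (1 : Perm α)).card : ℝ) =
      ((ext (∅ : Finset α) (1 : Perm α)).card : ℝ) / Fintype.card α := by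
    intro i
    have := ext_card_insert (Finset.notMem_empty i)
    rw [this]
    simp only [Finset.card_empty, Nat.cast_zero, sub_zero]
    field_simp
  simp only [h2]
  rw [Finset.sum_const, nsmul_eq_mul, Finset.card_univ]
  field_simp

/-- the indicator of having at least `K` fixed points -/
noncomputable def tst (K : ℝ) (X : Perm α) : ℝ := if K ≤ fixc X then 1 else 0

lemma tst_nonneg (K : ℝ) (X : Perm α) : 0 ≤ tst K X := by
  rw [tst]; split_ifs <;> norm_num

lemma tst_le_one (K : ℝ) (X : Perm α) : tst K X ≤ 1 := by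
  rw [tst]; split_ifs <;> norm_num

lemma av_mono {φ ψ : Perm α → ℝ} (h : ∀ X, φ X ≤ ψ X) (Γ : Finset α) (g : Perm α) :
    av φ Γ g ≤ av ψ Γ g := by
  rw [av, av]
  gcongr with X _
  exact h X

theorem lower [Nonempty α] {p : α → ℝ} (hp : ∀ i, 0 ≤ p i) (hs : ∑ i, p i = 1) (t : ℕ)
    (hμ : 0 < mu p t) :
    1 - 6 / mu p t ≤ Ew p t (fun w => tst (mu p t / 2) (Xw w)) -
      av (tst (mu p t / 2)) ∅ (1 : Perm α) := by
  set μ := mu p t with hμd
  have hK : (0 : ℝ) < μ / 2 := by positivity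
  -- uniform side
  have h1 : av (tst (μ / 2)) ∅ (1 : Perm α) ≤ 2 / μ := by
    have h2 : av (tst (μ / 2)) ∅ (1 : Perm α) ≤ av (fun X => 2 / μ * fixc X) ∅ (1 : Perm α) := by
      refine av_mono (fun X => ?_) _ _
      rw [tst]
      split_ifs with h
      · rw [div_mul_eq_mul_div, le_div_iff₀ hμ]; linarith
      · have : 0 ≤ fixc X := Finset.sum_nonneg fun i _ => by split_ifs <;> norm_num
        positivity
    have h3 : av (fun X => 2 / μ * fixc X) ∅ (1 : Perm α) =
        2 / μ * av (fixc : Perm α → ℝ) ∅ (1 : Perm α) := by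
      rw [av, av, ← Finset.mul_sum, mul_div_assoc]
    rw [h3, av_fixc, mul_one] at h2
    exact h2
  -- walk side
  have h4 : Ew p t (fun w => 1 - (4 / μ ^ 2) * (UU w ^ 2 - 2 * μ * UU w + μ ^ 2)) ≤
      Ew p t (fun w => tst (μ / 2) (Xw w)) := by
    refine Ew_mono hp fun w _ => ?_
    rw [tst]
    split_ifs with h
    · have : 0 ≤ (4 / μ ^ 2) * (UU w - μ) ^ 2 := by positivity
      have e : (UU w - μ) ^ 2 = UU w ^ 2 - 2 * μ * UU w + μ ^ 2 := by ring
      rw [e] at this
      linarith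
    · have h5 : UU w < μ / 2 := lt_of_le_of_lt (UU_le_fixc w) (not_le.1 h)
      have h6 : μ ^ 2 / 4 ≤ (UU w - μ) ^ 2 := by nlinarith
      have e : (UU w - μ) ^ 2 = UU w ^ 2 - 2 * μ * UU w + μ ^ 2 := by ring
      rw [← e]
      have h7 : (1 : ℝ) ≤ (4 / μ ^ 2) * (UU w - μ) ^ 2 := by
        calc (1 : ℝ) = (4 / μ ^ 2) * (μ ^ 2 / 4) := by field_simp
          _ ≤ _ := mul_le_mul_of_nonneg_left h6 (by positivity)
      linarith
  have h5 : Ew p t (fun w => 1 - (4 / μ ^ 2) * (UU w ^ 2 - 2 * μ * UU w + μ ^ 2)) =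
      1 - (4 / μ ^ 2) * (Ew p t (fun w => UU w ^ 2) - 2 * μ * μ + μ ^ 2) := by
    rw [Ew_sub, Ew_const hs, Ew_const_mul, Ew_add, Ew_sub, Ew_const_mul, Ew_const hs]
    congr 4
    rw [Ew_UU hs]
  rw [h5] at h4
  have h6 := Ew_UU_sq hp hs t
  rw [← hμd] at h6
  have h7 : (4 / μ ^ 2) * (Ew p t (fun w => UU w ^ 2) - 2 * μ * μ + μ ^ 2) ≤ 4 / μ := by
    calc (4 / μ ^ 2) * (Ew p t (fun w => UU w ^ 2) - 2 * μ * μ + μ ^ 2)
        ≤ (4 / μ ^ 2) * μ := by
          refine mul_le_mul_of_nonneg_left ?_ (by positivity)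
          nlinarith
      _ = 4 / μ := by field_simp
  have h8 : 6 / μ = 4 / μ + 2 / μ := by ring
  rw [h8]
  linarith

end Pool.Agent.Lib.MP_8c2010_pr
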