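import Pool.Agent.Lib.MP_8c2010_pr.Upper2
import Pool.Agent.Lib.MP_8c2010_pr.Lower

set_option autoImplicit false
set_option linter.unusedSectionVars false

/-! # Asymptotics, uniformly over the nearly uniform weights -/

namespace Pool.Agent.Lib.MP_8c2010_pr

open Equiv Finset Filter Topology

lemma tendsto_pow_exp (k : ℕ) {γ : ℝ} (hγ : 0 < γ) :
    Tendsto (fun L : ℝ => L ^ k * Real.exp (-(γ * L))) atTop (𝓝 0) := by
  have h1 : Tendsto (fun L : ℝ => (γ * L) ^ k * Real.exp (-(γ * L))) atTop (𝓝 0) :=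
    (Real.tendsto_pow_mul_exp_neg_atTop_nhds_zero k).comp (tendsto_id.const_mul_atTop hγ)
  have h2 := h1.const_mul ((γ ^ k)⁻¹)
  rw [mul_zero] at h2
  refine h2.congr fun L => ?_
  rw [mul_pow]
  field_simp

lemma tendsto_mul_exp {γ : ℝ} (hγ : 0 < γ) :
    Tendsto (fun L : ℝ => L * Real.exp (-(γ * L))) atTop (𝓝 0) := by
  simpa using tendsto_pow_exp 1 hγ

lemma tendsto_exp0 {γ : ℝ} (hγ : 0 < γ) :
    Tendsto (fun L : ℝ => Real.exp (-(γ * L))) atTop (𝓝 0) := by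
  simpa using tendsto_pow_exp 0 hγ

lemma tendsto_rr {δ : ℝ} (hδ : 0 < δ) : Tendsto (fun L : ℝ => rr δ L) atTop (𝓝 0) := by
  have h := (tendsto_exp0 (γ := δ / 4) (by linarith)).const_mul
    (Real.exp 1 * (2 * (1 + δ / 4) / (δ / 4)))
  rw [mul_zero] at h
  exact h

lemma tendsto_err {C K δ D g : ℝ} (hC : 0 < C) (hδ : 0 < δ) (hD : 0 < D) (hg : 0 < g) :
    Tendsto (fun L : ℝ => err C K δ D (Real.exp (-(g * L))) L) atTop (𝓝 0) := by
  have hE0 := tendsto_exp0 hg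
  have hE1 := tendsto_mul_exp hg
  have hE2 := tendsto_pow_exp 2 hg
  have hD0 := tendsto_exp0 hD
  have hD1 := tendsto_mul_exp hD
  have hD2 := tendsto_pow_exp 2 hD
  have h1 : Tendsto (fun L : ℝ => 2 * ((1 + 4 * C ^ 2 * K * L + 2 * C * K * L +
      4 * C ^ 3 * K ^ 2 * L ^ 2) * Real.exp (-(g * L)))) atTop (𝓝 0) := by
    have h := ((hE0.const_mul 2).add (hE1.const_mul (2 * (4 * C ^ 2 * K + 2 * C * K)))).add
      (hE2.const_mul (2 * (4 * C ^ 3 * K ^ 2)))
    simp only [mul_zero, add_zero] at h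
    refine h.congr fun L => ?_
    ring
  have h2 : Tendsto (fun L : ℝ => Real.sqrt (Real.exp (-(L / C)) + 4 * rr δ L)) atTop (𝓝 0) := by
    have h3 : Tendsto (fun L : ℝ => Real.exp (-(L / C))) atTop (𝓝 0) := by
      have := tendsto_exp0 (γ := 1 / C) (by positivity)
      refine this.congr fun L => ?_
      congr 2; ring
    have h4 := h3.add ((tendsto_rr hδ).const_mul 4)
    simp only [mul_zero, add_zero] at h4
    have h5 := (Real.continuous_sqrt.tendsto 0).comp h4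
    rw [Real.sqrt_zero] at h5
    exact h5
  have h3 : Tendsto (fun L : ℝ => (12 + 48 * C ^ 2 * K * L) * Real.exp (-(D * L)))
      atTop (𝓝 0) := by
    have h := (hD0.const_mul 12).add (hD1.const_mul (48 * C ^ 2 * K))
    simp only [mul_zero, add_zero] at h
    refine h.congr fun L => ?_
    ring
  have h4 : Tendsto (fun L : ℝ => 16 * (2 * C * K * L + 4 * K * L +
      24 * C ^ 2 * K ^ 2 * L ^ 2) * Real.exp (-(D * L))) atTop (𝓝 0) := by
    have h := (hD1.const_mul (16 * (2 * C * K + 4 * K))).add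
      (hD2.const_mul (16 * (24 * C ^ 2 * K ^ 2)))
    simp only [mul_zero, add_zero] at h
    refine h.congr fun L => ?_
    ring
  have h := ((h1.add h2).add h3).add h4
  simp only [add_zero] at h
  exact h

lemma tendsto_logN : Tendsto (fun n : ℕ => Real.log (n : ℝ)) atTop atTop :=
  Real.tendsto_log_atTop.comp tendsto_natCast_atTop_atTop

/-- After `(1+δ)τ` steps the walk is mixed, uniformly over nearly uniform weights. -/
theorem upper_asym {c C δ ε : ℝ} (hc : 0 < c) (hC : 1 ≤ C) (hδ : 0 < δ) (hδ1 : δ ≤ 1)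
    (hε : 0 < ε) :
    ∃ N0 : ℕ, ∀ n : ℕ, N0 ≤ n → ∀ (p : Fin n → ℝ) (τ : ℝ) (t : ℕ),
      (∀ i, c / n ≤ p i) → (∀ i, p i ≤ C / n) → ∑ i, p i = 1 →
      ∑ i, Real.exp (-(2 * p i * τ)) = 1 → (1 + δ) * τ ≤ t → (t : ℝ) ≤ (1 + δ) * τ + 1 →
      ∀ φ : Perm (Fin n) → ℝ, (∀ X, |φ X| ≤ 1) →
      |Ew p t (fun w => φ (Xw w)) - av φ ∅ 1| ≤ ε := by
  have hg : 0 < δ / 2 / (1 + δ) / 2 := by positivity
  have hD : 0 < δ * c / (2 * C) := by positivity
  set K := (1 + δ) / (2 * c) + 1 with hK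
  have e1 : ∀ᶠ L : ℝ in atTop, 1 ≤ L := eventually_ge_atTop 1
  have e2 : ∀ᶠ L : ℝ in atTop, 64 * C * Real.exp (-(δ / 2 / (1 + δ) / 2 * L)) ≤ δ := by
    have h := (tendsto_exp0 hg).const_mul (64 * C)
    rw [mul_zero] at h
    exact h.eventually_le_const hδ
  have e3 : ∀ᶠ L : ℝ in atTop,
      96 * C ^ 3 * K ^ 2 * L ^ 2 * Real.exp (-(δ / 2 / (1 + δ) / 2 * L)) ≤ 1 := by
    have h := (tendsto_pow_exp 2 hg).const_mul (96 * C ^ 3 * K ^ 2)
    rw [mul_zero] at h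
    refine (h.eventually_le_const one_pos).mono fun L hL => ?_
    linarith
  have e4 : ∀ᶠ L : ℝ in atTop, rr δ L ≤ 1 / 2 := (tendsto_rr hδ).eventually_le_const (by norm_num)
  have e5 : ∀ᶠ L : ℝ in atTop,
      err C K δ (δ * c / (2 * C)) (Real.exp (-(δ / 2 / (1 + δ) / 2 * L))) L ≤ ε :=
    (tendsto_err (by linarith) hδ hD hg).eventually_le_const hε
  have e6 := tendsto_logN.eventually ((((e1.and e2).and e3).and e4).and e5)
  obtain ⟨N0, hN0⟩ := eventually_atTop.1 e6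
  refine ⟨max N0 4, fun n hn p τ t hpc hpC hs hτ ht1 ht2 φ hφ => ?_⟩
  obtain ⟨⟨⟨⟨f1, f2⟩, f3⟩, f4⟩, f5⟩ := hN0 n ((le_max_left _ _).trans hn)
  have hcard : Fintype.card (Fin n) = n := Fintype.card_fin n
  have hn4 : 4 ≤ Fintype.card (Fin n) := by
    rw [hcard]; exact (le_max_right _ _).trans hn
  have h := upper_det (p := p) (c := c) (C := C) (δ := δ) (τ := τ) (K := K)
    (E := Real.exp (-(δ / 2 / (1 + δ) / 2 * Real.log n))) (t := t) hn4 hc hC hδ hδ1
    (by rw [hcard]; exact hpc) (by rw [hcard]; exact hpC) hs hτ ht1 ht2 hK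
    (by rw [hcard]; exact f1) (by rw [hcard]) f2 (by rw [hcard]; exact f3)
    (by rw [hcard]; exact f4) hφ
  rw [hcard] at h
  exact h.trans f5

lemma exp_le_one_sub {x : ℝ} (hx0 : 0 ≤ x) (hx : x ≤ 1 / 2) :
    Real.exp (-(x + 2 * x ^ 2)) ≤ 1 - x := by
  have h1 : 1 + (x + 2 * x ^ 2) ≤ Real.exp (x + 2 * x ^ 2) := by
    linarith [Real.add_one_le_exp (x + 2 * x ^ 2)]
  have h2 : 1 ≤ (1 - x) * Real.exp (x + 2 * x ^ 2) := by
    calc (1 : ℝ) ≤ (1 - x) * (1 + (x + 2 * x ^ 2)) := by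
          nlinarith [mul_nonneg (sq_nonneg x) (by linarith : 0 ≤ 1 - 2 * x)]
      _ ≤ _ := mul_le_mul_of_nonneg_left h1 (by linarith)
  rw [Real.exp_neg, inv_eq_one_div, div_le_iff₀ (Real.exp_pos _)]
  exact h2

/-- the expected number of untouched sites is large before `(1-δ)τ` -/
lemma mu_ge {n : ℕ} {c C δ τ : ℝ} {p : Fin n → ℝ} {t : ℕ} (hn : 2 ≤ n) (hc : 0 < c)
    (hC : 1 ≤ C) (hδ : 0 < δ) (hpc : ∀ i, c / n ≤ p i) (hpC : ∀ i, p i ≤ C / n)
    (hτ : ∑ i, Real.exp (-(2 * p i * τ)) = 1) (ht : (t : ℝ) ≤ (1 - δ) * τ)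
    (hL : 2 * C ^ 2 / c * Real.log n ≤ n) (hnC : 2 * C ≤ n) :
    Real.exp (-1) * Real.exp (δ * c / C * Real.log n) ≤ mu p t := by
  set L := Real.log (n : ℝ) with hLd
  have hn2 : (2 : ℝ) ≤ n := by exact_mod_cast hn
  have hN0 : (0 : ℝ) < n := by linarith
  have hC0 : 0 < C := by linarith
  have hL0 : 0 ≤ L := Real.log_nonneg (by linarith)
  have hcard : Fintype.card (Fin n) = n := Fintype.card_fin n
  have hp : ∀ i, 0 < p i := fun i => lt_of_lt_of_le (div_pos hc hN0) (hpc i)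
  have hτ0 : 0 ≤ τ := tau_nonneg (by rw [hcard]; exact hn) hp hτ
  have hτl : (n : ℝ) * L / (2 * C) ≤ τ := by
    have := tau_lower (by rw [hcard]; exact hn) hC0 hp (by rw [hcard]; exact hpC) hτ
    rwa [hcard] at this
  have hτu : τ ≤ (n : ℝ) * L / (2 * c) := by
    have := tau_upper (by rw [hcard]; exact hn) hc hp (by rw [hcard]; exact hpc) hτ
    rwa [hcard] at this
  have hterm : ∀ i, Real.exp (-(2 * p i * τ)) * (Real.exp (-1) * Real.exp (δ * c / C * L)) ≤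
      ((1 - p i) ^ 2) ^ t := by
    intro i
    have hpi := hp i
    have hpi2 : p i ≤ 1 / 2 := by
      refine (hpC i).trans ?_
      rw [div_le_iff₀ hN0]; linarith
    have h1 : Real.exp (-(p i + 2 * (p i) ^ 2)) ≤ 1 - p i := exp_le_one_sub hpi.le hpi2
    have h2 : (Real.exp (-(p i + 2 * (p i) ^ 2)) ^ 2) ^ t ≤ ((1 - p i) ^ 2) ^ t :=
      pow_le_pow_left₀ (by positivity) (pow_le_pow_left₀ (Real.exp_pos _).le h1 2) t
    refine le_trans ?_ h2
    rw [← Real.exp_nat_mul, ← Real.exp_nat_mul, ← Real.exp_add, ← Real.exp_add, Real.exp_le_exp]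
    push_cast
    -- `2 t p ≤ 2 τ p - 2 δ τ p`, and `4 t p² ≤ 1`
    have h3 : (t : ℝ) * p i ≤ (1 - δ) * τ * p i := mul_le_mul_of_nonneg_right ht hpi.le
    have h4 : c / n * ((n : ℝ) * L / (2 * C)) ≤ p i * τ :=
      mul_le_mul (hpc i) hτl (by positivity) hpi.le
    have h5 : c / n * ((n : ℝ) * L / (2 * C)) = c * L / (2 * C) := by field_simp
    rw [h5] at h4
    have h6 : δ * (c * L / (2 * C)) ≤ δ * (p i * τ) := mul_le_mul_of_nonneg_left h4 hδ.le
    have h7 : (t : ℝ) ≤ τ := by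
      have := mul_nonneg hδ.le hτ0
      linarith
    have h8 : (t : ℝ) * (p i) ^ 2 ≤ (n * L / (2 * c)) * (C / n) ^ 2 :=
      mul_le_mul (h7.trans hτu) (pow_le_pow_left₀ hpi.le (hpC i) 2) (by positivity)
        (by positivity)
    have h9 : (n * L / (2 * c)) * (C / n) ^ 2 = (2 * C ^ 2 / c * L) / (4 * n) := by
      field_simp
      ring
    rw [h9] at h8
    have h10 : (2 * C ^ 2 / c * L) / (4 * n) ≤ 1 / 4 := by
      rw [div_le_div_iff₀ (by positivity) (by norm_num)]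
      linarith
    have h11 : δ * c / C * L = 2 * (δ * (c * L / (2 * C))) := by field_simp
    rw [h11]
    nlinarith only [h3, h6, h8, h10]
  calc Real.exp (-1) * Real.exp (δ * c / C * L)
      = ∑ i, Real.exp (-(2 * p i * τ)) * (Real.exp (-1) * Real.exp (δ * c / C * L)) := by
        rw [← Finset.sum_mul, hτ, one_mul]
    _ ≤ mu p t := Finset.sum_le_sum fun i _ => hterm i

/-- Before `(1-δ)τ` steps the walk is far from uniform, uniformly over nearly uniform weights. -/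
theorem lower_asym {c C δ ε : ℝ} (hc : 0 < c) (hC : 1 ≤ C) (hδ : 0 < δ) (hε : 0 < ε) :
    ∃ N0 : ℕ, ∀ n : ℕ, N0 ≤ n → ∀ (p : Fin n → ℝ) (τ : ℝ) (t : ℕ),
      (∀ i, c / n ≤ p i) → (∀ i, p i ≤ C / n) → ∑ i, p i = 1 →
      ∑ i, Real.exp (-(2 * p i * τ)) = 1 → (t : ℝ) ≤ (1 - δ) * τ →
      ∃ K : ℝ, 1 - ε ≤ Ew p t (fun w => tst K (Xw w)) - av (tst K) ∅ (1 : Perm (Fin n)) := by
  have hg : 0 < δ * c / C := by positivity
  have e1 : ∀ᶠ L : ℝ in atTop, 6 * Real.exp 1 * Real.exp (-(δ * c / C * L)) ≤ ε := by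
    have h := (tendsto_exp0 hg).const_mul (6 * Real.exp 1)
    rw [mul_zero] at h
    exact h.eventually_le_const hε
  have e2 : ∀ᶠ L : ℝ in atTop, 2 * C ^ 2 / c * (L * Real.exp (-(1 * L))) ≤ 1 := by
    have h := (tendsto_mul_exp one_pos).const_mul (2 * C ^ 2 / c)
    rw [mul_zero] at h
    exact h.eventually_le_const one_pos
  have e3 := tendsto_logN.eventually (e1.and e2)
  obtain ⟨N0, hN0⟩ := eventually_atTop.1 e3
  obtain ⟨N1, hN1⟩ := exists_nat_ge (2 * C)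
  refine ⟨max N0 (max N1 2), fun n hn p τ t hpc hpC hs hτ ht => ?_⟩
  obtain ⟨f1, f2⟩ := hN0 n ((le_max_left _ _).trans hn)
  have hn1 : N1 ≤ n := ((le_max_left _ _).trans (le_max_right _ _)).trans hn
  have hn2 : 2 ≤ n := ((le_max_right _ _).trans (le_max_right _ _)).trans hn
  have hn2' : (2 : ℝ) ≤ n := by exact_mod_cast hn2
  have hN0 : (0 : ℝ) < n := by linarith
  have hnC : 2 * C ≤ n := hN1.trans (by exact_mod_cast hn1)
  have hL : 2 * C ^ 2 / c * Real.log n ≤ n := by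
    rw [one_mul, Real.exp_neg, Real.exp_log hN0, ← mul_assoc, ← div_eq_mul_inv,
      div_le_one hN0] at f2
    exact f2
  have hμ := mu_ge hn2 hc hC hδ hpc hpC hτ ht hL hnC
  have hμ0 : 0 < mu p t := lt_of_lt_of_le (by positivity) hμ
  have : Nonempty (Fin n) := ⟨⟨0, by omega⟩⟩
  have hp : ∀ i, 0 ≤ p i := fun i => (le_of_lt (div_pos hc hN0)).trans (hpc i)
  refine ⟨mu p t / 2, le_trans ?_ (lower hp hs t hμ0)⟩
  have h1 : 6 / mu p t ≤ ε := by
    refine le_trans ?_ f1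
    rw [div_le_iff₀ hμ0]
    have h2 : 6 * Real.exp 1 * Real.exp (-(δ * c / C * Real.log n)) *
        (Real.exp (-1) * Real.exp (δ * c / C * Real.log n)) = 6 := by
      have h3 : Real.exp 1 * Real.exp (-1) = 1 := by rw [← Real.exp_add]; simp
      have h4 : Real.exp (-(δ * c / C * Real.log n)) * Real.exp (δ * c / C * Real.log n) = 1 := by
        rw [← Real.exp_add]; simp
      calc _ = 6 * (Real.exp 1 * Real.exp (-1)) *
            (Real.exp (-(δ * c / C * Real.log n)) * Real.exp (δ * c / C * Real.log n)) := by ring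
        _ = 6 := by rw [h3, h4]; ring
    calc (6 : ℝ) = _ := h2.symm
      _ ≤ _ := mul_le_mul_of_nonneg_left hμ (by positivity)
  linarith

end Pool.Agent.Lib.MP_8c2010_pr
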