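import Pool.Agent.Lib.MP_8c2010_pr.Cond

set_option autoImplicit false
set_option linter.unusedSectionVars false

/-! # Backward contraction of one point marginals in the environment of the followed cards -/

namespace Pool.Agent.Lib.MP_8c2010_pr

open Equiv Finset

variable {α : Type*} [Fintype α] [DecidableEq α]

/-- the cards which visited `S` so far -/
noncomputable def vis (S : Finset α) : List (α × α) → Finset α
  | [] => S
  | a :: w => vis S w ∪ S.image (fun x => (Xw (a :: w))⁻¹ x)

/-- number of steps moving a card of `Γ` -/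
def mvs (Γ : Finset α) : List (α × α) → ℕ
  | [] => 0
  | a :: w => mvs Γ w + if (∀ c ∈ Γ, swap a.1 a.2 (Xw w c) = Xw w c) then 0 else 1

lemma mvs_le_length (Γ : Finset α) (w : List (α × α)) : mvs Γ w ≤ w.length := by
  induction w with
  | nil => simp [mvs]
  | cons a w ih =>
    simp only [mvs, List.length_cons]
    split_ifs <;> omega

lemma inv_mem_vis {S : Finset α} (w : List (α × α)) {x : α} (hx : x ∈ S) :
    (Xw w)⁻¹ x ∈ vis S w := by
  cases w with
  | nil => simpa [vis, Xw] using hx
  | cons a w => exact Finset.mem_union_right _ (Finset.mem_image.2 ⟨x, hx, rfl⟩)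

lemma vis_subset_cons (S : Finset α) (a : α × α) (w : List (α × α)) :
    vis S w ⊆ vis S (a :: w) := Finset.subset_union_left

lemma free_not_mem_S {S Γ : Finset α} {w : List (α × α)} (hΓ : vis S w ⊆ Γ) {y : α}
    (hy : y ∈ free Γ (Xw w)) : y ∉ S := by
  intro hyS
  have := mem_free.1 hy _ (hΓ (inv_mem_vis w hyS))
  exact this (by simp)

lemma swap_eq_swap_of_ne {i j v v' : α} (h : swap i j v = v') (hne : v' ≠ v) :
    swap i j = swap v v' := by
  rw [swap_apply_def] at h
  split_ifs at h with h1 h2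
  · rw [h1, h]
  · rw [h2, h, swap_comm]
  · exact absurd h.symm hne

lemma cls_of_not_free {Γ : Finset α} {w : List (α × α)} {a a' : α × α}
    (ha : ¬ ∀ c ∈ Γ, swap a.1 a.2 (Xw w c) = Xw w c) (ha' : a' ∈ cls Γ w a) :
    swap a'.1 a'.2 = swap a.1 a.2 := by
  push Not at ha
  obtain ⟨c, hc, hne⟩ := ha
  have e1 := swap_eq_swap_of_ne (mem_cls.1 ha' c hc) hne
  have e2 := swap_eq_swap_of_ne (rfl : swap a.1 a.2 (Xw w c) = _) hne
  exact e1.trans e2.symm

lemma freeStep_iff {Γ : Finset α} {g : Perm α} {a : α × α} :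
    FreeStep (free Γ g) a ↔ ∀ c ∈ Γ, swap a.1 a.2 (g c) = g c := by
  constructor
  · intro ha c hc
    exact swap_fix_of_free ha hc
  · intro h
    by_cases hne : a.1 = a.2
    · exact Or.inl hne
    · refine Or.inr ⟨mem_free.2 fun c hc e => ?_, mem_free.2 fun c hc e => ?_⟩
      · have := h c hc
        rw [e, swap_apply_left] at this
        exact hne this.symm
      · have := h c hc
        rw [e, swap_apply_right] at this
        exact hne this

lemma cls_of_free {Γ : Finset α} {w : List (α × α)} {a : α × α}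
    (ha : ∀ c ∈ Γ, swap a.1 a.2 (Xw w c) = Xw w c) :
    cls Γ w a = Finset.univ.filter (FreeStep (free Γ (Xw w))) := by
  ext a'
  rw [mem_cls, Finset.mem_filter, freeStep_iff]
  simp only [Finset.mem_univ, true_and]
  exact forall₂_congr fun c hc => by rw [ha c hc]

/-- one point marginal of the conditional law -/
noncomputable def kk (p : α → ℝ) (Γ : Finset α) (w : List (α × α)) (c y : α) : ℝ :=
  ci p Γ w (fun X => if X c = y then 1 else 0)

lemma kk_nil (p : α → ℝ) (Γ : Finset α) (c y : α) : kk p Γ [] c y = if c = y then 1 else 0 := by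
  rw [kk, ci_nil]; rfl

lemma kk_cons (p : α → ℝ) (Γ : Finset α) (a : α × α) (w : List (α × α)) (c y : α) :
    kk p Γ (a :: w) c y = (∑ a' ∈ cls Γ w a, wt p a' * kk p Γ w c (swap a'.1 a'.2 y)) /
      ∑ a' ∈ cls Γ w a, wt p a' := by
  rw [kk, ci_cons]
  congr 1
  refine Finset.sum_congr rfl fun a' _ => ?_
  congr 1
  rw [kk]
  congr 1
  ext X
  refine if_congr ?_ rfl rfl
  rw [Perm.mul_apply]
  constructor
  · intro h; rw [← h, swap_apply_self]
  · intro h; rw [h, swap_apply_self]

lemma kk_nonneg {p : α → ℝ} (hp : ∀ i, 0 < p i) (Γ : Finset α) (w : List (α × α)) (c y : α) :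
    0 ≤ kk p Γ w c y := ci_nonneg hp Γ w fun X => by split_ifs <;> norm_num

lemma sum_kk {p : α → ℝ} (hp : ∀ i, 0 < p i) {Γ : Finset α} (w : List (α × α)) {c : α}
    (hc : c ∉ Γ) : ∑ y ∈ free Γ (Xw w), kk p Γ w c y = 1 := by
  simp only [kk]
  rw [← ci_fsum]
  refine (ci_congr Γ w (ψ := fun _ => 1) fun X hX => ?_).trans (ci_one hp Γ w)
  have hmem : X c ∈ free Γ (Xw w) := by
    rw [mem_free]
    intro d hd e
    rw [← hX d hd] at e
    exact hc (X.injective e ▸ hd)
  rw [Finset.sum_ite_eq, if_pos hmem]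

lemma kk_cons_of_not_free {p : α → ℝ} (hp : ∀ i, 0 < p i) {Γ : Finset α} {a : α × α}
    {w : List (α × α)} (ha : ¬ ∀ c ∈ Γ, swap a.1 a.2 (Xw w c) = Xw w c) (c y : α) :
    kk p Γ (a :: w) c y = kk p Γ w c (swap a.1 a.2 y) := by
  rw [kk_cons]
  have h1 : ∑ a' ∈ cls Γ w a, wt p a' * kk p Γ w c (swap a'.1 a'.2 y) =
      (∑ a' ∈ cls Γ w a, wt p a') * kk p Γ w c (swap a.1 a.2 y) := by
    rw [Finset.sum_mul]
    exact Finset.sum_congr rfl fun a' ha' => by rw [cls_of_not_free ha ha']
  rw [h1, mul_div_cancel_left₀ _ (sum_cls_pos hp Γ w a).ne']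

lemma kk_cons_of_free {p : α → ℝ} (hp : ∀ i, 0 < p i) {Γ : Finset α} {a : α × α}
    {w : List (α × α)} (ha : ∀ c ∈ Γ, swap a.1 a.2 (Xw w c) = Xw w c) (c : α) {y : α}
    (hy : y ∈ free Γ (Xw w)) :
    kk p Γ (a :: w) c y = kk p Γ w c y + 2 * p y / Wf p (free Γ (Xw w)) *
      ∑ z ∈ free Γ (Xw w), p z * (kk p Γ w c z - kk p Γ w c y) := by
  have hW : 0 < Wf p (free Γ (Xw w)) := by
    rw [Wf, ← cls_of_free ha]
    exact sum_cls_pos hp Γ w a
  rw [kk_cons, cls_of_free ha, freeAvg p hy]
  change _ / Wf p (free Γ (Xw w)) = _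
  field_simp

lemma free_cons (Γ : Finset α) (a : α × α) (w : List (α × α)) {y : α} :
    y ∈ free Γ (Xw (a :: w)) ↔ swap a.1 a.2 y ∈ free Γ (Xw w) := by
  rw [mem_free, mem_free]
  refine forall₂_congr fun c _ => not_congr ?_
  simp only [Xw, Perm.mul_apply]
  constructor
  · intro h; rw [← h, swap_apply_self]
  · intro h; rw [h, swap_apply_self]

/-- backward contraction -/
theorem bwd {p : α → ℝ} {S : Finset α} {b m η : ℝ} (h : Setup p S b m η)
    {Γ : Finset α} (hΓ : Γ.card * b ≤ η) (w : List (α × α)) :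
    vis S w ⊆ Γ → ∀ y ∈ free Γ (Xw w), ∀ y' ∈ free Γ (Xw w),
      ∑ c ∈ Γᶜ, |kk p Γ w c y - kk p Γ w c y'| ≤
        2 * (1 - (1 - η) * (2 * m)) ^ (w.length - mvs Γ w) := by
  induction w with
  | nil =>
    intro _ y _ y' _
    simp only [kk_nil, List.length_nil, mvs, Nat.sub_zero, pow_zero, mul_one]
    calc ∑ c ∈ Γᶜ, |(if c = y then (1 : ℝ) else 0) - (if c = y' then 1 else 0)|
        ≤ ∑ c ∈ Γᶜ, ((if c = y then (1 : ℝ) else 0) + (if c = y' then 1 else 0)) := by
          refine Finset.sum_le_sum fun c _ => ?_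
          split_ifs <;> norm_num
      _ ≤ 2 := by
          rw [Finset.sum_add_distrib, Finset.sum_ite_eq', Finset.sum_ite_eq']
          split_ifs <;> norm_num
  | cons a w ih =>
    intro hv y hy y' hy'
    have hvw : vis S w ⊆ Γ := (vis_subset_cons S a w).trans hv
    have hml := mvs_le_length Γ w
    by_cases ha : ∀ c ∈ Γ, swap a.1 a.2 (Xw w c) = Xw w c
    · -- free step
      have hlen : (a :: w).length - mvs Γ (a :: w) = (w.length - mvs Γ w) + 1 := by
        simp only [mvs, if_pos ha, List.length_cons]; omega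
      rw [hlen]
      have hNeq : free Γ (Xw (a :: w)) = free Γ (Xw w) := by
        rw [free, free]
        congr 1
        refine Finset.image_congr fun c hc => ?_
        simp only [Xw, Perm.mul_apply]
        exact ha c hc
      rw [hNeq] at hy hy'
      set N := free Γ (Xw w) with hN
      set D := 2 * (1 - (1 - η) * (2 * m)) ^ (w.length - mvs Γ w) with hD
      set PN := ∑ z ∈ N, p z with hPN
      have hPN1 : 1 - η ≤ PN := h.sum_free_ge hΓ (Xw w)
      have hη := h.η_le
      have hη0 := h.η_nonneg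
      have hPN2 : PN ≤ 1 := h.sum_le_one N
      have hW1 := h.Wf_le_one N
      have hW2 := h.sq_le_Wf N
      rw [← hPN] at hW2
      have hWpos : 0 < Wf p N := by nlinarith
      have hb8 := h.b_small
      -- the symmetric statement
      have main : ∀ y ∈ N, ∀ y' ∈ N, p y ≤ p y' →
          ∑ c ∈ Γᶜ, |kk p Γ (a :: w) c y - kk p Γ (a :: w) c y'| ≤
            (1 - (1 - η) * (2 * m)) * D := by
        intro y hy y' hy' hord
        have hyS : y ∉ S := free_not_mem_S hvw hy
        have hpy := h.m_le y hyS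
        have hpyb := h.le_b y
        have hpyb' := h.le_b y'
        have hm0 := h.m_pos
        have hD0 : 0 ≤ D := by
          have : 0 ≤ 1 - (1 - η) * (2 * m) := by nlinarith
          positivity
        set W := Wf p N with hW
        have hay' : 2 * p y' * PN / W ≤ 1 := by
          rw [div_le_one hWpos]
          have := h.pos y'
          nlinarith
        have hay : (1 - η) * (2 * m) ≤ 2 * p y * PN / W := by
          rw [le_div_iff₀ hWpos]
          have h0 : 0 ≤ (1 - η) * (2 * m) := by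
            apply mul_nonneg <;> linarith
          have h1 : (1 - η) * (2 * m) * W ≤ (1 - η) * (2 * m) * 1 :=
            mul_le_mul_of_nonneg_left hW1 h0
          nlinarith
        have hdiff : 0 ≤ 2 * (p y' - p y) / W := div_nonneg (by linarith) hWpos.le
        have hterm : ∀ c ∈ Γᶜ, |kk p Γ (a :: w) c y - kk p Γ (a :: w) c y'| ≤
            (1 - 2 * p y' * PN / W) * |kk p Γ w c y - kk p Γ w c y'| +
            2 * (p y' - p y) / W * ∑ z ∈ N, p z * |kk p Γ w c y - kk p Γ w c z| := by
          intro c _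
          rw [kk_cons_of_free h.pos ha c hy, kk_cons_of_free h.pos ha c hy', ← hN, ← hW]
          have e3 : ∀ v, ∑ z ∈ N, p z * (kk p Γ w c z - kk p Γ w c v) =
              ∑ z ∈ N, p z * kk p Γ w c z - PN * kk p Γ w c v := by
            intro v
            rw [hPN, Finset.sum_mul, ← Finset.sum_sub_distrib]
            exact Finset.sum_congr rfl fun z _ => by ring
          have e5 : ∑ z ∈ N, p z * (kk p Γ w c y - kk p Γ w c z) =
              PN * kk p Γ w c y - ∑ z ∈ N, p z * kk p Γ w c z := by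
            rw [hPN, Finset.sum_mul, ← Finset.sum_sub_distrib]
            exact Finset.sum_congr rfl fun z _ => by ring
          have e6 : kk p Γ w c y + 2 * p y / W * ∑ z ∈ N, p z * (kk p Γ w c z - kk p Γ w c y) -
              (kk p Γ w c y' + 2 * p y' / W * ∑ z ∈ N, p z * (kk p Γ w c z - kk p Γ w c y')) =
              (1 - 2 * p y' * PN / W) * (kk p Γ w c y - kk p Γ w c y') +
              2 * (p y' - p y) / W * ∑ z ∈ N, p z * (kk p Γ w c y - kk p Γ w c z) := by
            rw [e3, e3, e5]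
            field_simp
            ring
          rw [e6]
          refine (abs_add_le _ _).trans ?_
          rw [abs_mul, abs_mul, abs_of_nonneg (by linarith : (0 : ℝ) ≤ 1 - 2 * p y' * PN / W),
            abs_of_nonneg hdiff]
          refine add_le_add le_rfl (mul_le_mul_of_nonneg_left ?_ hdiff)
          refine (Finset.abs_sum_le_sum_abs _ _).trans (Finset.sum_le_sum fun z _ => ?_)
          rw [abs_mul, abs_of_nonneg (h.nonneg z)]
        calc ∑ c ∈ Γᶜ, |kk p Γ (a :: w) c y - kk p Γ (a :: w) c y'|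
            ≤ ∑ c ∈ Γᶜ, ((1 - 2 * p y' * PN / W) * |kk p Γ w c y - kk p Γ w c y'| +
            2 * (p y' - p y) / W * ∑ z ∈ N, p z * |kk p Γ w c y - kk p Γ w c z|) :=
              Finset.sum_le_sum hterm
          _ = (1 - 2 * p y' * PN / W) * ∑ c ∈ Γᶜ, |kk p Γ w c y - kk p Γ w c y'| +
            2 * (p y' - p y) / W * ∑ z ∈ N, p z * ∑ c ∈ Γᶜ, |kk p Γ w c y - kk p Γ w c z| := by
              rw [Finset.sum_add_distrib, ← Finset.mul_sum, ← Finset.mul_sum, Finset.sum_comm]
              congr 2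
              exact Finset.sum_congr rfl fun z _ => by rw [Finset.mul_sum]
          _ ≤ (1 - 2 * p y' * PN / W) * D + 2 * (p y' - p y) / W * ∑ z ∈ N, p z * D := by
              refine add_le_add (mul_le_mul_of_nonneg_left (ih hvw y hy y' hy') (by linarith))
                (mul_le_mul_of_nonneg_left (Finset.sum_le_sum fun z hz => ?_) hdiff)
              exact mul_le_mul_of_nonneg_left (ih hvw y hy z hz) (h.nonneg z)
          _ = (1 - 2 * p y * PN / W) * D := by
              rw [← Finset.sum_mul, ← hPN]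
              field_simp
              ring
          _ ≤ _ := mul_le_mul_of_nonneg_right (by linarith) hD0
      have hfin : ∑ c ∈ Γᶜ, |kk p Γ (a :: w) c y - kk p Γ (a :: w) c y'| ≤
            (1 - (1 - η) * (2 * m)) * D := by
        rcases le_total (p y) (p y') with hord | hord
        · exact main y hy y' hy' hord
        · have := main y' hy' y hy hord
          refine le_trans (le_of_eq ?_) this
          exact Finset.sum_congr rfl fun c _ => abs_sub_comm _ _
      refine hfin.trans (le_of_eq ?_)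
      rw [hD]; ring
    · have hlen : (a :: w).length - mvs Γ (a :: w) = w.length - mvs Γ w := by
        simp only [mvs, if_neg ha, List.length_cons]; omega
      rw [hlen]
      have := ih hvw (swap a.1 a.2 y) ((free_cons Γ a w).1 hy) (swap a.1 a.2 y')
        ((free_cons Γ a w).1 hy')
      refine le_trans (le_of_eq ?_) this
      refine Finset.sum_congr rfl fun c _ => ?_
      rw [kk_cons_of_not_free h.pos ha, kk_cons_of_not_free h.pos ha]

/-- the one point marginal is close to uniform -/
theorem bwd_unif {p : α → ℝ} {S : Finset α} {b m η : ℝ} (h : Setup p S b m η)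
    {Γ : Finset α} (hΓ : Γ.card * b ≤ η) (w : List (α × α))
    (hv : vis S w ⊆ Γ) {y : α} (hy : y ∈ free Γ (Xw w)) :
    ∑ c ∈ Γᶜ, |kk p Γ w c y - 1 / ((Fintype.card α : ℝ) - Γ.card)| ≤
        2 * (1 - (1 - η) * (2 * m)) ^ (w.length - mvs Γ w) := by
  have hfc : ((free Γ (Xw w)).card : ℝ) = (Fintype.card α : ℝ) - Γ.card := by
    rw [card_free, Nat.cast_sub (Finset.card_le_univ Γ)]
  have hpos : (0 : ℝ) < (Fintype.card α : ℝ) - Γ.card := by
    rw [← hfc]
    exact_mod_cast Finset.card_pos.2 ⟨y, hy⟩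
  have h1 : ∀ c ∈ Γᶜ, |kk p Γ w c y - 1 / ((Fintype.card α : ℝ) - Γ.card)| ≤
      (1 / ((Fintype.card α : ℝ) - Γ.card)) *
        ∑ y' ∈ free Γ (Xw w), |kk p Γ w c y - kk p Γ w c y'| := by
    intro c hc
    have h2 : kk p Γ w c y - 1 / ((Fintype.card α : ℝ) - Γ.card) =
        (1 / ((Fintype.card α : ℝ) - Γ.card)) *
        ∑ y' ∈ free Γ (Xw w), (kk p Γ w c y - kk p Γ w c y') := by
      rw [Finset.sum_sub_distrib, sum_kk h.pos w (Finset.mem_compl.1 hc), Finset.sum_const,
        nsmul_eq_mul, hfc]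
      field_simp
    rw [h2, abs_mul, abs_of_pos (one_div_pos.2 hpos)]
    exact mul_le_mul_of_nonneg_left (Finset.abs_sum_le_sum_abs _ _) (one_div_pos.2 hpos).le
  calc _ ≤ ∑ c ∈ Γᶜ, (1 / ((Fintype.card α : ℝ) - Γ.card)) *
        ∑ y' ∈ free Γ (Xw w), |kk p Γ w c y - kk p Γ w c y'| := Finset.sum_le_sum h1
    _ = (1 / ((Fintype.card α : ℝ) - Γ.card)) *
        ∑ y' ∈ free Γ (Xw w), ∑ c ∈ Γᶜ, |kk p Γ w c y - kk p Γ w c y'| := by
        rw [← Finset.mul_sum, Finset.sum_comm]
    _ ≤ (1 / ((Fintype.card α : ℝ) - Γ.card)) *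
        ∑ _y' ∈ free Γ (Xw w), 2 * (1 - (1 - η) * (2 * m)) ^ (w.length - mvs Γ w) := by
        refine mul_le_mul_of_nonneg_left (Finset.sum_le_sum fun y' hy' => ?_)
          (one_div_pos.2 hpos).le
        exact bwd h hΓ w hv y hy y' hy'
    _ = _ := by
        rw [Finset.sum_const, nsmul_eq_mul, hfc]
        field_simp

end Pool.Agent.Lib.MP_8c2010_pr
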