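import Pool.Agent.Lib.MP_8c2010_pr.Step
import Pool.Agent.Lib.MP_8c2010_pr.Bwd

set_option autoImplicit false
set_option linter.unusedSectionVars false

/-! # Equidistribution of the bulk cards -/

namespace Pool.Agent.Lib.MP_8c2010_pr

open Equiv Finset

variable {α : Type*} [Fintype α] [DecidableEq α]

/-- the bulk cards -/
abbrev Bk (Γ : Finset α) := {c : α // c ∉ Γ}

lemma card_Bk (Γ : Finset α) : Fintype.card (Bk Γ) = Fintype.card α - Γ.card := by
  rw [Fintype.card_subtype_compl]
  simp

lemma sum_Bk (Γ : Finset α) (g : Perm α) (F : α → ℝ) :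
    ∑ c : Bk Γ, F (g c) = ∑ z ∈ free Γ g, F z := by
  have h1 : ∑ c ∈ Γᶜ, F (g c) = ∑ c : Bk Γ, F (g c) :=
    Finset.sum_subtype Γᶜ (fun x => Finset.mem_compl) (fun c => F (g c))
  rw [← h1]
  refine Finset.sum_bij (fun c _ => g c) ?_ ?_ ?_ ?_
  · intro c hc
    exact mem_free.2 fun d hd e => Finset.mem_compl.1 hc (g.injective e ▸ hd)
  · intro c _ c' _ e
    exact g.injective e
  · intro z hz
    refine ⟨g⁻¹ z, Finset.mem_compl.2 fun hh => mem_free.1 hz _ hh (by simp), by simp⟩
  · intro c _; rfl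

/-- averages over extensions are averages over the bulk permutations -/
lemma av_eq_Bk (φ : Perm α → ℝ) (Γ : Finset α) (g : Perm α) :
    av φ Γ g = (1 / (Fintype.card (Perm (Bk Γ)) : ℝ)) *
      ∑ h : Perm (Bk Γ), φ (g * Perm.ofSubtype h) := by
  have hbij : ∀ (g : Perm α) (ψ : Perm α → ℝ), ∑ X ∈ ext Γ g, ψ X =
      ∑ h : Perm (Bk Γ), ψ (g * Perm.ofSubtype h) := by
    intro g ψ
    symm
    refine Finset.sum_bij (fun h _ => g * Perm.ofSubtype h) ?_ ?_ ?_ ?_
    · intro h _
      refine mem_ext.2 fun c hc => ?_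
      rw [Perm.mul_apply, Perm.ofSubtype_apply_of_not_mem h (by simpa using hc)]
    · intro h _ h' _ e
      exact Perm.ofSubtype_injective (mul_left_cancel e)
    · intro X hX
      have hfix : ∀ c ∈ Γ, (g⁻¹ * X) c = c := by
        intro c hc
        rw [Perm.mul_apply, mem_ext.1 hX c hc]
        simp
      have h1 : ∀ x, x ∉ Γ ↔ (g⁻¹ * X) x ∉ Γ := by
        intro x
        constructor
        · intro hx hh
          have := hfix _ hh
          exact hx ((g⁻¹ * X).injective this ▸ hh)
        · intro hx hh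
          rw [hfix x hh] at hx
          exact hx hh
      refine ⟨(g⁻¹ * X).subtypePerm (p := fun c => c ∉ Γ) (fun x => (h1 x).symm), Finset.mem_univ _, ?_⟩
      rw [Perm.ofSubtype_subtypePerm]
      · simp
      · intro x hx hh
        exact hx (hfix x hh)
    · intro h _; rfl
  have hcard : ((ext Γ (1 : Perm α)).card : ℝ) = Fintype.card (Perm (Bk Γ)) := by
    have := hbij 1 (fun _ => 1)
    simpa using this
  rw [av, hbij, hcard]
  ring

lemma transl {β : Type*} [Fintype β] [DecidableEq β] (g : Perm β) (F : EE β) (ψ : Perm β → ℝ) :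
    ∑ k, Lr g F k * ψ k = ∑ h, F h * ψ (g * h) := by
  refine Finset.sum_equiv (Equiv.mulLeft g⁻¹) (by simp) ?_
  intro k _
  simp only [Equiv.coe_mulLeft, Lr_apply, mul_inv_cancel_left]

lemma norm_Lr {β : Type*} [Fintype β] [DecidableEq β] (g : Perm β) (f : EE β) :
    ‖Lr g f‖ = ‖f‖ := by
  have h1 : ‖Lr g f‖ ^ 2 = ‖f‖ ^ 2 := by
    rw [← real_inner_self_eq_norm_sq, ← real_inner_self_eq_norm_sq, orth_Lr, R_mul_apply,
      inv_mul_cancel, map_one]
    rfl
  exact (sq_eq_sq₀ (norm_nonneg _) (norm_nonneg _)).1 h1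

lemma lev_nonneg {n a : ℕ} : 0 ≤ lev n a := by
  unfold lev
  have h1 : (0 : ℝ) ≤ max ((n : ℝ) - a) ((n : ℝ) / 2) :=
    le_max_of_le_right (by positivity)
  positivity

lemma exists_free_perm {Γ : Finset α} {g : Perm α} {a : α × α} (ha : FreeStep (free Γ g) a) :
    ∃ h : Perm (Bk Γ), swap a.1 a.2 * g = g * Perm.ofSubtype h := by
  rcases ha with ha | ⟨h1, h2⟩
  · refine ⟨1, ?_⟩
    rw [ha, swap_self, map_one, mul_one]
    rfl
  · have e1 : g⁻¹ a.1 ∉ Γ := fun hh => mem_free.1 h1 _ hh (by simp)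
    have e2 : g⁻¹ a.2 ∉ Γ := fun hh => mem_free.1 h2 _ hh (by simp)
    refine ⟨swap ⟨g⁻¹ a.1, e1⟩ ⟨g⁻¹ a.2, e2⟩, ?_⟩
    rw [Perm.ofSubtype_swap_eq, Equiv.mul_swap_eq_swap_mul]
    simp

/-- the operator describing the conditional law of the bulk -/
theorem exists_bulk_op {p : α → ℝ} {S : Finset α} {b m η : ℝ} (h : Setup p S b m η)
    {Γ : Finset α} (hΓ : Γ.card * b ≤ η) [Nonempty (Bk Γ)] (w : List (α × α)) :
    vis S w ⊆ Γ → ∃ (M : Module.End ℝ (EE (Bk Γ))) (s : ℝ),
      (∀ a f, (WW (Bk Γ) a).starProjection (M f) = M ((WW (Bk Γ) a).starProjection f)) ∧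
      (∀ a, 1 ≤ a → a < Fintype.card (Bk Γ) → ∀ f ∈ WW (Bk Γ) a,
        ‖M f‖ ≤ Real.exp (-(2 * m * (1 - η) / Fintype.card (Bk Γ) *
          lev (Fintype.card (Bk Γ)) a)) ^ (w.length - mvs Γ w) * ‖f‖) ∧
      M (one1 _) = one1 _ ∧ M (sg1 _) = s • sg1 _ ∧
      |s| ≤ Real.exp (-(2 / (Fintype.card α : ℝ))) ^ (w.length - mvs Γ w) ∧
      (∀ φ : Perm α → ℝ, ci p Γ w φ = ∑ k, M (dl 1) k * φ (Xw w * Perm.ofSubtype k)) := by
  induction w with
  | nil =>
    intro _
    refine ⟨1, 1, fun _ _ => rfl, ?_, rfl, by simp, by simp [mvs], ?_⟩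
    · intro a _ _ f _
      simp [mvs]
    · intro φ
      rw [ci_nil]
      simp [dl_apply, Xw]
  | cons a w ih =>
    intro hv
    have hvw : vis S w ⊆ Γ := (vis_subset_cons S a w).trans hv
    obtain ⟨M, s, hM1, hM2, hM3, hM4, hM5, hM6⟩ := ih hvw
    have hml := mvs_le_length Γ w
    by_cases ha : ∀ c ∈ Γ, swap a.1 a.2 (Xw w c) = Xw w c
    · -- free step
      have hlen : (a :: w).length - mvs Γ (a :: w) = (w.length - mvs Γ w) + 1 := by
        simp only [mvs, if_pos ha, List.length_cons]; omega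
      set N := free Γ (Xw w) with hN
      set v : Bk Γ → ℝ := fun c => p (Xw w c) with hvdef
      set e : ℝ := ∑ z ∈ Nᶜ, (p z) ^ 2 with he
      have hsv : ∑ c, v c = ∑ z ∈ N, p z := sum_Bk Γ (Xw w) p
      have hW : (∑ c, v c) ^ 2 + e = Wf p N := by rw [Wf_eq, hsv]
      have hWpos : 0 < Wf p N := by
        rw [Wf, hN, ← cls_of_free ha]
        exact sum_cls_pos h.pos Γ w a
      have hWle := h.Wf_le_one N
      have hPN1 : 1 - η ≤ ∑ z ∈ N, p z := h.sum_free_ge hΓ (Xw w)
      have hη := h.η_le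
      have hη0 := h.η_nonneg
      have hm0 := h.m_pos
      have he0 : 0 ≤ e := Finset.sum_nonneg fun _ _ => sq_nonneg _
      have hmv : ∀ c, m ≤ v c := by
        intro c
        refine h.m_le _ (free_not_mem_S hvw ?_)
        exact mem_free.2 fun d hd e => c.2 ((Xw w).injective e ▸ hd)
      obtain ⟨g, hg⟩ := exists_free_perm (freeStep_iff.2 ha)
      set n' := Fintype.card (Bk Γ) with hn'
      have hn'pos : (0 : ℝ) < n' := by rw [hn']; exact_mod_cast Fintype.card_pos
      have hnpos : (0 : ℝ) < Fintype.card α := by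
        have : Nonempty α := ⟨(Classical.arbitrary (Bk Γ)).1⟩
        exact_mod_cast Fintype.card_pos
      refine ⟨Lr g⁻¹ * SP v e * M,
        ((Perm.sign g⁻¹ : ℤ) : ℝ) * ((2 * (∑ c, (v c) ^ 2) + e - (∑ c, v c) ^ 2) /
          ((∑ c, v c) ^ 2 + e)) * s, ?_, ?_, ?_, ?_, ?_, ?_⟩
      · intro k f
        simp only [Module.End.mul_apply]
        have hLr : ∀ (g : Perm (Bk Γ)) f, (WW (Bk Γ) k).starProjection (Lr g f) =
            Lr g ((WW (Bk Γ) k).starProjection f) := by
          intro g f
          exact proj_comm' (T' := Lr g⁻¹) (fun x y => orth_Lr g x y)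
            (fun w hw => Lr_mem_WW hw g) (fun w hw => Lr_mem_WW hw _) f
        rw [hLr, proj_comm (SP_symm v e) (fun x hx => SP_mem_WW v e hx), hM1]
      · intro k hk1 hk2 f hf
        simp only [Module.End.mul_apply]
        rw [norm_Lr, hlen, pow_succ']
        have hMf : M f ∈ WW (Bk Γ) k := by
          have := hM1 k f
          rw [Submodule.starProjection_eq_self_iff.2 hf] at this
          rw [← this]
          exact Submodule.starProjection_apply_mem _ _
        have h1 := SP_norm_le (w := v) hm0.le hmv he0 (by rw [hW]; exact hWpos) hk2.le hMf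
        have h2 : 1 - 2 * m * (∑ c, v c) / (n' * ((∑ c, v c) ^ 2 + e)) * lev n' k ≤
            Real.exp (-(2 * m * (1 - η) / n' * lev n' k)) := by
          have h3 := Real.add_one_le_exp (-(2 * m * (1 - η) / n' * lev n' k))
          have h4 : 2 * m * (1 - η) / n' ≤ 2 * m * (∑ c, v c) / (n' * ((∑ c, v c) ^ 2 + e)) := by
            rw [hW, hsv, div_le_div_iff₀ hn'pos (by positivity)]
            have h5 : (1 - η) * Wf p N ≤ ∑ z ∈ N, p z := by nlinarith
            have h6 : 0 ≤ 2 * m * n' := by positivity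
            have h7 := mul_le_mul_of_nonneg_left h5 h6
            linarith
          have h8 := mul_le_mul_of_nonneg_right h4 (lev_nonneg (n := n') (a := k))
          linarith
        have h9 := hM2 k hk1 hk2 f hf
        calc ‖SP v e (M f)‖ ≤ _ := h1
          _ ≤ Real.exp (-(2 * m * (1 - η) / n' * lev n' k)) * ‖M f‖ :=
              mul_le_mul_of_nonneg_right h2 (norm_nonneg _)
          _ ≤ Real.exp (-(2 * m * (1 - η) / n' * lev n' k)) *
              (Real.exp (-(2 * m * (1 - η) / n' * lev n' k)) ^ (w.length - mvs Γ w) * ‖f‖) :=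
              mul_le_mul_of_nonneg_left h9 (Real.exp_pos _).le
          _ = _ := by ring
      · simp only [Module.End.mul_apply]
        rw [hM3, SP_one1 (by rw [hW]; exact hWpos), Lr_one1]
      · simp only [Module.End.mul_apply]
        rw [hM4, map_smul, SP_sg1, map_smul, map_smul, Lr_sg1, smul_smul, smul_smul]
        congr 1
        ring
      · rw [hlen]
        suffices hfac : |((Perm.sign g⁻¹ : ℤ) : ℝ) * ((2 * (∑ c, (v c) ^ 2) + e -
            (∑ c, v c) ^ 2) / ((∑ c, v c) ^ 2 + e))| ≤ Real.exp (-(2 / (Fintype.card α : ℝ))) by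
          rw [abs_mul, mul_comm]
          calc |s| * |((Perm.sign g⁻¹ : ℤ) : ℝ) * ((2 * (∑ c, (v c) ^ 2) + e -
            (∑ c, v c) ^ 2) / ((∑ c, v c) ^ 2 + e))| ≤
              Real.exp (-(2 / (Fintype.card α : ℝ))) ^ (w.length - mvs Γ w) *
              Real.exp (-(2 / (Fintype.card α : ℝ))) :=
                mul_le_mul hM5 hfac (abs_nonneg _) (by positivity)
            _ = _ := by rw [← pow_succ]
        have h1 : |((Perm.sign g⁻¹ : ℤ) : ℝ)| = 1 := by
          rcases Int.units_eq_one_or (Perm.sign g⁻¹) with e | e <;> simp [e]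
        rw [abs_mul, h1, one_mul, hW, hsv]
        have hsq : ∑ c, (v c) ^ 2 + e = ∑ z, (p z) ^ 2 := by
          have := sum_Bk Γ (Xw w) (fun z => (p z) ^ 2)
          simp only [hvdef]
          rw [this, he, Finset.sum_add_sum_compl]
        set z := (∑ z, (p z) ^ 2) / Wf p N with hz
        have hval : (2 * (∑ c, (v c) ^ 2) + e - (∑ z ∈ N, p z) ^ 2) / Wf p N = 2 * z - 1 := by
          have h3 : 2 * (∑ c, (v c) ^ 2) + e - (∑ z ∈ N, p z) ^ 2 =
              2 * (∑ z, (p z) ^ 2) - Wf p N := by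
            rw [← hsq, ← hW, hsv]; ring
          rw [h3, hz]
          field_simp
        have hz1 : 1 / (Fintype.card α : ℝ) ≤ z := by
          have h4 : 1 / (Fintype.card α : ℝ) ≤ ∑ z, (p z) ^ 2 := by
            rw [div_le_iff₀ hnpos]
            have := sq_sum_le_card_mul_sum_sq (s := (Finset.univ : Finset α)) (f := p)
            rw [h.sum, Finset.card_univ] at this
            linarith
          have h5 : ∑ z, (p z) ^ 2 ≤ z := by
            rw [hz, le_div_iff₀ hWpos]
            have : 0 ≤ ∑ z, (p z) ^ 2 := Finset.sum_nonneg fun _ _ => sq_nonneg _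
            nlinarith
          linarith
        have hz2 : z ≤ 1 / 2 := by
          rw [hz, div_le_iff₀ hWpos]
          have h4 : ∑ z, (p z) ^ 2 ≤ 1 / 8 := by
            calc ∑ z, (p z) ^ 2 ≤ ∑ z, p z * (1 / 8) := by
                  refine Finset.sum_le_sum fun z _ => ?_
                  have := h.le_b z
                  have := h.b_small
                  have := h.pos z
                  nlinarith
              _ = 1 / 8 := by rw [← Finset.sum_mul, h.sum, one_mul]
          have h5 := h.sq_le_Wf N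
          nlinarith
        rw [hval, abs_of_nonpos (by linarith)]
        have h6 := Real.add_one_le_exp (-(2 / (Fintype.card α : ℝ)))
        have h7 : 2 / (Fintype.card α : ℝ) = 2 * (1 / (Fintype.card α : ℝ)) := by ring
        rw [h7] at h6 ⊢
        linarith
      · intro φ
        rw [ci_cons, cls_of_free ha, ← hN, sum_freeStep]
        change _ / Wf p N = _
        have hXw : Xw w = Xw (a :: w) * Perm.ofSubtype g⁻¹ := by
          have : Xw (a :: w) = Xw w * Perm.ofSubtype g := hg
          rw [this, mul_assoc, ← map_mul, mul_inv_cancel, map_one, mul_one]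
        have h1 : ∑ i ∈ N, ∑ j ∈ N, wt p (i, j) * ci p Γ w (fun X => φ (swap i j * X)) =
            ∑ k, (∑ c, ∑ c', (v c * v c') • Lr (swap c c') (M (dl 1))) k *
              φ (Xw w * Perm.ofSubtype k) := by
          have e1 : ∑ i ∈ N, ∑ j ∈ N, wt p (i, j) * ci p Γ w (fun X => φ (swap i j * X)) =
              ∑ c : Bk Γ, ∑ c' : Bk Γ, v c * v c' *
                ci p Γ w (fun X => φ (swap (Xw w c) (Xw w c') * X)) := by
            rw [hN, ← sum_Bk Γ (Xw w) (fun i => ∑ j ∈ free Γ (Xw w), wt p (i, j) *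
              ci p Γ w (fun X => φ (swap i j * X)))]
            refine Finset.sum_congr rfl fun c _ => ?_
            rw [← sum_Bk Γ (Xw w) (fun j => wt p (Xw w c, j) *
              ci p Γ w (fun X => φ (swap (Xw w c) j * X)))]
            rfl
          have e2 : ∀ c c' : Bk Γ, ci p Γ w (fun X => φ (swap (Xw w c) (Xw w c') * X)) =
              ∑ k, Lr (swap c c') (M (dl 1)) k * φ (Xw w * Perm.ofSubtype k) := by
            intro c c'
            rw [hM6, transl (swap c c') (M (dl 1)) (fun k => φ (Xw w * Perm.ofSubtype k))]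
            refine Finset.sum_congr rfl fun k _ => ?_
            congr 2
            rw [map_mul, Perm.ofSubtype_swap_eq, ← mul_assoc, ← mul_assoc,
              Equiv.mul_swap_eq_swap_mul]
          have e3 : ∀ k : Perm (Bk Γ),
              (∑ c, ∑ c', (v c * v c') • Lr (swap c c') (M (dl 1))) k =
              ∑ c, ∑ c', v c * v c' * Lr (swap c c') (M (dl 1)) k := by
            intro k
            have : ∀ (F : Bk Γ → EE (Bk Γ)), (∑ c, F c) k = ∑ c, F c k := by
              intro F
              rw [WithLp.ofLp_sum, Finset.sum_apply]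
            rw [this]
            refine Finset.sum_congr rfl fun c _ => ?_
            rw [this]
            rfl
          rw [e1]
          simp only [e2, e3, Finset.sum_mul, Finset.mul_sum]
          rw [Finset.sum_comm]
          have e4 : ∀ c' : Bk Γ, ∑ c : Bk Γ, ∑ k, v c * v c' * (Lr (swap c c') (M (dl 1)) k *
              φ (Xw w * Perm.ofSubtype k)) = ∑ k, ∑ c : Bk Γ, v c * v c' *
              (Lr (swap c c') (M (dl 1)) k * φ (Xw w * Perm.ofSubtype k)) := fun c' =>
            Finset.sum_comm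
          simp only [e4]
          rw [Finset.sum_comm]
          refine Finset.sum_congr rfl fun k _ => ?_
          rw [Finset.sum_comm]
          refine Finset.sum_congr rfl fun c _ => Finset.sum_congr rfl fun c' _ => ?_
          ring
        have h2 : ∑ z ∈ Nᶜ, wt p (z, z) * ci p Γ w (fun X => φ (swap z z * X)) =
            ∑ k, (e • M (dl 1)) k * φ (Xw w * Perm.ofSubtype k) := by
          have e1 : ∀ z ∈ Nᶜ, wt p (z, z) * ci p Γ w (fun X => φ (swap z z * X)) =
              (p z) ^ 2 * ci p Γ w φ := by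
            intro z _
            have : (fun X : Perm α => φ (swap z z * X)) = φ := by
              ext X
              rw [swap_self]
              rfl
            rw [this, wt, sq]
          rw [Finset.sum_congr rfl e1, ← Finset.sum_mul, ← he, hM6, Finset.mul_sum]
          refine Finset.sum_congr rfl fun k _ => ?_
          rw [PiLp.smul_apply, smul_eq_mul]; ring
        rw [h1, h2, ← Finset.sum_add_distrib]
        simp only [Module.End.mul_apply]
        rw [transl g⁻¹ (SP v e (M (dl 1))) (fun k => φ (Xw (a :: w) * Perm.ofSubtype k)),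
          Finset.sum_div]
        refine Finset.sum_congr rfl fun k _ => ?_
        rw [map_mul, ← mul_assoc, ← hXw, SP_apply, hW]
        simp only [PiLp.smul_apply, PiLp.add_apply, smul_eq_mul]
        ring
    · -- the step moves a card of `Γ`
      have hlen : (a :: w).length - mvs Γ (a :: w) = w.length - mvs Γ w := by
        simp only [mvs, if_neg ha, List.length_cons]; omega
      refine ⟨M, s, hM1, ?_, hM3, hM4, ?_, ?_⟩
      · rw [hlen]; exact hM2
      · rw [hlen]; exact hM5
      · intro φ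
        have h1 : ci p Γ (a :: w) φ = ci p Γ w (fun X => φ (swap a.1 a.2 * X)) := by
          rw [ci_cons]
          have h2 : ∑ a' ∈ cls Γ w a, wt p a' * ci p Γ w (fun X => φ (swap a'.1 a'.2 * X)) =
              (∑ a' ∈ cls Γ w a, wt p a') * ci p Γ w (fun X => φ (swap a.1 a.2 * X)) := by
            rw [Finset.sum_mul]
            exact Finset.sum_congr rfl fun a' ha' => by rw [cls_of_not_free ha ha']
          rw [h2, mul_div_cancel_left₀ _ (sum_cls_pos h.pos Γ w a).ne']
        rw [h1, hM6]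
        refine Finset.sum_congr rfl fun k _ => ?_
        rw [← mul_assoc]
        rfl

/-- Equidistribution of the bulk given the trajectories of the cards of `Γ`. -/
theorem bulk {p : α → ℝ} {S : Finset α} {b m η : ℝ} (h : Setup p S b m η)
    {Γ : Finset α} (hΓ : Γ.card * b ≤ η) [Nontrivial (Bk Γ)] (w : List (α × α))
    (hv : vis S w ⊆ Γ) {φ : Perm α → ℝ} (hφ : ∀ X, |φ X| ≤ 1) :
    |ci p Γ w φ - av φ Γ (Xw w)| ≤
      Real.sqrt ((Real.exp (-(2 / (Fintype.card α : ℝ))) ^ (w.length - mvs Γ w)) ^ 2 +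
        ∑ a ∈ Finset.Ico 1 (Fintype.card (Bk Γ)),
        2 * ((Fintype.card (Bk Γ)).choose a * (Fintype.card (Bk Γ)).descFactorial a : ℝ) *
        (Real.exp (-(2 * m * (1 - η) / Fintype.card (Bk Γ) *
          lev (Fintype.card (Bk Γ)) a)) ^ (w.length - mvs Γ w)) ^ 2) := by
  obtain ⟨M, s, hM1, hM2, hM3, hM4, hM5, hM6⟩ := exists_bulk_op h hΓ w hv
  have h1 := L2main hM1 hM2 hM3 hM4
  have h2 : |ci p Γ w φ - av φ Γ (Xw w)| ≤
      ∑ k, |M (dl 1) k - 1 / (Fintype.card (Perm (Bk Γ)) : ℝ)| := by
    rw [hM6, av_eq_Bk, Finset.mul_sum, ← Finset.sum_sub_distrib]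
    refine (Finset.abs_sum_le_sum_abs _ _).trans (Finset.sum_le_sum fun k _ => ?_)
    rw [← sub_mul, abs_mul]
    have h3 := hφ (Xw w * Perm.ofSubtype k)
    have h4 := abs_nonneg (M (dl 1) k - 1 / (Fintype.card (Perm (Bk Γ)) : ℝ))
    nlinarith
  refine h2.trans (h1.trans (Real.sqrt_le_sqrt ?_))
  have h5 : s ^ 2 ≤ (Real.exp (-(2 / (Fintype.card α : ℝ))) ^ (w.length - mvs Γ w)) ^ 2 := by
    rw [← sq_abs s]
    exact pow_le_pow_left₀ (abs_nonneg _) hM5 2
  linarith

end Pool.Agent.Lib.MP_8c2010_pr
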