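import Pool.Agent.Lib.MP_8c2010_pr.Fwd

set_option autoImplicit false
set_option linter.unusedSectionVars false

/-! # Conditional laws given the trajectories of a set of cards -/

namespace Pool.Agent.Lib.MP_8c2010_pr

open Equiv Finset

variable {α : Type*} [Fintype α] [DecidableEq α]

/-- two words give the same trajectories to the cards of `Γ` -/
def Same (Γ : Finset α) : List (α × α) → List (α × α) → Prop
  | [], [] => True
  | a :: w, a' :: w' => Same Γ w w' ∧ ∀ c ∈ Γ, Xw (a :: w) c = Xw (a' :: w') c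
  | [], _ :: _ => False
  | _ :: _, [] => False

lemma Same.refl (Γ : Finset α) (w : List (α × α)) : Same Γ w w := by
  induction w with
  | nil => trivial
  | cons a w ih => exact ⟨ih, fun _ _ => rfl⟩

lemma Same.apply {Γ : Finset α} {w w' : List (α × α)} (h : Same Γ w w') :
    ∀ c ∈ Γ, Xw w c = Xw w' c := by
  match w, w', h with
  | [], [], _ => intro _ _; rfl
  | a :: w, a' :: w', h => exact h.2

lemma Same.cons {Γ : Finset α} {w w' : List (α × α)} (h : Same Γ w w') (a : α × α) :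
    Same Γ (a :: w) (a :: w') := by
  refine ⟨h, fun c hc => ?_⟩
  simp only [Xw, Perm.mul_apply]
  rw [h.apply c hc]

/-- the steps acting on the cards of `Γ` as the step `a` does -/
def cls (Γ : Finset α) (w : List (α × α)) (a : α × α) : Finset (α × α) :=
  Finset.univ.filter fun a' => ∀ c ∈ Γ, swap a'.1 a'.2 (Xw w c) = swap a.1 a.2 (Xw w c)

lemma mem_cls {Γ : Finset α} {w : List (α × α)} {a a' : α × α} :
    a' ∈ cls Γ w a ↔ ∀ c ∈ Γ, swap a'.1 a'.2 (Xw w c) = swap a.1 a.2 (Xw w c) := by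
  simp [cls]

lemma self_mem_cls (Γ : Finset α) (w : List (α × α)) (a : α × α) : a ∈ cls Γ w a :=
  mem_cls.2 fun _ _ => rfl

lemma mem_cls_symm {Γ : Finset α} {w : List (α × α)} {a a' : α × α} :
    a' ∈ cls Γ w a ↔ a ∈ cls Γ w a' := by
  rw [mem_cls, mem_cls]
  exact forall₂_congr fun c _ => eq_comm

lemma cls_eq {Γ : Finset α} {w : List (α × α)} {a a' : α × α} (h : a' ∈ cls Γ w a) :
    cls Γ w a' = cls Γ w a := by
  ext a''
  rw [mem_cls, mem_cls]
  exact forall₂_congr fun c hc => by rw [mem_cls.1 h c hc]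

/-- conditional law of the arrangement given the trajectories of the cards of `Γ` -/
noncomputable def cm (p : α → ℝ) (Γ : Finset α) : List (α × α) → Perm α → ℝ
  | [] => fun X => if X = 1 then 1 else 0
  | a :: w => fun X =>
      (∑ a' ∈ cls Γ w a, wt p a' * cm p Γ w (swap a'.1 a'.2 * X)) / ∑ a' ∈ cls Γ w a, wt p a'

/-- integral against the conditional law -/
noncomputable def ci (p : α → ℝ) (Γ : Finset α) (w : List (α × α)) (φ : Perm α → ℝ) : ℝ :=
  ∑ X, cm p Γ w X * φ X

lemma ci_nil (p : α → ℝ) (Γ : Finset α) (φ : Perm α → ℝ) : ci p Γ [] φ = φ 1 := by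
  simp [ci, cm]

lemma ci_cons (p : α → ℝ) (Γ : Finset α) (a : α × α) (w : List (α × α)) (φ : Perm α → ℝ) :
    ci p Γ (a :: w) φ = (∑ a' ∈ cls Γ w a, wt p a' * ci p Γ w (fun X => φ (swap a'.1 a'.2 * X))) /
      ∑ a' ∈ cls Γ w a, wt p a' := by
  simp only [ci, cm, div_mul_eq_mul_div, Finset.sum_mul]
  rw [← Finset.sum_div, Finset.sum_comm]
  congr 1
  refine Finset.sum_congr rfl fun a' _ => ?_
  rw [Finset.mul_sum]
  refine Finset.sum_equiv (Equiv.mulLeft (swap a'.1 a'.2)) (by simp) ?_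
  intro X _
  simp only [Equiv.coe_mulLeft]
  rw [← mul_assoc (swap a'.1 a'.2), swap_mul_self, one_mul, mul_assoc]

lemma wt_pos {p : α → ℝ} (hp : ∀ i, 0 < p i) (a : α × α) : 0 < wt p a := mul_pos (hp _) (hp _)

lemma sum_cls_pos {p : α → ℝ} (hp : ∀ i, 0 < p i) (Γ : Finset α) (w : List (α × α)) (a : α × α) :
    0 < ∑ a' ∈ cls Γ w a, wt p a' :=
  Finset.sum_pos (fun a' _ => wt_pos hp a') ⟨a, self_mem_cls Γ w a⟩

/-- conditional averaging over classes -/
lemma sum_cls_avg {p : α → ℝ} (hp : ∀ i, 0 < p i) (Γ : Finset α) (w : List (α × α))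
    (F G : α × α → ℝ) (hF : ∀ a a', a' ∈ cls Γ w a → F a' = F a) :
    ∑ a, wt p a * (F a * G a) =
      ∑ a, wt p a * (F a * ((∑ a' ∈ cls Γ w a, wt p a' * G a') / ∑ a' ∈ cls Γ w a, wt p a')) := by
  have h1 : ∀ a, wt p a * (F a * ((∑ a' ∈ cls Γ w a, wt p a' * G a') /
      ∑ a' ∈ cls Γ w a, wt p a')) =
      ∑ a', if a' ∈ cls Γ w a then
        wt p a' * G a' * F a' * (wt p a / ∑ a'' ∈ cls Γ w a', wt p a'') else 0 := by
    intro a
    rw [Finset.sum_ite_mem, Finset.univ_inter, Finset.sum_div, Finset.mul_sum, Finset.mul_sum]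
    refine Finset.sum_congr rfl fun a' ha' => ?_
    rw [cls_eq ha', hF a a' ha']
    ring
  rw [Finset.sum_congr rfl fun a _ => h1 a, Finset.sum_comm]
  refine Finset.sum_congr rfl fun a' _ => ?_
  have h2 : ∀ a, (if a' ∈ cls Γ w a then
        wt p a' * G a' * F a' * (wt p a / ∑ a'' ∈ cls Γ w a', wt p a'') else 0) =
      if a ∈ cls Γ w a' then
        wt p a' * G a' * F a' * (wt p a / ∑ a'' ∈ cls Γ w a', wt p a'') else 0 := by
    intro a
    exact if_congr mem_cls_symm rfl rfl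
  rw [Finset.sum_congr rfl fun a _ => h2 a, Finset.sum_ite_mem, Finset.univ_inter,
    ← Finset.mul_sum, ← Finset.sum_div, div_self (sum_cls_pos hp Γ w a').ne']
  ring

/-- The disintegration formula. -/
theorem Ew_cond {p : α → ℝ} (hp : ∀ i, 0 < p i) (Γ : Finset α) (t : ℕ)
    (F : List (α × α) → ℝ) (hF : ∀ w w', Same Γ w w' → F w = F w') (φ : Perm α → ℝ) :
    Ew p t (fun w => F w * φ (Xw w)) = Ew p t (fun w => F w * ci p Γ w φ) := by
  induction t generalizing F φ with
  | zero => rw [Ew_zero, Ew_zero, ci_nil]; rfl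
  | succ t ih =>
    have h1 : Ew p (t + 1) (fun w => F w * φ (Xw w)) =
        ∑ a : α × α, wt p a * Ew p t (fun w => F (a :: w) *
          ci p Γ w (fun X => φ (swap a.1 a.2 * X))) := by
      rw [Ew_succ]
      refine Finset.sum_congr rfl fun a _ => ?_
      congr 1
      exact ih (fun w => F (a :: w)) (fun w w' hw => hF _ _ (hw.cons a))
        (fun X => φ (swap a.1 a.2 * X))
    rw [h1, Ew_succ']
    have h2 : ∑ a : α × α, wt p a * Ew p t (fun w => F (a :: w) *
          ci p Γ w (fun X => φ (swap a.1 a.2 * X))) =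
        Ew p t (fun w => ∑ a : α × α, wt p a * (F (a :: w) *
          ci p Γ w (fun X => φ (swap a.1 a.2 * X)))) := by
      rw [Ew_fsum]
      exact Finset.sum_congr rfl fun a _ => (Ew_const_mul p t _ _).symm
    rw [h2]
    refine Ew_congr p fun w _ => ?_
    rw [sum_cls_avg hp Γ w (fun a => F (a :: w))
      (fun a => ci p Γ w (fun X => φ (swap a.1 a.2 * X)))]
    · refine Finset.sum_congr rfl fun a _ => ?_
      rw [ci_cons]
    · intro a a' ha'
      refine hF _ _ ⟨Same.refl Γ w, fun c hc => ?_⟩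
      simp only [Xw, Perm.mul_apply]
      exact mem_cls.1 ha' c hc

lemma ci_add (p : α → ℝ) (Γ : Finset α) (w : List (α × α)) (φ ψ : Perm α → ℝ) :
    ci p Γ w (fun X => φ X + ψ X) = ci p Γ w φ + ci p Γ w ψ := by
  simp only [ci, mul_add, Finset.sum_add_distrib]

lemma ci_const_mul (p : α → ℝ) (Γ : Finset α) (w : List (α × α)) (r : ℝ) (φ : Perm α → ℝ) :
    ci p Γ w (fun X => r * φ X) = r * ci p Γ w φ := by
  simp only [ci, Finset.mul_sum]
  exact Finset.sum_congr rfl fun _ _ => by ring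

lemma ci_fsum (p : α → ℝ) (Γ : Finset α) (w : List (α × α)) {ι : Type*} (s : Finset ι)
    (φ : ι → Perm α → ℝ) :
    ci p Γ w (fun X => ∑ i ∈ s, φ i X) = ∑ i ∈ s, ci p Γ w (φ i) := by
  simp only [ci, Finset.mul_sum]
  rw [Finset.sum_comm]

lemma ci_one {p : α → ℝ} (hp : ∀ i, 0 < p i) (Γ : Finset α) (w : List (α × α)) :
    ci p Γ w (fun _ => 1) = 1 := by
  induction w with
  | nil => rw [ci_nil]
  | cons a w ih =>
    rw [ci_cons]
    simp only [ih, mul_one]
    exact div_self (sum_cls_pos hp Γ w a).ne'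

lemma ci_nonneg {p : α → ℝ} (hp : ∀ i, 0 < p i) (Γ : Finset α) (w : List (α × α))
    {φ : Perm α → ℝ} (hφ : ∀ X, 0 ≤ φ X) : 0 ≤ ci p Γ w φ := by
  induction w generalizing φ with
  | nil => rw [ci_nil]; exact hφ 1
  | cons a w ih =>
    rw [ci_cons]
    refine div_nonneg (Finset.sum_nonneg fun a' _ => ?_) (sum_cls_pos hp Γ w a).le
    exact mul_nonneg (wt_pos hp a').le (ih fun X => hφ _)

/-- the conditional law is supported on the arrangements agreeing on `Γ` -/
lemma ci_congr {p : α → ℝ} (Γ : Finset α) (w : List (α × α))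
    {φ ψ : Perm α → ℝ} (hφ : ∀ X, (∀ c ∈ Γ, X c = Xw w c) → φ X = ψ X) :
    ci p Γ w φ = ci p Γ w ψ := by
  induction w generalizing φ ψ with
  | nil =>
    rw [ci_nil, ci_nil]
    exact hφ 1 fun _ _ => rfl
  | cons a w ih =>
    rw [ci_cons, ci_cons]
    congr 1
    refine Finset.sum_congr rfl fun a' ha' => ?_
    congr 1
    refine ih fun X hX => hφ _ fun c hc => ?_
    rw [Perm.mul_apply, hX c hc, mem_cls.1 ha' c hc]
    rfl

end Pool.Agent.Lib.MP_8c2010_pr
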