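import Pool.Agent.Lib.MP_8c2010_pr.Words

set_option autoImplicit false
set_option linter.unusedSectionVars false

/-! # Forward coupling bound for a single card in the environment of other cards -/

namespace Pool.Agent.Lib.MP_8c2010_pr

open Equiv Finset

variable {α : Type*} [Fintype α] [DecidableEq α]

/-- standing assumptions on product weights -/
structure Setup (p : α → ℝ) (S : Finset α) (b m η : ℝ) : Prop where
  pos : ∀ i, 0 < p i
  sum : ∑ i, p i = 1
  le_b : ∀ i, p i ≤ b
  m_le : ∀ i, i ∉ S → m ≤ p i
  m_pos : 0 < m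
  b_small : 8 * b ≤ 1
  η_nonneg : 0 ≤ η
  η_le : η ≤ 1 / 2

/-- a step moving no card sitting outside of `N` -/
def FreeStep (N : Finset α) (a : α × α) : Prop := a.1 = a.2 ∨ (a.1 ∈ N ∧ a.2 ∈ N)

instance (N : Finset α) : DecidablePred (FreeStep N) := fun a => by
  unfold FreeStep; infer_instance

/-- total weight of the free steps -/
noncomputable def Wf (p : α → ℝ) (N : Finset α) : ℝ :=
  ∑ a ∈ Finset.univ.filter (FreeStep N), wt p a

lemma sum_freeStep (N : Finset α) (f : α × α → ℝ) :
    ∑ a ∈ Finset.univ.filter (FreeStep N), f a =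
      ∑ i ∈ N, ∑ j ∈ N, f (i, j) + ∑ h ∈ Nᶜ, f (h, h) := by
  have h1 : Finset.univ.filter (FreeStep N) = (N ×ˢ N) ∪ (Nᶜ).image (fun h => (h, h)) := by
    ext ⟨i, j⟩
    simp only [FreeStep, Finset.mem_filter, Finset.mem_univ, true_and, Finset.mem_union,
      Finset.mem_product, Finset.mem_image, Finset.mem_compl, Prod.mk.injEq]
    constructor
    · rintro (rfl | h)
      · by_cases hi : i ∈ N
        · exact Or.inl ⟨hi, hi⟩
        · exact Or.inr ⟨i, hi, rfl, rfl⟩
      · exact Or.inl h
    · rintro (h | ⟨a, _, rfl, rfl⟩)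
      · exact Or.inr h
      · exact Or.inl rfl
  rw [h1, Finset.sum_union, Finset.sum_product, Finset.sum_image]
  · intro x _ y _ h
    exact (Prod.mk.inj h).1
  · rw [Finset.disjoint_left]
    rintro ⟨i, j⟩ h h'
    obtain ⟨a, ha, he⟩ := Finset.mem_image.1 h'
    obtain ⟨rfl, rfl⟩ := Prod.mk.inj he
    exact Finset.mem_compl.1 ha (Finset.mem_product.1 h).1

lemma Wf_eq (p : α → ℝ) (N : Finset α) :
    Wf p N = (∑ i ∈ N, p i) ^ 2 + ∑ h ∈ Nᶜ, (p h) ^ 2 := by
  rw [Wf, sum_freeStep, sq, Finset.sum_mul_sum]
  congr 1
  exact Finset.sum_congr rfl fun h _ => by rw [wt, sq]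

lemma freeAvg (p : α → ℝ) {N : Finset α} {x : α} (hx : x ∈ N) (G : α → ℝ) :
    ∑ a ∈ Finset.univ.filter (FreeStep N), wt p a * G (swap a.1 a.2 x) =
      Wf p N * G x + 2 * p x * ∑ z ∈ N, p z * (G z - G x) := by
  rw [sum_freeStep, Wf_eq]
  have h1 : ∀ i ∈ N, ∀ j ∈ N, wt p (i, j) * G (swap i j x) =
      p i * p j * G x + ((if i = x then p x * (p j * (G j - G x)) else 0) +
        (if j = x then p x * (p i * (G i - G x)) else 0)) := by
    intro i _ j _
    simp only [wt]
    by_cases hi : i = x
    · subst hi
      by_cases hj : j = i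
      · subst hj
        simp
      · rw [swap_apply_left, if_pos rfl, if_neg hj]
        ring
    · by_cases hj : j = x
      · subst hj
        rw [swap_apply_right, if_neg hi, if_pos rfl]
        ring
      · rw [swap_apply_of_ne_of_ne (Ne.symm hi) (Ne.symm hj), if_neg hi, if_neg hj]
        ring
  have h2 : ∀ h ∈ Nᶜ, wt p (h, h) * G (swap h h x) = (p h) ^ 2 * G x := by
    intro h _
    rw [swap_self]
    simp only [wt, Equiv.refl_apply]
    ring
  rw [Finset.sum_congr rfl (fun i hi => Finset.sum_congr rfl (h1 i hi)), Finset.sum_congr rfl h2]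
  simp only [Finset.sum_add_distrib]
  have h3 : ∑ i ∈ N, ∑ j ∈ N, p i * p j * G x = (∑ i ∈ N, p i) ^ 2 * G x := by
    rw [sq, Finset.sum_mul_sum, Finset.sum_mul]
    exact Finset.sum_congr rfl fun i _ => by rw [Finset.sum_mul]
  have h4 : ∑ i ∈ N, ∑ j ∈ N, (if i = x then p x * (p j * (G j - G x)) else 0) =
      p x * ∑ z ∈ N, p z * (G z - G x) := by
    rw [Finset.sum_comm]
    have : ∀ j ∈ N, ∑ i ∈ N, (if i = x then p x * (p j * (G j - G x)) else 0) =
        p x * (p j * (G j - G x)) := by
      intro j _
      rw [Finset.sum_ite_eq' N x, if_pos hx]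
    rw [Finset.sum_congr rfl this, Finset.mul_sum]
  have h5 : ∑ i ∈ N, ∑ j ∈ N, (if j = x then p x * (p i * (G i - G x)) else 0) =
      p x * ∑ z ∈ N, p z * (G z - G x) := by
    have : ∀ i ∈ N, ∑ j ∈ N, (if j = x then p x * (p i * (G i - G x)) else 0) =
        p x * (p i * (G i - G x)) := by
      intro i _
      rw [Finset.sum_ite_eq' N x, if_pos hx]
    rw [Finset.sum_congr rfl this, Finset.mul_sum]
  rw [h3, h4, h5, ← Finset.sum_mul]
  ring

namespace Setup

variable {p : α → ℝ} {S : Finset α} {b m η : ℝ} (h : Setup p S b m η)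
include h

lemma nonneg (i : α) : 0 ≤ p i := (h.pos i).le

lemma b_nonneg [Nonempty α] : 0 ≤ b := by
  obtain ⟨i⟩ := (inferInstance : Nonempty α)
  exact (h.pos i).le.trans (h.le_b i)

lemma sum_free_ge {Γ : Finset α} (hΓ : Γ.card * b ≤ η) (k : Perm α) :
    1 - η ≤ ∑ z ∈ free Γ k, p z := by
  have h1 : ∑ z ∈ Γ.image k, p z + ∑ z ∈ free Γ k, p z = 1 := by
    rw [free, Finset.sum_add_sum_compl, h.sum]
  have h2 : ∑ z ∈ Γ.image k, p z ≤ Γ.card * b := by
    calc ∑ z ∈ Γ.image k, p z ≤ ∑ _z ∈ Γ.image k, b := Finset.sum_le_sum fun z _ => h.le_b z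
      _ = Γ.card * b := by
          rw [Finset.sum_const, Finset.card_image_of_injective _ k.injective, nsmul_eq_mul]
  linarith

lemma sum_le_one (N : Finset α) : ∑ z ∈ N, p z ≤ 1 := by
  rw [← h.sum]
  exact Finset.sum_le_sum_of_subset_of_nonneg (Finset.subset_univ _) fun i _ _ => h.nonneg i

lemma Wf_le_one (N : Finset α) : Wf p N ≤ 1 := by
  have h1 : Wf p N ≤ ∑ a : α × α, wt p a :=
    Finset.sum_le_sum_of_subset_of_nonneg (Finset.filter_subset _ _)
      fun a _ _ => wt_nonneg h.nonneg a
  rw [sum_wt, h.sum] at h1
  linarith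

lemma sq_le_Wf (N : Finset α) : (∑ z ∈ N, p z) ^ 2 ≤ Wf p N := by
  rw [Wf_eq]
  have : 0 ≤ ∑ z ∈ Nᶜ, (p z) ^ 2 := Finset.sum_nonneg fun i _ => sq_nonneg _
  linarith

end Setup

/-- the effective rate of a site -/
noncomputable def rho (p : α → ℝ) (m η : ℝ) (x : α) : ℝ := (1 - η) * min (2 * p x) (2 * m)

/-- the slow mass still to be relaxed -/
noncomputable def QQ (p : α → ℝ) (S : Finset α) (m η : ℝ) (u : ℕ) : ℝ :=
  ∑ z ∈ S, p z * Real.exp (-(rho p m η z * u))

/-- the prefactor -/
noncomputable def aa (p : α → ℝ) (S : Finset α) (b : ℝ) (u : ℕ) : ℝ :=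
  1 + 96 * b ^ 2 * (∑ z ∈ S, p z) * (u : ℝ) ^ 2

/-- the bound for two positions -/
noncomputable def Psi (p : α → ℝ) (S : Finset α) (b m η : ℝ) (u : ℕ) (x y : α) : ℝ :=
  aa p S b u * Real.exp (-(min (rho p m η x) (rho p m η y) * u)) + 24 * b * u * QQ p S m η u

lemma Psi_comm (p : α → ℝ) (S : Finset α) (b m η : ℝ) (u : ℕ) (x y : α) :
    Psi p S b m η u x y = Psi p S b m η u y x := by
  rw [Psi, Psi, min_comm]

namespace Setup

variable {p : α → ℝ} {S : Finset α} {b m η : ℝ} (h : Setup p S b m η)
include h

lemma rho_nonneg (x : α) : 0 ≤ rho p m η x := by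
  have := h.η_le
  exact mul_nonneg (by linarith) (le_min (by have := h.pos x; linarith) (by have := h.m_pos; linarith))

lemma rho_le (x : α) : rho p m η x ≤ (1 - η) * (2 * p x) := by
  have := h.η_le
  exact mul_le_mul_of_nonneg_left (min_le_left _ _) (by linarith)

lemma rho_le_m (x : α) : rho p m η x ≤ (1 - η) * (2 * m) := by
  have := h.η_le
  exact mul_le_mul_of_nonneg_left (min_le_right _ _) (by linarith)

lemma rho_eq_of_notMem {x : α} (hx : x ∉ S) : rho p m η x = (1 - η) * (2 * m) := by
  rw [rho, min_eq_right]
  have := h.m_le x hx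
  linarith

lemma rho_mono {x y : α} (hxy : p x ≤ p y) : rho p m η x ≤ rho p m η y := by
  have := h.η_le
  refine mul_le_mul_of_nonneg_left ?_ (by linarith)
  exact min_le_min (by linarith) le_rfl

lemma rho_le_two_b (x : α) : rho p m η x ≤ 2 * b := by
  have h1 := h.rho_le x
  have h2 := h.le_b x
  have h3 := h.pos x
  have h4 := h.η_nonneg
  nlinarith

lemma QQ_nonneg (u : ℕ) : 0 ≤ QQ p S m η u :=
  Finset.sum_nonneg fun z _ => mul_nonneg (h.nonneg z) (Real.exp_pos _).le

lemma pS_nonneg : 0 ≤ ∑ z ∈ S, p z := Finset.sum_nonneg fun z _ => h.nonneg z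

lemma one_le_aa (u : ℕ) : 1 ≤ aa p S b u := by
  have := h.pS_nonneg
  unfold aa
  have : 0 ≤ 96 * b ^ 2 * (∑ z ∈ S, p z) * (u : ℝ) ^ 2 := by positivity
  linarith

/-- changing one of the two positions -/
lemma Psi_le [Nonempty α] {x y : α} (hxy : p x ≤ p y) (u : ℕ) (z w : α) (hw : w = x ∨ w = y) :
    Psi p S b m η u z w ≤ Psi p S b m η u x y +
      aa p S b u * (if z ∈ S then Real.exp (-(rho p m η z * u)) else 0) := by
  have hb := h.b_nonneg
  have ha := h.one_le_aa u
  have hu : (0 : ℝ) ≤ u := Nat.cast_nonneg u
  have hρ := h.rho_mono hxy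
  have hwx : rho p m η x ≤ rho p m η w := by
    rcases hw with rfl | rfl
    · exact le_rfl
    · exact hρ
  rw [Psi, Psi, min_eq_left hρ]
  have key : Real.exp (-(min (rho p m η z) (rho p m η w) * u)) ≤
      Real.exp (-(rho p m η x * u)) + (if z ∈ S then Real.exp (-(rho p m η z * u)) else 0) := by
    by_cases hz : z ∈ S
    · rw [if_pos hz]
      rcases le_total (rho p m η z) (rho p m η w) with hzw | hzw
      · rw [min_eq_left hzw]
        have := Real.exp_pos (-(rho p m η x * u))
        linarith
      · rw [min_eq_right hzw]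
        have h1 : Real.exp (-(rho p m η w * u)) ≤ Real.exp (-(rho p m η x * u)) := by
          apply Real.exp_le_exp.2
          nlinarith
        have := Real.exp_pos (-(rho p m η z * u))
        linarith
    · rw [if_neg hz, add_zero]
      apply Real.exp_le_exp.2
      have h2 : rho p m η x ≤ rho p m η z := by
        rw [h.rho_eq_of_notMem hz]
        exact h.rho_le_m x
      have := le_min h2 hwx
      nlinarith
  nlinarith

/-- one time step of the supersolution -/
lemma Psi_step [Nonempty α] {x y : α} (hxy : p x ≤ p y) (u : ℕ) {PN : ℝ} (hPN : 1 - η ≤ PN)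
    (hT : 96 * b ^ 2 * (∑ z ∈ S, p z) * (u : ℝ) ^ 2 ≤ 1) :
    (1 - 2 * p x * PN) * Psi p S b m η u x y + 6 * b * (aa p S b u * QQ p S m η u) ≤
      Psi p S b m η (u + 1) x y := by
  have hb := h.b_nonneg
  have hb8 := h.b_small
  have hρ := h.rho_mono hxy
  have hu : (0 : ℝ) ≤ u := Nat.cast_nonneg u
  have ha1 := h.one_le_aa u
  have ha2 : aa p S b u ≤ 2 := by unfold aa; linarith
  have hpS := h.pS_nonneg
  have hρx := h.rho_nonneg x
  rw [Psi, Psi, min_eq_left hρ]
  push_cast
  -- the factor
  have hfac : 1 - 2 * p x * PN ≤ Real.exp (-(rho p m η x)) := by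
    have h1 := h.rho_le x
    have h2 := Real.add_one_le_exp (-(rho p m η x))
    have h3 := h.pos x
    nlinarith
  have hA : 0 ≤ aa p S b u * Real.exp (-(rho p m η x * u)) + 24 * b * u * QQ p S m η u := by
    have := h.QQ_nonneg u
    have := (Real.exp_pos (-(rho p m η x * u))).le
    positivity
  have hstep1 : (1 - 2 * p x * PN) * (aa p S b u * Real.exp (-(rho p m η x * u)) +
      24 * b * u * QQ p S m η u) ≤ aa p S b u * Real.exp (-(rho p m η x * (u + 1))) +
        24 * b * u * (Real.exp (-(rho p m η x)) * QQ p S m η u) := by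
    have h1 := mul_le_mul_of_nonneg_right hfac hA
    have h2 : Real.exp (-(rho p m η x)) * Real.exp (-(rho p m η x * u)) =
        Real.exp (-(rho p m η x * (u + 1))) := by
      rw [← Real.exp_add]; congr 1; ring
    calc _ ≤ _ := h1
      _ = aa p S b u * (Real.exp (-(rho p m η x)) * Real.exp (-(rho p m η x * u))) +
        24 * b * u * (Real.exp (-(rho p m η x)) * QQ p S m η u) := by ring
      _ = _ := by rw [h2]
  -- comparison of the slow masses
  have hQ1 : Real.exp (-(rho p m η x)) * QQ p S m η u ≤
      QQ p S m η (u + 1) + 4 * b * (∑ z ∈ S, p z) * Real.exp (-(rho p m η x * (u + 1))) := by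
    rw [QQ, QQ, Finset.mul_sum, Finset.mul_sum, Finset.sum_mul, ← Finset.sum_add_distrib]
    refine Finset.sum_le_sum fun z _ => ?_
    push_cast
    have hz := h.rho_nonneg z
    have hz2 := h.rho_le_two_b z
    have key : Real.exp (-(rho p m η x)) * Real.exp (-(rho p m η z * u)) ≤
        Real.exp (-(rho p m η z * (u + 1))) + 4 * b * Real.exp (-(rho p m η x * (u + 1))) := by
      rw [← Real.exp_add]
      rcases le_total (rho p m η z) (rho p m η x) with hzx | hzx
      · have h1 : Real.exp (-(rho p m η x) + -(rho p m η z * u)) ≤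
            Real.exp (-(rho p m η z * (u + 1))) := by
          apply Real.exp_le_exp.2; nlinarith
        have h2 : 0 ≤ 4 * b * Real.exp (-(rho p m η x * (u + 1))) := by positivity
        linarith
      · set v := rho p m η z - rho p m η x with hv
        have hv0 : 0 ≤ v := by linarith
        have hv1 : v ≤ 2 * b := by linarith
        have h1 : Real.exp (-(rho p m η x) + -(rho p m η z * u)) =
            Real.exp (-(rho p m η z * (u + 1))) * Real.exp v := by
          rw [← Real.exp_add]; congr 1; rw [hv]; ring
        have h2 : Real.exp v ≤ 1 + 2 * v := by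
          have h3 : Real.exp v ≤ 1 + v + v ^ 2 := by
            have := Real.abs_exp_sub_one_sub_id_le (x := v) (by rw [abs_of_nonneg hv0]; linarith)
            have := le_abs_self (Real.exp v - 1 - v)
            linarith
          nlinarith
        have h3 : Real.exp (-(rho p m η z * (u + 1))) ≤ Real.exp (-(rho p m η x * (u + 1))) := by
          apply Real.exp_le_exp.2; nlinarith
        have h4 := Real.exp_pos (-(rho p m η z * (u + 1)))
        rw [h1]
        calc Real.exp (-(rho p m η z * (u + 1))) * Real.exp v
            ≤ Real.exp (-(rho p m η z * (u + 1))) * (1 + 2 * v) :=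
              mul_le_mul_of_nonneg_left h2 h4.le
          _ = Real.exp (-(rho p m η z * (u + 1))) +
              2 * v * Real.exp (-(rho p m η z * (u + 1))) := by ring
          _ ≤ Real.exp (-(rho p m η z * (u + 1))) +
              4 * b * Real.exp (-(rho p m η x * (u + 1))) := by
              have : 2 * v * Real.exp (-(rho p m η z * (u + 1))) ≤
                  4 * b * Real.exp (-(rho p m η x * (u + 1))) := by
                apply mul_le_mul (by linarith) h3 h4.le (by linarith)
              linarith
    have := mul_le_mul_of_nonneg_left key (h.nonneg z)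
    calc Real.exp (-(rho p m η x)) * (p z * Real.exp (-(rho p m η z * u)))
        = p z * (Real.exp (-(rho p m η x)) * Real.exp (-(rho p m η z * u))) := by ring
      _ ≤ _ := this
      _ = _ := by ring
  have hQ2 : QQ p S m η u ≤ 2 * QQ p S m η (u + 1) := by
    rw [QQ, QQ, Finset.mul_sum]
    refine Finset.sum_le_sum fun z _ => ?_
    push_cast
    have hz := h.rho_nonneg z
    have hz2 := h.rho_le_two_b z
    have key : Real.exp (-(rho p m η z * u)) ≤ 2 * Real.exp (-(rho p m η z * (u + 1))) := by
      have h1 : Real.exp (-(rho p m η z * u)) =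
          Real.exp (-(rho p m η z * (u + 1))) * Real.exp (rho p m η z) := by
        rw [← Real.exp_add]; congr 1; ring
      have h2 : Real.exp (rho p m η z) ≤ 2 := by
        have h3 : rho p m η z ≤ 1 / 4 := by linarith
        have := Real.abs_exp_sub_one_sub_id_le (x := rho p m η z)
          (by rw [abs_of_nonneg hz]; linarith)
        have := le_abs_self (Real.exp (rho p m η z) - 1 - rho p m η z)
        nlinarith
      rw [h1]
      have := Real.exp_pos (-(rho p m η z * (u + 1)))
      nlinarith
    have := mul_le_mul_of_nonneg_left key (h.nonneg z)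
    linarith
  have hQn := h.QQ_nonneg u
  have hQn1 := h.QQ_nonneg (u + 1)
  have hE := (Real.exp_pos (-(rho p m η x * (u + 1)))).le
  have hbu : 0 ≤ 24 * b * u := by positivity
  have h5 := mul_le_mul_of_nonneg_left hQ1 hbu
  have h6 : 6 * b * (aa p S b u * QQ p S m η u) ≤ 24 * b * QQ p S m η (u + 1) := by
    have : aa p S b u * QQ p S m η u ≤ 2 * (2 * QQ p S m η (u + 1)) := by
      apply mul_le_mul ha2 hQ2 hQn (by norm_num)
    nlinarith
  have h7 : aa p S b u + 24 * b * u * (4 * b * (∑ z ∈ S, p z)) ≤ aa p S b (u + 1) := by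
    unfold aa
    push_cast
    have : 0 ≤ b ^ 2 * (∑ z ∈ S, p z) * u := by positivity
    have : 0 ≤ b ^ 2 * (∑ z ∈ S, p z) := by positivity
    nlinarith
  have h8 := mul_le_mul_of_nonneg_right h7 hE
  calc _ ≤ aa p S b u * Real.exp (-(rho p m η x * (u + 1))) +
        24 * b * u * (Real.exp (-(rho p m η x)) * QQ p S m η u) +
        24 * b * QQ p S m η (u + 1) := by linarith
    _ ≤ aa p S b u * Real.exp (-(rho p m η x * (u + 1))) + 24 * b * u * (QQ p S m η (u + 1) +
        4 * b * (∑ z ∈ S, p z) * Real.exp (-(rho p m η x * (u + 1)))) +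
        24 * b * QQ p S m η (u + 1) := by linarith
    _ = (aa p S b u + 24 * b * u * (4 * b * (∑ z ∈ S, p z))) *
        Real.exp (-(rho p m η x * (u + 1))) + 24 * b * (u + 1) * QQ p S m η (u + 1) := by ring
    _ ≤ _ := by linarith

lemma Psi_nonneg [Nonempty α] (u : ℕ) (x y : α) : 0 ≤ Psi p S b m η u x y := by
  have := h.QQ_nonneg u
  have := h.b_nonneg
  have := h.one_le_aa u
  have := (Real.exp_pos (-(min (rho p m η x) (rho p m η y) * u))).le
  unfold Psi
  positivity

end Setup

lemma swap_fix_of_free {Γ : Finset α} {k : Perm α} {a : α × α} (ha : FreeStep (free Γ k) a)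
    {d : α} (hd : d ∈ Γ) : swap a.1 a.2 (k d) = k d := by
  rcases ha with ha | ⟨h1, h2⟩
  · rw [ha, swap_self]; rfl
  · exact swap_apply_of_ne_of_ne (mem_free.1 h1 d hd) (mem_free.1 h2 d hd)

lemma swap_mem_of_free {N : Finset α} {a : α × α} (ha : FreeStep N a) {x : α} (hx : x ∈ N) :
    swap a.1 a.2 x ∈ N := by
  rcases ha with ha | ⟨h1, h2⟩
  · rw [ha, swap_self]; exact hx
  · rw [swap_apply_def]
    split_ifs
    · exact h2
    · exact h1
    · exact hx

/-- The forward bound: two positions of a single card `c`, the cards of `Γ` being followed. -/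
theorem fwd [Nonempty α] {p : α → ℝ} {S : Finset α} {b m η : ℝ} (h : Setup p S b m η)
    {Γ : Finset α} (hΓ : Γ.card * b ≤ η) {c : α} (hc : c ∉ Γ) {φ : Perm α → ℝ}
    (hφ : ∀ X, |φ X| ≤ 1) (u : ℕ) :
    96 * b ^ 2 * (∑ z ∈ S, p z) * (u : ℝ) ^ 2 ≤ 1 → ∀ k k' : Perm α, (∀ d ∈ Γ, k d = k' d) →
      |av (Pit p u φ) (insert c Γ) k - av (Pit p u φ) (insert c Γ) k'| ≤
        2 * Psi p S b m η u (k c) (k' c) := by
  induction u with
  | zero =>
    intro _ k k' _
    have h1 := av_abs_le (φ := Pit p 0 φ) hφ (insert c Γ) k
    have h2 := av_abs_le (φ := Pit p 0 φ) hφ (insert c Γ) k'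
    have h3 : Psi p S b m η 0 (k c) (k' c) = 1 := by simp [Psi, aa]
    rw [h3]
    have := abs_sub (av (Pit p 0 φ) (insert c Γ) k) (av (Pit p 0 φ) (insert c Γ) k')
    linarith
  | succ u ih =>
    intro hT
    have hb := h.b_nonneg
    have hb8 := h.b_small
    have hpS := h.pS_nonneg
    have hTu : 96 * b ^ 2 * (∑ z ∈ S, p z) * (u : ℝ) ^ 2 ≤ 1 := by
      refine le_trans ?_ hT
      push_cast
      have hu : (0 : ℝ) ≤ u := Nat.cast_nonneg u
      have : 0 ≤ 96 * b ^ 2 * (∑ z ∈ S, p z) := by positivity
      have h2 : (u : ℝ) ^ 2 ≤ ((u : ℝ) + 1) ^ 2 := by nlinarith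
      nlinarith
    replace ih := ih hTu
    -- ordered version
    have main : ∀ k k' : Perm α, (∀ d ∈ Γ, k d = k' d) → p (k c) ≤ p (k' c) →
        |av (Pit p (u + 1) φ) (insert c Γ) k - av (Pit p (u + 1) φ) (insert c Γ) k'| ≤
        2 * Psi p S b m η (u + 1) (k c) (k' c) := by
      intro k k' hkk hord
      by_cases hxy : k c = k' c
      · have : av (Pit p (u + 1) φ) (insert c Γ) k = av (Pit p (u + 1) φ) (insert c Γ) k' := by
          apply av_congr
          intro d hd
          rcases Finset.mem_insert.1 hd with rfl | hd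
          · exact hxy
          · exact hkk d hd
        rw [this, sub_self, abs_zero]
        have := h.Psi_nonneg (u + 1) (k c) (k' c)
        linarith
      set F : Perm α → ℝ := av (Pit p u φ) (insert c Γ) with hF
      set x := k c with hx
      set y := k' c with hy
      set N := free Γ k with hN
      have hNk' : free Γ k' = N := by
        rw [hN, free, free]
        congr 1
        exact Finset.image_congr fun d hd => (hkk d hd).symm
      have hxN : x ∈ N := mem_free.2 fun d hd e => hc (k.injective e ▸ hd)
      have hyN : y ∈ N := by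
        rw [← hNk']
        exact mem_free.2 fun d hd e => hc (k'.injective e ▸ hd)
      set G : α → ℝ := fun z => F (mv k c z) with hG
      set A := Psi p S b m η u x y with hA
      set E : α → ℝ := fun z => aa p S b u *
        (if z ∈ S then Real.exp (-(rho p m η z * u)) else 0) with hE
      have haa := h.one_le_aa u
      have hE0 : ∀ z, 0 ≤ E z := by
        intro z
        simp only [hE]
        split_ifs
        · have := (Real.exp_pos (-(rho p m η z * u))).le
          positivity
        · simp
      have hA0 : 0 ≤ A := h.Psi_nonneg u x y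
      -- the sum of `p E`
      have hpE : ∑ z, p z * E z = aa p S b u * QQ p S m η u := by
        simp only [hE, QQ, Finset.mul_sum]
        rw [← Finset.sum_filter_add_sum_filter_not Finset.univ (fun z => z ∈ S)]
        have h0 : ∑ z ∈ Finset.univ.filter (fun z => ¬ z ∈ S), p z * (aa p S b u *
            (if z ∈ S then Real.exp (-(rho p m η z * u)) else 0)) = 0 := by
          refine Finset.sum_eq_zero fun z hz => ?_
          rw [if_neg (Finset.mem_filter.1 hz).2]; ring
        rw [h0, add_zero, Finset.filter_mem_eq_inter, Finset.univ_inter]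
        refine Finset.sum_congr rfl fun z hz => ?_
        rw [if_pos hz]; ring
      -- free steps
      have hFk : ∀ a, FreeStep N a → F (swap a.1 a.2 * k) = G (swap a.1 a.2 x) := by
        intro a ha
        apply av_congr
        intro d hd
        rcases Finset.mem_insert.1 hd with rfl | hd
        · rw [mv_self]; rfl
        · rw [mv_of_mem hc (swap_mem_of_free ha hxN) hd, Perm.mul_apply, swap_fix_of_free ha hd]
      have hFk' : ∀ a, FreeStep N a → F (swap a.1 a.2 * k') = G (swap a.1 a.2 y) := by
        intro a ha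
        apply av_congr
        intro d hd
        rcases Finset.mem_insert.1 hd with rfl | hd
        · rw [mv_self]; rfl
        · rw [mv_of_mem hc (swap_mem_of_free ha hyN) hd, Perm.mul_apply, ← hkk d hd,
            swap_fix_of_free ha hd]
      have hGdiff : ∀ z ∈ N, ∀ z' ∈ N, |G z - G z'| ≤ 2 * Psi p S b m η u z z' := by
        intro z hz z' hz'
        have := ih (mv k c z) (mv k c z') (fun d hd => by
          rw [mv_of_mem hc hz hd, mv_of_mem hc hz' hd])
        rwa [mv_self, mv_self] at this
      set PN := ∑ z ∈ N, p z with hPN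
      have hPN1 : 1 - η ≤ PN := h.sum_free_ge hΓ k
      have hPN2 : PN ≤ 1 := h.sum_le_one N
      have hη := h.η_le
      have hW1 := h.Wf_le_one N
      have hW2 := h.sq_le_Wf N
      rw [← hPN] at hW2
      have hpx := h.pos x
      have hpy := h.pos y
      have hpyb := h.le_b y
      have hcoef : 0 ≤ Wf p N - 2 * p y * PN := by nlinarith
      have hfree : |∑ a ∈ Finset.univ.filter (FreeStep N),
          wt p a * (F (swap a.1 a.2 * k) - F (swap a.1 a.2 * k'))| ≤
          (Wf p N - 2 * p y * PN) * (2 * A) +
            2 * (p y - p x) * (2 * A * PN + 2 * (aa p S b u * QQ p S m η u)) := by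
        have e1 : ∑ a ∈ Finset.univ.filter (FreeStep N),
            wt p a * (F (swap a.1 a.2 * k) - F (swap a.1 a.2 * k')) =
            (Wf p N - 2 * p y * PN) * (G x - G y) +
              2 * (p y - p x) * ∑ z ∈ N, p z * (G x - G z) := by
          have e2 : ∑ a ∈ Finset.univ.filter (FreeStep N),
              wt p a * (F (swap a.1 a.2 * k) - F (swap a.1 a.2 * k')) =
              ∑ a ∈ Finset.univ.filter (FreeStep N), wt p a * G (swap a.1 a.2 x) -
              ∑ a ∈ Finset.univ.filter (FreeStep N), wt p a * G (swap a.1 a.2 y) := by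
            rw [← Finset.sum_sub_distrib]
            refine Finset.sum_congr rfl fun a ha => ?_
            rw [hFk a (Finset.mem_filter.1 ha).2, hFk' a (Finset.mem_filter.1 ha).2]
            ring
          rw [e2, freeAvg p hxN, freeAvg p hyN]
          have e3 : ∑ z ∈ N, p z * (G z - G x) = ∑ z ∈ N, p z * G z - PN * G x := by
            rw [hPN, Finset.sum_mul, ← Finset.sum_sub_distrib]
            exact Finset.sum_congr rfl fun z _ => by ring
          have e4 : ∑ z ∈ N, p z * (G z - G y) = ∑ z ∈ N, p z * G z - PN * G y := by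
            rw [hPN, Finset.sum_mul, ← Finset.sum_sub_distrib]
            exact Finset.sum_congr rfl fun z _ => by ring
          have e5 : ∑ z ∈ N, p z * (G x - G z) = PN * G x - ∑ z ∈ N, p z * G z := by
            rw [hPN, Finset.sum_mul, ← Finset.sum_sub_distrib]
            exact Finset.sum_congr rfl fun z _ => by ring
          rw [e3, e4, e5]; ring
        have e6 : |∑ z ∈ N, p z * (G x - G z)| ≤ 2 * A * PN + 2 * (aa p S b u * QQ p S m η u) := by
          calc |∑ z ∈ N, p z * (G x - G z)| ≤ ∑ z ∈ N, p z * (2 * A + 2 * E z) := by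
                refine (Finset.abs_sum_le_sum_abs _ _).trans (Finset.sum_le_sum fun z hz => ?_)
                rw [abs_mul, abs_of_nonneg (h.nonneg z)]
                refine mul_le_mul_of_nonneg_left ?_ (h.nonneg z)
                have h1 := hGdiff x hxN z hz
                rw [Psi_comm] at h1
                have h2 := h.Psi_le hord u z x (Or.inl rfl)
                simp only [hA, hE]
                linarith
            _ = 2 * A * PN + 2 * ∑ z ∈ N, p z * E z := by
                rw [hPN, Finset.mul_sum, Finset.mul_sum, ← Finset.sum_add_distrib]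
                exact Finset.sum_congr rfl fun z _ => by ring
            _ ≤ 2 * A * PN + 2 * (aa p S b u * QQ p S m η u) := by
                have : ∑ z ∈ N, p z * E z ≤ ∑ z, p z * E z :=
                  Finset.sum_le_sum_of_subset_of_nonneg (Finset.subset_univ _)
                    fun z _ _ => mul_nonneg (h.nonneg z) (hE0 z)
                rw [hpE] at this
                linarith
        rw [e1]
        have e7 := hGdiff x hxN y hyN
        calc _ ≤ |(Wf p N - 2 * p y * PN) * (G x - G y)| +
              |2 * (p y - p x) * ∑ z ∈ N, p z * (G x - G z)| := abs_add_le _ _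
          _ ≤ _ := by
              rw [abs_mul, abs_mul, abs_of_nonneg hcoef,
                abs_of_nonneg (by linarith : (0 : ℝ) ≤ 2 * (p y - p x))]
              have e8 := mul_le_mul_of_nonneg_left e7 hcoef
              have e9 := mul_le_mul_of_nonneg_left e6 (by linarith : (0 : ℝ) ≤ 2 * (p y - p x))
              simp only [hA]
              linarith
      -- other steps
      have hnon : |∑ a ∈ Finset.univ.filter (fun a => ¬ FreeStep N a),
          wt p a * (F (swap a.1 a.2 * k) - F (swap a.1 a.2 * k'))| ≤
          2 * A * (1 - Wf p N) + 4 * (p x + p y) * (aa p S b u * QQ p S m η u) := by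
        set e : α × α → ℝ := fun a => (if a.1 = x then E a.2 else 0) +
          (if a.2 = x then E a.1 else 0) + (if a.1 = y then E a.2 else 0) +
          (if a.2 = y then E a.1 else 0) with he
        have he0 : ∀ a, 0 ≤ e a := by
          intro a
          simp only [he]
          have := hE0 a.1
          have := hE0 a.2
          split_ifs <;> positivity
        have hterm : ∀ a, ¬ FreeStep N a →
            |F (swap a.1 a.2 * k) - F (swap a.1 a.2 * k')| ≤ 2 * (A + e a) := by
          intro a ha
          have h1 := ih (swap a.1 a.2 * k) (swap a.1 a.2 * k') (fun d hd => by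
            rw [Perm.mul_apply, Perm.mul_apply, hkk d hd])
          rw [Perm.mul_apply, Perm.mul_apply, ← hx, ← hy] at h1
          refine h1.trans ?_
          have hne : a.1 ≠ a.2 := fun e => ha (Or.inl e)
          have hnot : ¬ (a.1 ∈ N ∧ a.2 ∈ N) := fun e => ha (Or.inr e)
          have hcases : Psi p S b m η u (swap a.1 a.2 x) (swap a.1 a.2 y) ≤ A + e a := by
            have hE1 := hE0 a.1
            have hE2 := hE0 a.2
            by_cases h1x : a.1 = x
            · have h2N : a.2 ∉ N := fun e => hnot ⟨h1x ▸ hxN, e⟩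
              have h2y : a.2 ≠ y := fun e => h2N (e ▸ hyN)
              rw [h1x, swap_apply_left, swap_apply_of_ne_of_ne (Ne.symm hxy) h2y.symm]
              have h3 := h.Psi_le hord u a.2 y (Or.inr rfl)
              have h4 : E a.2 ≤ e a := by
                simp only [he, if_pos h1x]
                split_ifs <;> linarith
              simp only [hA]
              simp only [hE] at h4
              linarith
            by_cases h2x : a.2 = x
            · have h1N : a.1 ∉ N := fun e => hnot ⟨e, h2x ▸ hxN⟩
              have h1y : a.1 ≠ y := fun e => h1N (e ▸ hyN)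
              rw [h2x, swap_apply_right, swap_apply_of_ne_of_ne h1y.symm (Ne.symm hxy)]
              have h3 := h.Psi_le hord u a.1 y (Or.inr rfl)
              have h4 : E a.1 ≤ e a := by
                simp only [he, if_pos h2x]
                split_ifs <;> linarith
              simp only [hA]
              simp only [hE] at h4
              linarith
            rw [swap_apply_of_ne_of_ne (Ne.symm h1x) (Ne.symm h2x)]
            by_cases h1y : a.1 = y
            · rw [h1y, swap_apply_left, Psi_comm]
              have h3 := h.Psi_le hord u a.2 x (Or.inl rfl)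
              have h4 : E a.2 ≤ e a := by
                simp only [he, if_pos h1y]
                split_ifs <;> linarith
              simp only [hA]
              simp only [hE] at h4
              linarith
            by_cases h2y : a.2 = y
            · rw [h2y, swap_apply_right, Psi_comm]
              have h3 := h.Psi_le hord u a.1 x (Or.inl rfl)
              have h4 : E a.1 ≤ e a := by
                simp only [he, if_pos h2y]
                split_ifs <;> linarith
              simp only [hA]
              simp only [hE] at h4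
              linarith
            rw [swap_apply_of_ne_of_ne (Ne.symm h1y) (Ne.symm h2y)]
            have := he0 a
            linarith
          linarith
        have hsum1 : ∑ a ∈ Finset.univ.filter (fun a => ¬ FreeStep N a), wt p a =
            1 - Wf p N := by
          have := Finset.sum_filter_add_sum_filter_not Finset.univ (FreeStep N) (wt p)
          rw [sum_wt, h.sum] at this
          rw [Wf]; linarith
        have hsum2 : ∑ a : α × α, wt p a * e a = 2 * (p x + p y) * (aa p S b u * QQ p S m η u) := by
          rw [← hpE, Fintype.sum_prod_type]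
          simp only [he, wt, mul_add, Finset.sum_add_distrib]
          have s1 : ∀ w : α, ∑ i, ∑ j, p i * p j * (if i = w then E j else 0) =
              p w * ∑ z, p z * E z := by
            intro w
            have : ∀ i, ∑ j, p i * p j * (if i = w then E j else 0) =
                if i = w then p w * ∑ z, p z * E z else 0 := by
              intro i
              by_cases hi : i = w
              · subst hi
                simp only [if_true]
                rw [Finset.mul_sum]
                exact Finset.sum_congr rfl fun j _ => by ring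
              · simp [hi]
            rw [Finset.sum_congr rfl fun i _ => this i]
            simp
          have s2 : ∀ w : α, ∑ i, ∑ j, p i * p j * (if j = w then E i else 0) =
              p w * ∑ z, p z * E z := by
            intro w
            rw [Finset.sum_comm, ← s1 w]
            refine Finset.sum_congr rfl fun i _ => Finset.sum_congr rfl fun j _ => ?_
            ring
          rw [s1, s2, s1, s2]
          ring
        calc |∑ a ∈ Finset.univ.filter (fun a => ¬ FreeStep N a),
              wt p a * (F (swap a.1 a.2 * k) - F (swap a.1 a.2 * k'))|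
            ≤ ∑ a ∈ Finset.univ.filter (fun a => ¬ FreeStep N a), wt p a * (2 * (A + e a)) := by
              refine (Finset.abs_sum_le_sum_abs _ _).trans (Finset.sum_le_sum fun a ha => ?_)
              rw [abs_mul, abs_of_nonneg (wt_nonneg h.nonneg a)]
              exact mul_le_mul_of_nonneg_left (hterm a (Finset.mem_filter.1 ha).2)
                (wt_nonneg h.nonneg a)
          _ = 2 * A * (1 - Wf p N) +
              2 * ∑ a ∈ Finset.univ.filter (fun a => ¬ FreeStep N a), wt p a * e a := by
              rw [← hsum1, Finset.mul_sum, Finset.mul_sum, ← Finset.sum_add_distrib]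
              exact Finset.sum_congr rfl fun a _ => by ring
          _ ≤ 2 * A * (1 - Wf p N) + 2 * ∑ a : α × α, wt p a * e a := by
              have : ∑ a ∈ Finset.univ.filter (fun a => ¬ FreeStep N a), wt p a * e a ≤
                  ∑ a : α × α, wt p a * e a :=
                Finset.sum_le_sum_of_subset_of_nonneg (Finset.subset_univ _)
                  fun a _ _ => mul_nonneg (wt_nonneg h.nonneg a) (he0 a)
              linarith
          _ = _ := by rw [hsum2]; ring
      -- put together
      rw [av_Pit_succ, av_Pit_succ]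
      have e10 : ∑ a : α × α, wt p a * av (Pit p u φ) (insert c Γ) (swap a.1 a.2 * k) -
          ∑ a : α × α, wt p a * av (Pit p u φ) (insert c Γ) (swap a.1 a.2 * k') =
          ∑ a ∈ Finset.univ.filter (FreeStep N),
            wt p a * (F (swap a.1 a.2 * k) - F (swap a.1 a.2 * k')) +
          ∑ a ∈ Finset.univ.filter (fun a => ¬ FreeStep N a),
            wt p a * (F (swap a.1 a.2 * k) - F (swap a.1 a.2 * k')) := by
        rw [Finset.sum_filter_add_sum_filter_not, ← Finset.sum_sub_distrib]
        exact Finset.sum_congr rfl fun a _ => by rw [hF]; ring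
      rw [e10]
      have e11 := abs_add_le (∑ a ∈ Finset.univ.filter (FreeStep N),
            wt p a * (F (swap a.1 a.2 * k) - F (swap a.1 a.2 * k')))
          (∑ a ∈ Finset.univ.filter (fun a => ¬ FreeStep N a),
            wt p a * (F (swap a.1 a.2 * k) - F (swap a.1 a.2 * k')))
      have e12 := h.Psi_step hord u hPN1 hTu
      rw [← hA] at e12
      have hQ := h.QQ_nonneg u
      have e13 : p y * (aa p S b u * QQ p S m η u) ≤ b * (aa p S b u * QQ p S m η u) :=
        mul_le_mul_of_nonneg_right hpyb (by positivity)
      have e14 : 0 ≤ b * (aa p S b u * QQ p S m η u) := by positivity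
      linarith
    intro k k' hkk
    rcases le_total (p (k c)) (p (k' c)) with hord | hord
    · exact main k k' hkk hord
    · rw [abs_sub_comm, Psi_comm]
      exact main k' k (fun d hd => (hkk d hd).symm) hord

/-- total slow survival -/
noncomputable def Lam (p : α → ℝ) (S : Finset α) (m η : ℝ) (u : ℕ) : ℝ :=
  ∑ z ∈ S, Real.exp (-(rho p m η z * u))

/-- the averaged forward bound -/
noncomputable def BB (p : α → ℝ) (S : Finset α) (b m η : ℝ) (u : ℕ) (x : α) : ℝ :=
  2 * Real.exp (-(rho p m η x * u)) +
    (4 / (Fintype.card α : ℝ) + 24 * b ^ 2 * u) * Lam p S m η u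

namespace Setup

variable {p : α → ℝ} {S : Finset α} {b m η : ℝ} (h : Setup p S b m η)
include h

lemma Lam_nonneg (u : ℕ) : 0 ≤ Lam p S m η u :=
  Finset.sum_nonneg fun _ _ => (Real.exp_pos _).le

lemma QQ_le (u : ℕ) : QQ p S m η u ≤ b * Lam p S m η u := by
  rw [QQ, Lam, Finset.mul_sum]
  exact Finset.sum_le_sum fun z _ => mul_le_mul_of_nonneg_right (h.le_b z) (Real.exp_pos _).le

lemma BB_nonneg [Nonempty α] (u : ℕ) (x : α) : 0 ≤ BB p S b m η u x := by
  have := h.Lam_nonneg u
  have := h.b_nonneg
  have := (Real.exp_pos (-(rho p m η x * u))).le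
  unfold BB
  positivity

lemma Psi_le' [Nonempty α] (u : ℕ) (x z : α) :
    Psi p S b m η u x z ≤ aa p S b u * (Real.exp (-(rho p m η x * u)) +
      (if z ∈ S then Real.exp (-(rho p m η z * u)) else 0)) + 24 * b * u * QQ p S m η u := by
  have ha := h.one_le_aa u
  have hu : (0 : ℝ) ≤ u := Nat.cast_nonneg u
  rw [Psi]
  have key : Real.exp (-(min (rho p m η x) (rho p m η z) * u)) ≤
      Real.exp (-(rho p m η x * u)) + (if z ∈ S then Real.exp (-(rho p m η z * u)) else 0) := by
    by_cases hz : z ∈ S
    · rw [if_pos hz]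
      rcases le_total (rho p m η x) (rho p m η z) with hzw | hzw
      · rw [min_eq_left hzw]
        have := Real.exp_pos (-(rho p m η z * u))
        linarith
      · rw [min_eq_right hzw]
        have := Real.exp_pos (-(rho p m η x * u))
        linarith
    · rw [if_neg hz, add_zero]
      have h2 : rho p m η x ≤ rho p m η z := by
        rw [h.rho_eq_of_notMem hz]
        exact h.rho_le_m x
      rw [min_eq_left h2]
  nlinarith

end Setup

/-- Following one more card costs at most `2 * BB`. -/
theorem fwd_av [Nonempty α] {p : α → ℝ} {S : Finset α} {b m η : ℝ} (h : Setup p S b m η)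
    {Γ : Finset α} (hΓ : Γ.card * b ≤ η) (hΓ2 : 2 * Γ.card ≤ Fintype.card α)
    {c : α} (hc : c ∉ Γ) {φ : Perm α → ℝ}
    (hφ : ∀ X, |φ X| ≤ 1) (u : ℕ) (hT : 96 * b ^ 2 * (∑ z ∈ S, p z) * (u : ℝ) ^ 2 ≤ 1)
    (k : Perm α) :
    |av (Pit p u φ) (insert c Γ) k - av (Pit p u φ) Γ k| ≤ 2 * BB p S b m η u (k c) := by
  have hpos := card_sub_pos hc
  set nr : ℝ := (Fintype.card α : ℝ) - Γ.card with hnr
  have hnr2 : (Fintype.card α : ℝ) / 2 ≤ nr := by
    have : (2 : ℝ) * Γ.card ≤ Fintype.card α := by exact_mod_cast hΓ2
    rw [hnr]; linarith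
  have hcard : (0 : ℝ) < Fintype.card α := by exact_mod_cast Fintype.card_pos
  have hfc : ((free Γ k).card : ℝ) = nr := by
    rw [card_free, Nat.cast_sub (Finset.card_le_univ Γ)]
  have h1 : nr * (av (Pit p u φ) (insert c Γ) k - av (Pit p u φ) Γ k) =
      ∑ z ∈ free Γ k, (av (Pit p u φ) (insert c Γ) k -
        av (Pit p u φ) (insert c Γ) (mv k c z)) := by
    rw [Finset.sum_sub_distrib, mul_sub, av_site _ hc, Finset.sum_const, nsmul_eq_mul, hfc]
  have ha1 := h.one_le_aa u
  have ha2 : aa p S b u ≤ 2 := by unfold aa; linarith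
  have hb := h.b_nonneg
  have hQ := h.QQ_le u
  have hQ0 := h.QQ_nonneg u
  have hL := h.Lam_nonneg u
  have hu : (0 : ℝ) ≤ u := Nat.cast_nonneg u
  have h2 : ∑ z ∈ free Γ k, |av (Pit p u φ) (insert c Γ) k -
        av (Pit p u φ) (insert c Γ) (mv k c z)| ≤
      2 * (nr * (2 * Real.exp (-(rho p m η (k c) * u)) + 24 * b ^ 2 * u * Lam p S m η u) +
        2 * Lam p S m η u) := by
    calc _ ≤ ∑ z ∈ free Γ k, 2 * ((2 * Real.exp (-(rho p m η (k c) * u)) +
          24 * b ^ 2 * u * Lam p S m η u) +
          2 * (if z ∈ S then Real.exp (-(rho p m η z * u)) else 0)) := by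
          refine Finset.sum_le_sum fun z hz => ?_
          have h3 := fwd h hΓ hc hφ u hT k (mv k c z) (fun d hd => (mv_of_mem hc hz hd).symm)
          rw [mv_self] at h3
          refine h3.trans ?_
          have h4 := h.Psi_le' u (k c) z
          have h5 : aa p S b u * (Real.exp (-(rho p m η (k c) * u)) +
              (if z ∈ S then Real.exp (-(rho p m η z * u)) else 0)) ≤
              2 * (Real.exp (-(rho p m η (k c) * u)) +
              (if z ∈ S then Real.exp (-(rho p m η z * u)) else 0)) := by
            apply mul_le_mul_of_nonneg_right ha2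
            have := (Real.exp_pos (-(rho p m η (k c) * u))).le
            have := (Real.exp_pos (-(rho p m η z * u))).le
            split_ifs <;> linarith
          have h6 : 24 * b * u * QQ p S m η u ≤ 24 * b * u * (b * Lam p S m η u) :=
            mul_le_mul_of_nonneg_left hQ (by positivity)
          have h7 : 24 * b * u * (b * Lam p S m η u) = 24 * b ^ 2 * u * Lam p S m η u := by ring
          linarith
      _ ≤ _ := by
          rw [← Finset.mul_sum, Finset.sum_add_distrib, Finset.sum_const, nsmul_eq_mul, hfc,
            ← Finset.mul_sum]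
          have h8 : ∑ z ∈ free Γ k, (if z ∈ S then Real.exp (-(rho p m η z * u)) else 0) ≤
              Lam p S m η u := by
            rw [← Finset.sum_filter, Lam]
            refine Finset.sum_le_sum_of_subset_of_nonneg ?_ fun _ _ _ => (Real.exp_pos _).le
            intro z hz
            exact (Finset.mem_filter.1 hz).2
          linarith
  have h9 : nr * |av (Pit p u φ) (insert c Γ) k - av (Pit p u φ) Γ k| ≤
      nr * (2 * BB p S b m η u (k c)) := by
    rw [← abs_of_pos hpos, ← abs_mul, abs_of_pos hpos, h1]
    refine ((Finset.abs_sum_le_sum_abs _ _).trans h2).trans ?_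
    have h10 : 2 * Lam p S m η u ≤ nr * (4 / (Fintype.card α : ℝ) * Lam p S m η u) := by
      have : 1 / 2 ≤ nr / Fintype.card α := by
        rw [le_div_iff₀ hcard]; linarith
      have h11 : nr * (4 / (Fintype.card α : ℝ) * Lam p S m η u) =
          4 * (nr / Fintype.card α) * Lam p S m η u := by ring
      rw [h11]
      nlinarith
    unfold BB
    nlinarith
  exact le_of_mul_le_mul_left h9 hpos

end Pool.Agent.Lib.MP_8c2010_pr
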