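import Pool.Agent.Lib.MP_8c2010_pr.Bwd

set_option autoImplicit false
set_option linter.unusedSectionVars false

/-! # The hybrid argument -/

namespace Pool.Agent.Lib.MP_8c2010_pr

open Equiv Finset

variable {α : Type*} [Fintype α] [DecidableEq α]

lemma mvs_mono {Γ Γ' : Finset α} (hΓ : Γ ⊆ Γ') (w : List (α × α)) : mvs Γ w ≤ mvs Γ' w := by
  induction w with
  | nil => simp [mvs]
  | cons a w ih =>
    simp only [mvs]
    by_cases h1 : ∀ c ∈ Γ', swap a.1 a.2 (Xw w c) = Xw w c
    · rw [if_pos h1, if_pos (fun c hc => h1 c (hΓ hc))]; omega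
    · rw [if_neg h1]; split_ifs <;> omega

lemma mvs_cons (Γ : Finset α) (a : α × α) (w : List (α × α)) : mvs Γ w ≤ mvs Γ (a :: w) := by
  simp only [mvs]; omega

lemma Same.mvs_eq {Γ : Finset α} {w w' : List (α × α)} (h : Same Γ w w') :
    mvs Γ w = mvs Γ w' := by
  induction w generalizing w' with
  | nil =>
    cases w' with
    | nil => rfl
    | cons a w' => exact h.elim
  | cons a w ih =>
    cases w' with
    | nil => exact h.elim
    | cons a' w' =>
      obtain ⟨h1, h2⟩ := h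
      simp only [mvs, ih h1]
      congr 1
      refine if_congr ?_ rfl rfl
      refine forall₂_congr fun c hc => ?_
      have h3 := h2 c hc
      simp only [Xw, Perm.mul_apply] at h3
      rw [h3, h1.apply c hc]

lemma Same.vis_eq {S Γ : Finset α} {w w' : List (α × α)} (h : Same Γ w w')
    (hv : vis S w ⊆ Γ) : vis S w = vis S w' := by
  induction w generalizing w' with
  | nil =>
    cases w' with
    | nil => rfl
    | cons a w' => exact h.elim
  | cons a w ih =>
    cases w' with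
    | nil => exact h.elim
    | cons a' w' =>
      obtain ⟨h1, h2⟩ := h
      simp only [vis]
      rw [ih h1 ((vis_subset_cons S a w).trans hv)]
      congr 1
      refine Finset.image_congr fun x hx => ?_
      have h3 : (Xw (a :: w))⁻¹ x ∈ Γ := hv (inv_mem_vis (a :: w) hx)
      have h4 := h2 _ h3
      have h5 : Xw (a :: w) ((Xw (a :: w))⁻¹ x) = x := by simp
      rw [h5] at h4
      rw [eq_comm, Perm.inv_eq_iff_eq]
      exact h4

/-- only few cards visited `S` and they moved only a few times -/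
def Good (S : Finset α) (G0 J0 : ℕ) (w : List (α × α)) : Prop :=
  (vis S w).card ≤ G0 ∧ mvs (vis S w) w ≤ J0

noncomputable instance (S : Finset α) (G0 J0 : ℕ) : DecidablePred (Good S G0 J0) := fun w => by
  unfold Good; infer_instance

lemma Good.of_cons {S : Finset α} {G0 J0 : ℕ} {a : α × α} {w : List (α × α)}
    (h : Good S G0 J0 (a :: w)) : Good S G0 J0 w :=
  ⟨(Finset.card_le_card (vis_subset_cons S a w)).trans h.1,
    ((mvs_cons _ a w).trans (mvs_mono (vis_subset_cons S a w) (a :: w))).trans h.2⟩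

/-- indicator of `Good` -/
noncomputable def gd (S : Finset α) (G0 J0 : ℕ) (w : List (α × α)) : ℝ :=
  if Good S G0 J0 w then 1 else 0

lemma gd_nonneg (S : Finset α) (G0 J0 : ℕ) (w : List (α × α)) : 0 ≤ gd S G0 J0 w := by
  unfold gd; split_ifs <;> norm_num

lemma gd_le_one (S : Finset α) (G0 J0 : ℕ) (w : List (α × α)) : gd S G0 J0 w ≤ 1 := by
  unfold gd; split_ifs <;> norm_num

lemma gd_cons_le (S : Finset α) (G0 J0 : ℕ) (a : α × α) (w : List (α × α)) :
    gd S G0 J0 (a :: w) ≤ gd S G0 J0 w := by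
  unfold gd
  by_cases h : Good S G0 J0 (a :: w)
  · rw [if_pos h, if_pos h.of_cons]
  · rw [if_neg h]; split_ifs <;> norm_num

/-- card entering `x` from `y` : the resulting change of the average -/
noncomputable def Th (ψ : Perm α → ℝ) (Γ : Finset α) (x y c : α) (g : Perm α) : ℝ :=
  av ψ (insert c Γ) (swap x y * mv g c y) - av ψ Γ (swap x y * g)

lemma Th_congr (ψ : Perm α → ℝ) {Γ : Finset α} (x : α) {y c : α} {g g' : Perm α} (hc : c ∉ Γ)
    (hy : y ∈ free Γ g) (hgg : ∀ d ∈ Γ, g d = g' d) : Th ψ Γ x y c g = Th ψ Γ x y c g' := by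
  have hy' : y ∈ free Γ g' := mem_free.2 fun d hd e => mem_free.1 hy d hd (by rw [hgg d hd, e])
  unfold Th
  congr 1
  · apply av_congr
    intro d hd
    rw [Perm.mul_apply, Perm.mul_apply]
    congr 1
    rcases Finset.mem_insert.1 hd with rfl | hd
    · rw [mv_self, mv_self]
    · rw [mv_of_mem hc hy hd, mv_of_mem hc hy' hd, hgg d hd]
  · apply av_congr
    intro d hd
    rw [Perm.mul_apply, Perm.mul_apply, hgg d hd]

lemma sum_Th (ψ : Perm α → ℝ) {Γ : Finset α} (x : α) {y : α} {g : Perm α}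
    (hy : y ∈ free Γ g) : ∑ c ∈ Γᶜ, Th ψ Γ x y c g = 0 := by
  have hx : x ∈ free Γ (swap x y * g) := by
    rw [mem_free]
    intro d hd e
    rw [Perm.mul_apply] at e
    have : g d = y := by
      have h1 := congrArg (swap x y) e
      rw [swap_apply_self, swap_apply_left] at h1
      exact h1
    exact mem_free.1 hy d hd this
  have h1 := av_card ψ hx
  unfold Th
  rw [Finset.sum_sub_distrib, Finset.sum_const, nsmul_eq_mul, Finset.card_compl,
    Nat.cast_sub (Finset.card_le_univ Γ), h1, sub_eq_zero]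
  refine Finset.sum_congr rfl fun c hc => ?_
  have hc' := Finset.mem_compl.1 hc
  apply av_congr
  intro d hd
  rcases Finset.mem_insert.1 hd with rfl | hd
  · rw [mv_self, Perm.mul_apply, mv_self, swap_apply_right]
  · rw [mv_of_mem hc' hx hd, Perm.mul_apply, Perm.mul_apply, mv_of_mem hc' hy hd]

lemma Th_abs_le [Nonempty α] {p : α → ℝ} {S : Finset α} {b m η : ℝ} (h : Setup p S b m η)
    {Γ : Finset α} (hΓ : Γ.card * b ≤ η) (hΓ2 : 2 * Γ.card ≤ Fintype.card α)
    {φ : Perm α → ℝ}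
    (hφ : ∀ X, |φ X| ≤ 1) (u : ℕ) (hT : 96 * b ^ 2 * (∑ z ∈ S, p z) * (u : ℝ) ^ 2 ≤ 1)
    {x y c : α} (hc : c ∉ Γ) {g : Perm α} (hy : y ∈ free Γ g) :
    |Th (Pit p u φ) Γ x y c g| ≤ 2 * BB p S b m η u x := by
  have h1 := fwd_av h hΓ hΓ2 hc hφ u hT (swap x y * mv g c y)
  rw [Perm.mul_apply, mv_self, swap_apply_right] at h1
  have h2 : av (Pit p u φ) Γ (swap x y * mv g c y) = av (Pit p u φ) Γ (swap x y * g) := by
    apply av_congr
    intro d hd
    rw [Perm.mul_apply, Perm.mul_apply, mv_of_mem hc hy hd]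
  rw [h2] at h1
  exact h1

/-- the contribution of the entrances `y → x` -/
lemma entrance [Nonempty α] {p : α → ℝ} {S : Finset α} {b m η : ℝ} (h : Setup p S b m η)
    {G0 J0 : ℕ} (hG : G0 * b ≤ η) (hG2 : 2 * G0 ≤ Fintype.card α) {φ : Perm α → ℝ}
    (hφ : ∀ X, |φ X| ≤ 1) (hm1 : 2 * m ≤ 1)
    (s u : ℕ) (hT : 96 * b ^ 2 * (∑ z ∈ S, p z) * (u : ℝ) ^ 2 ≤ 1)
    (x y : α) :
    |Ew p s (fun w => gd S G0 J0 w * (if y ∈ free (vis S w) (Xw w) then
        av (Pit p u φ) (insert ((Xw w)⁻¹ y) (vis S w)) (swap x y * Xw w) -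
        av (Pit p u φ) (vis S w) (swap x y * Xw w) else 0))| ≤
      4 * (1 - (1 - η) * (2 * m)) ^ (s - J0) * BB p S b m η u x := by
  set ψ := Pit p u φ with hψ
  set κ := (1 - η) * (2 * m) with hκ
  have hη := h.η_le
  have hη0 := h.η_nonneg
  have hm0 := h.m_pos
  have hκ0 : 0 ≤ κ := mul_nonneg (by linarith) (by linarith)
  have hκ1 : κ ≤ 1 := by rw [hκ]; nlinarith
  have hBB := h.BB_nonneg u x
  -- the trajectory measurable part
  set F : Finset α → α → List (α × α) → ℝ := fun Γ c w =>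
    if vis S w = Γ ∧ Good S G0 J0 w ∧ y ∈ free Γ (Xw w) then Th ψ Γ x y c (Xw w) else 0 with hF
  have hFmeas : ∀ Γ, ∀ c ∉ Γ, ∀ w w', Same Γ w w' → F Γ c w = F Γ c w' := by
    intro Γ c hc w w' hww
    have hcond : (vis S w = Γ ∧ Good S G0 J0 w ∧ y ∈ free Γ (Xw w)) ↔
        (vis S w' = Γ ∧ Good S G0 J0 w' ∧ y ∈ free Γ (Xw w')) := by
      have haux : ∀ w w', Same Γ w w' → (vis S w = Γ ∧ Good S G0 J0 w ∧ y ∈ free Γ (Xw w)) →
        (vis S w' = Γ ∧ Good S G0 J0 w' ∧ y ∈ free Γ (Xw w')) := by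
        rintro w w' hww ⟨h1, h2, h3⟩
        have h4 : vis S w' = Γ := by rw [← hww.vis_eq h1.subset, h1]
        refine ⟨h4, ?_, ?_⟩
        · unfold Good at h2 ⊢
          rw [h4, ← hww.mvs_eq]
          rwa [h1] at h2
        · rw [mem_free] at h3 ⊢
          intro d hd
          rw [← hww.apply d hd]
          exact h3 d hd
      refine ⟨haux w w' hww, haux w' w ?_⟩
      -- symmetry of `Same`
      clear haux
      induction w generalizing w' with
      | nil =>
        cases w' with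
        | nil => trivial
        | cons a w' => exact hww.elim
      | cons a w ih =>
        cases w' with
        | nil => exact hww.elim
        | cons a' w' => exact ⟨ih w' hww.1, fun c hc => (hww.2 c hc).symm⟩
    simp only [hF]
    by_cases hc1 : vis S w = Γ ∧ Good S G0 J0 w ∧ y ∈ free Γ (Xw w)
    · rw [if_pos hc1, if_pos (hcond.1 hc1)]
      exact Th_congr ψ x hc hc1.2.2 hww.apply
    · rw [if_neg hc1, if_neg (fun hh => hc1 (hcond.2 hh))]
  -- rewrite the integrand
  have hint : ∀ w, gd S G0 J0 w * (if y ∈ free (vis S w) (Xw w) then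
        av ψ (insert ((Xw w)⁻¹ y) (vis S w)) (swap x y * Xw w) -
        av ψ (vis S w) (swap x y * Xw w) else 0) =
      ∑ Γ : Finset α, ∑ c ∈ Γᶜ, F Γ c w * (if Xw w c = y then 1 else 0) := by
    intro w
    have h1 : ∀ Γ : Finset α, Γ ≠ vis S w →
        ∑ c ∈ Γᶜ, F Γ c w * (if Xw w c = y then 1 else 0) = 0 := by
      intro Γ hΓ
      refine Finset.sum_eq_zero fun c _ => ?_
      simp only [hF]
      rw [if_neg (fun hh => hΓ hh.1.symm), zero_mul]
    rw [Finset.sum_eq_single (vis S w) (fun Γ _ hΓ => h1 Γ hΓ) (by simp)]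
    unfold gd
    by_cases hg : Good S G0 J0 w
    · by_cases hy : y ∈ free (vis S w) (Xw w)
      · rw [if_pos hg, if_pos hy, one_mul]
        have hc₀ : (Xw w)⁻¹ y ∈ (vis S w)ᶜ := by
          rw [Finset.mem_compl]
          intro hh
          exact mem_free.1 hy _ hh (by simp)
        rw [Finset.sum_eq_single ((Xw w)⁻¹ y)]
        · have e1 : Xw w ((Xw w)⁻¹ y) = y := by simp
          simp only [hF]
          rw [if_pos ⟨trivial, hg, hy⟩, if_pos e1, mul_one, Th]
          congr 1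
          rw [mv, e1, swap_self]
          rfl
        · intro c _ hc
          rw [if_neg, mul_zero]
          intro e
          apply hc
          rw [eq_comm, Perm.inv_eq_iff_eq]
          exact e.symm
        · intro hh
          exact absurd hc₀ hh
      · rw [if_neg hy, mul_zero]
        symm
        refine Finset.sum_eq_zero fun c _ => ?_
        simp only [hF]
        rw [if_neg (fun hh => hy hh.2.2), zero_mul]
    · rw [if_neg hg, zero_mul]
      symm
      refine Finset.sum_eq_zero fun c _ => ?_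
      simp only [hF]
      rw [if_neg (fun hh => hg hh.2.1), zero_mul]
  rw [Ew_congr p fun w _ => hint w, Ew_fsum]
  have hcond : ∀ Γ : Finset α, Ew p s (fun w => ∑ c ∈ Γᶜ, F Γ c w *
      (if Xw w c = y then 1 else 0)) = Ew p s (fun w => ∑ c ∈ Γᶜ, F Γ c w * kk p Γ w c y) := by
    intro Γ
    rw [Ew_fsum, Ew_fsum]
    refine Finset.sum_congr rfl fun c hc => ?_
    exact Ew_cond h.pos Γ s (F Γ c) (hFmeas Γ c (Finset.mem_compl.1 hc))
      (fun X => if X c = y then 1 else 0)
  rw [Finset.sum_congr rfl fun Γ _ => hcond Γ, ← Ew_fsum]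
  refine (Ew_abs_le h.nonneg s _).trans ?_
  have hbound : ∀ w, w.length = s → |∑ Γ : Finset α, ∑ c ∈ Γᶜ, F Γ c w * kk p Γ w c y| ≤
      4 * (1 - κ) ^ (s - J0) * BB p S b m η u x := by
    intro w hw
    have hR : 0 ≤ 4 * (1 - κ) ^ (s - J0) * BB p S b m η u x := by
      have : 0 ≤ 1 - κ := by linarith
      positivity
    have h1 : ∀ Γ : Finset α, Γ ≠ vis S w → ∑ c ∈ Γᶜ, F Γ c w * kk p Γ w c y = 0 := by
      intro Γ hΓ
      refine Finset.sum_eq_zero fun c _ => ?_
      simp only [hF]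
      rw [if_neg (fun hh => hΓ hh.1.symm), zero_mul]
    rw [Finset.sum_eq_single (vis S w) (fun Γ _ hΓ => h1 Γ hΓ) (by simp)]
    obtain ⟨Γ, hΓdef⟩ : ∃ Γ, vis S w = Γ := ⟨_, rfl⟩
    rw [hΓdef]
    by_cases hgy : Good S G0 J0 w ∧ y ∈ free Γ (Xw w)
    · obtain ⟨hg, hy⟩ := hgy
      have hg1 : Γ.card ≤ G0 := by rw [← hΓdef]; exact hg.1
      have hg2 : mvs Γ w ≤ J0 := by rw [← hΓdef]; exact hg.2
      have hFeq : ∀ c, F Γ c w = Th ψ Γ x y c (Xw w) := by
        intro c
        simp only [hF]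
        rw [if_pos ⟨hΓdef, hg, hy⟩]
      have hΓc : (Γ.card : ℝ) * b ≤ η := by
        have : (Γ.card : ℝ) ≤ G0 := by exact_mod_cast hg1
        exact (mul_le_mul_of_nonneg_right this h.b_nonneg).trans hG
      have hΓ2 : 2 * Γ.card ≤ Fintype.card α := by omega
      have e1 : ∑ c ∈ Γᶜ, F Γ c w * kk p Γ w c y =
          ∑ c ∈ Γᶜ, Th ψ Γ x y c (Xw w) *
            (kk p Γ w c y - 1 / ((Fintype.card α : ℝ) - Γ.card)) := by
        simp only [mul_sub, Finset.sum_sub_distrib, hFeq]
        rw [← Finset.sum_mul, sum_Th ψ x hy, zero_mul, sub_zero]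
      rw [e1]
      calc |∑ c ∈ Γᶜ, Th ψ Γ x y c (Xw w) *
            (kk p Γ w c y - 1 / ((Fintype.card α : ℝ) - Γ.card))|
          ≤ ∑ c ∈ Γᶜ, 2 * BB p S b m η u x *
            |kk p Γ w c y - 1 / ((Fintype.card α : ℝ) - Γ.card)| := by
            refine (Finset.abs_sum_le_sum_abs _ _).trans (Finset.sum_le_sum fun c hc => ?_)
            rw [abs_mul]
            exact mul_le_mul_of_nonneg_right
              (Th_abs_le h hΓc hΓ2 hφ u hT (Finset.mem_compl.1 hc) hy) (abs_nonneg _)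
        _ = 2 * BB p S b m η u x *
            ∑ c ∈ Γᶜ, |kk p Γ w c y - 1 / ((Fintype.card α : ℝ) - Γ.card)| := by
            rw [Finset.mul_sum]
        _ ≤ 2 * BB p S b m η u x * (2 * (1 - κ) ^ (s - J0)) := by
            refine mul_le_mul_of_nonneg_left ?_ (by positivity)
            refine (bwd_unif h hΓc w hΓdef.subset hy).trans ?_
            refine mul_le_mul_of_nonneg_left ?_ (by norm_num)
            rw [hw]
            refine pow_le_pow_of_le_one (by linarith) (by linarith) ?_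
            omega
        _ = _ := by ring
    · have h2 : ∑ c ∈ Γᶜ, F Γ c w * kk p Γ w c y = 0 := by
        refine Finset.sum_eq_zero fun c _ => ?_
        simp only [hF]
        rw [if_neg (fun hh => hgy hh.2), zero_mul]
      rw [h2, abs_zero]
      exact hR
  exact (Ew_mono h.nonneg hbound).trans (le_of_eq (Ew_const h.sum s _))

lemma vis_cons_swap (S : Finset α) (i j : α) (w : List (α × α)) :
    vis S ((j, i) :: w) = vis S ((i, j) :: w) := by
  simp only [vis, Xw]
  rw [swap_comm]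

lemma vis_cons_of_entr {S : Finset α} {i j : α} {w : List (α × α)} (hi : i ∈ S)
    (hj : j ∈ free (vis S w) (Xw w)) :
    vis S ((i, j) :: w) = insert ((Xw w)⁻¹ j) (vis S w) := by
  have hjS : j ∉ S := free_not_mem_S le_rfl hj
  ext d
  simp only [vis, Xw, Finset.mem_union, Finset.mem_image, Finset.mem_insert, mul_inv_rev,
    swap_inv, Perm.mul_apply]
  constructor
  · rintro (hd | ⟨x, hx, rfl⟩)
    · exact Or.inr hd
    · by_cases hxi : x = i
      · left; rw [hxi, swap_apply_left]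
      · right
        have hxj : x ≠ j := fun e => hjS (e ▸ hx)
        rw [swap_apply_of_ne_of_ne hxi hxj]
        exact inv_mem_vis w hx
  · rintro (rfl | hd)
    · exact Or.inr ⟨i, hi, by rw [swap_apply_left]⟩
    · exact Or.inl hd

lemma vis_cons_of_not {S : Finset α} {i j : α} {w : List (α × α)}
    (h1 : ¬ (i ∈ S ∧ j ∈ free (vis S w) (Xw w))) (h2 : ¬ (j ∈ S ∧ i ∈ free (vis S w) (Xw w))) :
    vis S ((i, j) :: w) = vis S w := by
  have haux : ∀ y, y ∉ free (vis S w) (Xw w) → (Xw w)⁻¹ y ∈ vis S w := by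
    intro y hy
    rw [mem_free] at hy
    push Not at hy
    obtain ⟨c, hc, e⟩ := hy
    have : (Xw w)⁻¹ y = c := by rw [Perm.inv_eq_iff_eq]; exact e.symm
    rw [this]; exact hc
  ext d
  simp only [vis, Xw, Finset.mem_union, Finset.mem_image, mul_inv_rev,
    swap_inv, Perm.mul_apply]
  constructor
  · rintro (hd | ⟨x, hx, rfl⟩)
    · exact hd
    · by_cases hxi : x = i
      · rw [hxi, swap_apply_left]
        exact haux j fun hh => h1 ⟨hxi ▸ hx, hh⟩
      · by_cases hxj : x = j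
        · rw [hxj, swap_apply_right]
          exact haux i fun hh => h2 ⟨hxj ▸ hx, hh⟩
        · rw [swap_apply_of_ne_of_ne hxi hxj]
          exact inv_mem_vis w hx
  · intro hd; exact Or.inl hd

/-- the change of the averages along one step is due to the entrances only -/
lemma sum_entr (p : α → ℝ) (S : Finset α) (ψ : Perm α → ℝ) (w : List (α × α)) :
    ∑ a : α × α, wt p a * (av ψ (vis S (a :: w)) (Xw (a :: w)) - av ψ (vis S w) (Xw (a :: w))) =
      ∑ x ∈ S, ∑ y, 2 * (p x * p y) * (if y ∈ free (vis S w) (Xw w) then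
        av ψ (insert ((Xw w)⁻¹ y) (vis S w)) (swap x y * Xw w) -
        av ψ (vis S w) (swap x y * Xw w) else 0) := by
  set f : α → α → ℝ := fun x y => if x ∈ S ∧ y ∈ free (vis S w) (Xw w) then
        av ψ (insert ((Xw w)⁻¹ y) (vis S w)) (swap x y * Xw w) -
        av ψ (vis S w) (swap x y * Xw w) else 0 with hf
  have hterm : ∀ i j : α, av ψ (vis S ((i, j) :: w)) (Xw ((i, j) :: w)) -
      av ψ (vis S w) (Xw ((i, j) :: w)) = f i j + f j i := by
    intro i j
    simp only [hf]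
    by_cases h1 : i ∈ S ∧ j ∈ free (vis S w) (Xw w)
    · have h2 : ¬ (j ∈ S ∧ i ∈ free (vis S w) (Xw w)) := fun hh =>
        free_not_mem_S le_rfl h1.2 hh.1
      rw [if_pos h1, if_neg h2, vis_cons_of_entr h1.1 h1.2, add_zero]
      rfl
    · by_cases h2 : j ∈ S ∧ i ∈ free (vis S w) (Xw w)
      · rw [if_neg h1, if_pos h2, ← vis_cons_swap, vis_cons_of_entr h2.1 h2.2, zero_add]
        simp only [Xw]
        rw [swap_comm]
      · rw [if_neg h1, if_neg h2, vis_cons_of_not h1 h2, sub_self, add_zero]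
  rw [Fintype.sum_prod_type]
  simp only [hterm, wt]
  have h3 : ∑ i, ∑ j, p i * p j * (f i j + f j i) = ∑ i, ∑ j, 2 * (p i * p j) * f i j := by
    have h4 : ∑ i, ∑ j, p i * p j * f j i = ∑ i, ∑ j, p i * p j * f i j := by
      rw [Finset.sum_comm]
      exact Finset.sum_congr rfl fun i _ => Finset.sum_congr rfl fun j _ => by ring
    simp only [mul_add, Finset.sum_add_distrib]
    rw [h4, ← Finset.sum_add_distrib]
    refine Finset.sum_congr rfl fun i _ => ?_
    rw [← Finset.sum_add_distrib]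
    exact Finset.sum_congr rfl fun j _ => by ring
  rw [h3, ← Finset.sum_subset (Finset.subset_univ S)]
  · refine Finset.sum_congr rfl fun x hx => Finset.sum_congr rfl fun y _ => ?_
    simp only [hf]
    congr 1
    exact if_congr ⟨fun hh => hh.2, fun hh => ⟨hx, hh⟩⟩ rfl rfl
  · intro x _ hx
    refine Finset.sum_eq_zero fun y _ => ?_
    simp only [hf]
    rw [if_neg (fun hh => hx hh.1), mul_zero]

/-- the hybrid functionals -/
noncomputable def lam (p : α → ℝ) (S : Finset α) (G0 J0 t : ℕ) (φ : Perm α → ℝ) (s : ℕ) : ℝ :=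
  Ew p s (fun w => gd S G0 J0 w * av (Pit p (t - s) φ) (vis S w) (Xw w))

lemma lam_step [Nonempty α] {p : α → ℝ} {S : Finset α} {b m η : ℝ} (h : Setup p S b m η)
    {G0 J0 : ℕ} (hG : G0 * b ≤ η) (hG2 : 2 * G0 ≤ Fintype.card α) {φ : Perm α → ℝ}
    (hφ : ∀ X, |φ X| ≤ 1) (hm1 : 2 * m ≤ 1)
    {s t : ℕ} (hst : s < t) (hT : 96 * b ^ 2 * (∑ z ∈ S, p z) * (t : ℝ) ^ 2 ≤ 1) :
    |lam p S G0 J0 t φ (s + 1) - lam p S G0 J0 t φ s| ≤
      (Ew p s (gd S G0 J0) - Ew p (s + 1) (gd S G0 J0)) +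
      8 * (1 - (1 - η) * (2 * m)) ^ (s - J0) * ∑ x ∈ S, p x * BB p S b m η (t - (s + 1)) x := by
  set u := t - (s + 1) with hu
  have hts : t - s = u + 1 := by omega
  set ψ := Pit p u φ with hψ
  have hTu : 96 * b ^ 2 * (∑ z ∈ S, p z) * (u : ℝ) ^ 2 ≤ 1 := by
    refine le_trans ?_ hT
    have h1 : (u : ℝ) ≤ t := by exact_mod_cast (by omega : u ≤ t)
    have h2 : (0 : ℝ) ≤ u := Nat.cast_nonneg u
    have h3 : 0 ≤ 96 * b ^ 2 * (∑ z ∈ S, p z) := by
      have := h.pS_nonneg
      positivity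
    have h4 : (u : ℝ) ^ 2 ≤ (t : ℝ) ^ 2 := by nlinarith
    nlinarith
  have hψ1 : ∀ X, |ψ X| ≤ 1 := fun X => Pit_abs_le h.nonneg h.sum hφ u X
  have e1 : lam p S G0 J0 t φ s = Ew p s (fun w => ∑ a : α × α, wt p a *
      (gd S G0 J0 w * av ψ (vis S w) (Xw (a :: w)))) := by
    rw [lam]
    refine Ew_congr p fun w _ => ?_
    rw [hts, av_Pit_succ, Finset.mul_sum]
    refine Finset.sum_congr rfl fun a _ => ?_
    rw [← hψ]
    simp only [Xw]
    ring
  have e2 : lam p S G0 J0 t φ (s + 1) = Ew p s (fun w => ∑ a : α × α, wt p a *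
      (gd S G0 J0 (a :: w) * av ψ (vis S (a :: w)) (Xw (a :: w)))) := by
    rw [lam, Ew_succ']
  have e3 : lam p S G0 J0 t φ (s + 1) - lam p S G0 J0 t φ s =
      Ew p s (fun w => ∑ a : α × α, wt p a *
        ((gd S G0 J0 (a :: w) - gd S G0 J0 w) * av ψ (vis S (a :: w)) (Xw (a :: w)))) +
      Ew p s (fun w => gd S G0 J0 w * ∑ a : α × α, wt p a *
        (av ψ (vis S (a :: w)) (Xw (a :: w)) - av ψ (vis S w) (Xw (a :: w)))) := by
    rw [e1, e2, ← Ew_sub, ← Ew_add]
    refine Ew_congr p fun w _ => ?_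
    rw [Finset.mul_sum, ← Finset.sum_sub_distrib, ← Finset.sum_add_distrib]
    exact Finset.sum_congr rfl fun a _ => by ring
  have e4 : |Ew p s (fun w => ∑ a : α × α, wt p a *
        ((gd S G0 J0 (a :: w) - gd S G0 J0 w) * av ψ (vis S (a :: w)) (Xw (a :: w))))| ≤
      Ew p s (gd S G0 J0) - Ew p (s + 1) (gd S G0 J0) := by
    refine (Ew_abs_le h.nonneg s _).trans ?_
    have : Ew p s (gd S G0 J0) - Ew p (s + 1) (gd S G0 J0) =
        Ew p s (fun w => ∑ a : α × α, wt p a * (gd S G0 J0 w - gd S G0 J0 (a :: w))) := by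
      rw [Ew_succ', ← Ew_sub]
      refine Ew_congr p fun w _ => ?_
      simp only [mul_sub, Finset.sum_sub_distrib]
      rw [← Finset.sum_mul, sum_wt, h.sum]
      ring
    rw [this]
    refine Ew_mono h.nonneg fun w _ => ?_
    refine (Finset.abs_sum_le_sum_abs _ _).trans (Finset.sum_le_sum fun a _ => ?_)
    rw [abs_mul, abs_of_nonneg (wt_nonneg h.nonneg a)]
    refine mul_le_mul_of_nonneg_left ?_ (wt_nonneg h.nonneg a)
    rw [abs_mul]
    have h5 := gd_cons_le S G0 J0 a w
    rw [abs_of_nonpos (by linarith : gd S G0 J0 (a :: w) - gd S G0 J0 w ≤ 0)]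
    have h6 := av_abs_le hψ1 (vis S (a :: w)) (Xw (a :: w))
    nlinarith
  have e5 : |Ew p s (fun w => gd S G0 J0 w * ∑ a : α × α, wt p a *
        (av ψ (vis S (a :: w)) (Xw (a :: w)) - av ψ (vis S w) (Xw (a :: w))))| ≤
      8 * (1 - (1 - η) * (2 * m)) ^ (s - J0) * ∑ x ∈ S, p x * BB p S b m η u x := by
    have h7 : Ew p s (fun w => gd S G0 J0 w * ∑ a : α × α, wt p a *
        (av ψ (vis S (a :: w)) (Xw (a :: w)) - av ψ (vis S w) (Xw (a :: w)))) =
        ∑ x ∈ S, ∑ y, 2 * (p x * p y) * Ew p s (fun w => gd S G0 J0 w *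
          (if y ∈ free (vis S w) (Xw w) then
        av ψ (insert ((Xw w)⁻¹ y) (vis S w)) (swap x y * Xw w) -
        av ψ (vis S w) (swap x y * Xw w) else 0)) := by
      have h8 : ∀ w, gd S G0 J0 w * ∑ a : α × α, wt p a *
        (av ψ (vis S (a :: w)) (Xw (a :: w)) - av ψ (vis S w) (Xw (a :: w))) =
          ∑ x ∈ S, ∑ y, 2 * (p x * p y) * (gd S G0 J0 w *
          (if y ∈ free (vis S w) (Xw w) then
        av ψ (insert ((Xw w)⁻¹ y) (vis S w)) (swap x y * Xw w) -
        av ψ (vis S w) (swap x y * Xw w) else 0)) := by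
        intro w
        rw [sum_entr, Finset.mul_sum]
        refine Finset.sum_congr rfl fun x _ => ?_
        rw [Finset.mul_sum]
        exact Finset.sum_congr rfl fun y _ => by ring
      rw [Ew_congr p fun w _ => h8 w, Ew_fsum]
      refine Finset.sum_congr rfl fun x _ => ?_
      rw [Ew_fsum]
      exact Finset.sum_congr rfl fun y _ => Ew_const_mul p s _ _
    rw [h7, Finset.mul_sum]
    refine (Finset.abs_sum_le_sum_abs _ _).trans (Finset.sum_le_sum fun x _ => ?_)
    calc |∑ y, 2 * (p x * p y) * Ew p s (fun w => gd S G0 J0 w *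
          (if y ∈ free (vis S w) (Xw w) then
        av ψ (insert ((Xw w)⁻¹ y) (vis S w)) (swap x y * Xw w) -
        av ψ (vis S w) (swap x y * Xw w) else 0))|
        ≤ ∑ y, 2 * (p x * p y) * (4 * (1 - (1 - η) * (2 * m)) ^ (s - J0) *
            BB p S b m η u x) := by
          refine (Finset.abs_sum_le_sum_abs _ _).trans (Finset.sum_le_sum fun y _ => ?_)
          have h9 : 0 ≤ 2 * (p x * p y) := by
            have := mul_nonneg (h.nonneg x) (h.nonneg y)
            linarith
          rw [abs_mul, abs_of_nonneg h9]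
          exact mul_le_mul_of_nonneg_left (entrance h hG hG2 hφ hm1 s u hTu x y) h9
      _ = _ := by
          rw [← Finset.sum_mul, ← Finset.mul_sum, ← Finset.mul_sum, h.sum]
          ring
  rw [e3]
  exact (abs_add_le _ _).trans (add_le_add e4 e5)

lemma av_Pit_empty {p : α → ℝ} (hs : ∑ i, p i = 1) (u : ℕ) (φ : Perm α → ℝ) (g : Perm α) :
    av (Pit p u φ) ∅ g = av φ ∅ 1 := by
  induction u generalizing g with
  | zero => exact av_congr fun _ hc => absurd hc (Finset.notMem_empty _)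
  | succ u ih =>
    rw [av_Pit_succ]
    simp only [ih]
    rw [← Finset.sum_mul, sum_wt, hs]; ring

/-- revealing the cards started in `S` -/
lemma lam_zero [Nonempty α] {p : α → ℝ} {S : Finset α} {b m η : ℝ} (h : Setup p S b m η)
    {G0 : ℕ} (hG : G0 * b ≤ η) (hG2 : 2 * G0 ≤ Fintype.card α) {φ : Perm α → ℝ}
    (hφ : ∀ X, |φ X| ≤ 1) {t : ℕ} (hT : 96 * b ^ 2 * (∑ z ∈ S, p z) * (t : ℝ) ^ 2 ≤ 1)
    (hS : S.card ≤ G0) :
    |av (Pit p t φ) S 1 - av φ ∅ 1| ≤ 2 * ∑ x ∈ S, BB p S b m η t x := by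
  have key : ∀ Γ : Finset α, Γ ⊆ S →
      |av (Pit p t φ) Γ 1 - av φ ∅ 1| ≤ 2 * ∑ x ∈ Γ, BB p S b m η t x := by
    intro Γ
    induction Γ using Finset.induction_on with
    | empty =>
      intro _
      rw [av_Pit_empty h.sum, sub_self, abs_zero]
      simp
    | insert c Γ hc ih =>
      intro hsub
      have h1 := ih ((Finset.subset_insert c Γ).trans hsub)
      have hcard : Γ.card ≤ G0 := (Finset.card_le_card ((Finset.subset_insert c Γ).trans hsub)).trans hS
      have hΓc : (Γ.card : ℝ) * b ≤ η := by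
        have : (Γ.card : ℝ) ≤ G0 := by exact_mod_cast hcard
        exact (mul_le_mul_of_nonneg_right this h.b_nonneg).trans hG
      have h2 := fwd_av h hΓc (by omega) hc hφ t hT 1
      rw [Finset.sum_insert hc]
      have h3 : av (Pit p t φ) (insert c Γ) 1 - av φ ∅ 1 =
          (av (Pit p t φ) (insert c Γ) 1 - av (Pit p t φ) Γ 1) +
          (av (Pit p t φ) Γ 1 - av φ ∅ 1) := by ring
      rw [h3]
      refine (abs_add_le _ _).trans ?_
      simp only [Perm.one_apply] at h2
      linarith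
  exact key S le_rfl

/-- The hybrid bound: everything except the bulk. -/
theorem hybrid [Nonempty α] {p : α → ℝ} {S : Finset α} {b m η : ℝ} (h : Setup p S b m η)
    {G0 J0 : ℕ} (hG : G0 * b ≤ η) (hG2 : 2 * G0 ≤ Fintype.card α) {φ : Perm α → ℝ}
    (hφ : ∀ X, |φ X| ≤ 1) (hm1 : 2 * m ≤ 1)
    {t : ℕ} (hT : 96 * b ^ 2 * (∑ z ∈ S, p z) * (t : ℝ) ^ 2 ≤ 1)
    (hS : S.card ≤ G0) {ε : ℝ} (hε : 0 ≤ ε)
    (hbulk : ∀ w, w.length = t → Good S G0 J0 w →
      |ci p (vis S w) w φ - av φ (vis S w) (Xw w)| ≤ ε) :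
    |Ew p t (fun w => φ (Xw w)) - av φ ∅ 1| ≤
      2 * (1 - Ew p t (gd S G0 J0)) + ε + 2 * ∑ x ∈ S, BB p S b m η t x +
      8 * ∑ s ∈ Finset.range t, (1 - (1 - η) * (2 * m)) ^ (s - J0) *
        ∑ x ∈ S, p x * BB p S b m η (t - (s + 1)) x := by
  -- telescoping
  have htel : |lam p S G0 J0 t φ t - lam p S G0 J0 t φ 0| ≤
      (1 - Ew p t (gd S G0 J0)) +
      8 * ∑ s ∈ Finset.range t, (1 - (1 - η) * (2 * m)) ^ (s - J0) *
        ∑ x ∈ S, p x * BB p S b m η (t - (s + 1)) x := by
    have h1 : lam p S G0 J0 t φ t - lam p S G0 J0 t φ 0 =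
        ∑ s ∈ Finset.range t, (lam p S G0 J0 t φ (s + 1) - lam p S G0 J0 t φ s) :=
      (Finset.sum_range_sub _ _).symm
    rw [h1]
    calc |∑ s ∈ Finset.range t, (lam p S G0 J0 t φ (s + 1) - lam p S G0 J0 t φ s)|
        ≤ ∑ s ∈ Finset.range t, ((Ew p s (gd S G0 J0) - Ew p (s + 1) (gd S G0 J0)) +
          8 * (1 - (1 - η) * (2 * m)) ^ (s - J0) *
            ∑ x ∈ S, p x * BB p S b m η (t - (s + 1)) x) := by
          refine (Finset.abs_sum_le_sum_abs _ _).trans (Finset.sum_le_sum fun s hs => ?_)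
          exact lam_step h hG hG2 hφ hm1 (Finset.mem_range.1 hs) hT
      _ = (Ew p 0 (gd S G0 J0) - Ew p t (gd S G0 J0)) +
          8 * ∑ s ∈ Finset.range t, (1 - (1 - η) * (2 * m)) ^ (s - J0) *
            ∑ x ∈ S, p x * BB p S b m η (t - (s + 1)) x := by
          rw [Finset.sum_add_distrib, Finset.sum_range_sub', Finset.mul_sum]
          congr 1
          exact Finset.sum_congr rfl fun s _ => by ring
      _ ≤ _ := by
          have : Ew p 0 (gd S G0 J0) ≤ 1 := gd_le_one S G0 J0 []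
          linarith
  have h0 : lam p S G0 J0 t φ 0 = av (Pit p t φ) S 1 := by
    rw [lam, Ew_zero]
    have : gd S G0 J0 ([] : List (α × α)) = 1 := by
      rw [gd, if_pos]
      exact ⟨hS, by simp [mvs]⟩
    rw [this, one_mul]
    rfl
  have hz := lam_zero h hG hG2 hφ hT hS
  -- the final comparison
  have hfin : |Ew p t (fun w => φ (Xw w)) - lam p S G0 J0 t φ t| ≤
      (1 - Ew p t (gd S G0 J0)) + ε := by
    have h2 : lam p S G0 J0 t φ t = Ew p t (fun w => gd S G0 J0 w * av φ (vis S w) (Xw w)) := by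
      rw [lam, Nat.sub_self]; rfl
    have h3 : Ew p t (fun w => gd S G0 J0 w * φ (Xw w)) =
        Ew p t (fun w => gd S G0 J0 w * ci p (vis S w) w φ) := by
      have h4 : ∀ w, gd S G0 J0 w * φ (Xw w) =
          ∑ Γ : Finset α, (if vis S w = Γ ∧ Good S G0 J0 w then 1 else 0) * φ (Xw w) := by
        intro w
        rw [Finset.sum_eq_single (vis S w)]
        · unfold gd
          congr 1
          exact if_congr ⟨fun hh => ⟨rfl, hh⟩, fun hh => hh.2⟩ rfl rfl
        · intro Γ _ hΓ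
          rw [if_neg (fun hh => hΓ hh.1.symm), zero_mul]
        · simp
      have h5 : ∀ w, gd S G0 J0 w * ci p (vis S w) w φ =
          ∑ Γ : Finset α, (if vis S w = Γ ∧ Good S G0 J0 w then 1 else 0) * ci p Γ w φ := by
        intro w
        rw [Finset.sum_eq_single (vis S w)]
        · unfold gd
          congr 1
          exact if_congr ⟨fun hh => ⟨rfl, hh⟩, fun hh => hh.2⟩ rfl rfl
        · intro Γ _ hΓ
          rw [if_neg (fun hh => hΓ hh.1.symm), zero_mul]
        · simp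
      rw [Ew_congr p fun w _ => h4 w, Ew_congr p fun w _ => h5 w, Ew_fsum, Ew_fsum]
      refine Finset.sum_congr rfl fun Γ _ => ?_
      refine Ew_cond h.pos Γ t _ ?_ φ
      intro w w' hww
      refine if_congr ?_ rfl rfl
      have haux : ∀ w w', Same Γ w w' → (vis S w = Γ ∧ Good S G0 J0 w) →
        (vis S w' = Γ ∧ Good S G0 J0 w') := by
        rintro w w' hww ⟨h1, h2⟩
        have h4 : vis S w' = Γ := by rw [← hww.vis_eq h1.subset, h1]
        refine ⟨h4, ?_⟩
        unfold Good at h2 ⊢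
        rw [h4, ← hww.mvs_eq]
        rwa [h1] at h2
      refine ⟨haux w w' hww, haux w' w ?_⟩
      clear haux
      induction w generalizing w' with
      | nil =>
        cases w' with
        | nil => trivial
        | cons a w' => exact hww.elim
      | cons a w ih =>
        cases w' with
        | nil => exact hww.elim
        | cons a' w' => exact ⟨ih w' hww.1, fun c hc => (hww.2 c hc).symm⟩
    have h6 : Ew p t (fun w => φ (Xw w)) - lam p S G0 J0 t φ t =
        Ew p t (fun w => (1 - gd S G0 J0 w) * φ (Xw w)) +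
        Ew p t (fun w => gd S G0 J0 w * (ci p (vis S w) w φ - av φ (vis S w) (Xw w))) := by
      have h7 : Ew p t (fun w => gd S G0 J0 w * (ci p (vis S w) w φ - av φ (vis S w) (Xw w))) =
          Ew p t (fun w => gd S G0 J0 w * φ (Xw w)) - lam p S G0 J0 t φ t := by
        rw [h3, h2, ← Ew_sub]
        exact Ew_congr p fun w _ => by ring
      have h8 : Ew p t (fun w => (1 - gd S G0 J0 w) * φ (Xw w)) =
          Ew p t (fun w => φ (Xw w)) - Ew p t (fun w => gd S G0 J0 w * φ (Xw w)) := by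
        rw [← Ew_sub]
        exact Ew_congr p fun w _ => by ring
      rw [h7, h8]; ring
    rw [h6]
    refine (abs_add_le _ _).trans (add_le_add ?_ ?_)
    · refine (Ew_abs_le h.nonneg t _).trans ?_
      have h9 : 1 - Ew p t (gd S G0 J0) = Ew p t (fun w => 1 - gd S G0 J0 w) := by
        rw [Ew_sub, Ew_const h.sum]
      rw [h9]
      refine Ew_mono h.nonneg fun w _ => ?_
      have h10 := gd_le_one S G0 J0 w
      rw [abs_mul, abs_of_nonneg (by linarith : 0 ≤ 1 - gd S G0 J0 w)]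
      have := hφ (Xw w)
      nlinarith
    · refine (Ew_abs_le h.nonneg t _).trans ?_
      rw [← Ew_const h.sum t ε]
      refine Ew_mono h.nonneg fun w hw => ?_
      rw [abs_mul, abs_of_nonneg (gd_nonneg S G0 J0 w)]
      unfold gd
      by_cases hg : Good S G0 J0 w
      · rw [if_pos hg, one_mul]; exact hbulk w hw hg
      · rw [if_neg hg, zero_mul]; exact hε
  have hdec : Ew p t (fun w => φ (Xw w)) - av φ ∅ 1 =
      (Ew p t (fun w => φ (Xw w)) - lam p S G0 J0 t φ t) +
      (lam p S G0 J0 t φ t - lam p S G0 J0 t φ 0) + (av (Pit p t φ) S 1 - av φ ∅ 1) := by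
    rw [h0]; ring
  rw [hdec]
  have h11 := abs_add_le ((Ew p t (fun w => φ (Xw w)) - lam p S G0 J0 t φ t) +
      (lam p S G0 J0 t φ t - lam p S G0 J0 t φ 0)) (av (Pit p t φ) S 1 - av φ ∅ 1)
  have h12 := abs_add_le (Ew p t (fun w => φ (Xw w)) - lam p S G0 J0 t φ t)
      (lam p S G0 J0 t φ t - lam p S G0 J0 t φ 0)
  linarith

end Pool.Agent.Lib.MP_8c2010_pr
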