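import Pool.Agent.Lib.MP_8c2010_pr.Reg

set_option autoImplicit false
set_option linter.unusedSectionVars false

/-! # The `L²` bound for products of operators in the regular representation -/

namespace Pool.Agent.Lib.MP_8c2010_pr

open Equiv Finset

variable {β : Type*} [Fintype β] [DecidableEq β]

/-- constant function one -/
noncomputable def one1 (β : Type*) [Fintype β] [DecidableEq β] : EE β := WithLp.toLp 2 (fun _ => 1)

/-- the sign function -/
noncomputable def sg1 (β : Type*) [Fintype β] [DecidableEq β] : EE β :=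
  WithLp.toLp 2 (fun h => ((Perm.sign h : ℤ) : ℝ))

lemma one1_apply (h : Perm β) : one1 β h = 1 := rfl
lemma sg1_apply (h : Perm β) : sg1 β h = ((Perm.sign h : ℤ) : ℝ) := rfl

lemma Us_one1 : Us (one1 β) = sg1 β := by
  ext h; rw [Us_apply, one1_apply, sg1_apply, mul_one]

lemma inv_one1 (A : Finset β) : one1 β ∈ Inv (Lr (β := β)) A := by
  intro a _ b _
  ext h
  rfl

/-- vectors orthogonal to constants and signs are in `WW 1` -/
lemma mem_WW_one {f : EE β} (h1 : inner ℝ (one1 β) f = 0) (h2 : inner ℝ (sg1 β) f = 0) :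
    f ∈ WW β 1 := by
  have key : ∀ g : EE β, inner ℝ (one1 β) g = 0 → g ∈ Low (Lr (β := β)) (Fintype.card β - 1) := by
    intro g hg A hA w hw
    have hAu : A = Finset.univ := by
      apply Finset.eq_univ_of_card
      have := Finset.card_le_univ A
      omega
    have hwc : ∀ h : Perm β, w h = w 1 := by
      intro h
      have := inv_of_fix hw h (fun x hx => absurd (hAu ▸ Finset.mem_univ x) hx) 1
      rwa [mul_one] at this
    rw [inner_EE] at hg ⊢
    simp only [one1_apply, one_mul] at hg
    rw [Finset.sum_congr rfl fun h _ => by rw [hwc h], ← Finset.mul_sum, hg, mul_zero]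
  refine mem_WW.2 ⟨key f h1, key (Us f) ?_⟩
  rw [← inner_Us, Us_one1]
  exact h2

lemma one1_perp {a : ℕ} (ha : 1 ≤ a) [Nonempty β] {f : EE β} (hf : f ∈ WW β a) :
    inner ℝ (one1 β) f = 0 := by
  obtain ⟨h1, _⟩ := mem_WW.1 hf
  refine h1 Finset.univ ?_ (one1 β) (inv_one1 _)
  rw [Finset.card_univ]
  have : 0 < Fintype.card β := Fintype.card_pos
  omega

lemma sg1_perp {a : ℕ} (ha : 1 ≤ a) [Nonempty β] {f : EE β} (hf : f ∈ WW β a) :
    inner ℝ (sg1 β) f = 0 := by
  obtain ⟨_, h1⟩ := mem_WW.1 hf
  rw [← Us_one1, inner_Us]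
  refine h1 Finset.univ ?_ (one1 β) (inv_one1 _)
  rw [Finset.card_univ]
  have : 0 < Fintype.card β := Fintype.card_pos
  omega

lemma sum_sign [Nontrivial β] : ∑ h : Perm β, ((Perm.sign h : ℤ) : ℝ) = 0 := by
  obtain ⟨x, y, hxy⟩ := exists_pair_ne β
  have h1 : ∑ h : Perm β, ((Perm.sign h : ℤ) : ℝ) =
      ∑ h : Perm β, ((Perm.sign (swap x y * h) : ℤ) : ℝ) :=
    (Fintype.sum_equiv (Equiv.mulLeft (swap x y)) _ _ (fun h => rfl)).symm
  have h2 : ∀ h : Perm β, ((Perm.sign (swap x y * h) : ℤ) : ℝ) = -((Perm.sign h : ℤ) : ℝ) := by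
    intro h
    rw [Perm.sign_mul, Perm.sign_swap hxy]
    simp
  rw [Finset.sum_congr rfl fun h _ => h2 h, Finset.sum_neg_distrib] at h1
  linarith

/-- The abstract `L²` bound. -/
theorem L2main [Nontrivial β] {M : Module.End ℝ (EE β)}
    (hM : ∀ a f, (WW β a).starProjection (M f) = M ((WW β a).starProjection f))
    {c : ℕ → ℝ}
    (hc : ∀ a, 1 ≤ a → a < Fintype.card β → ∀ f ∈ WW β a, ‖M f‖ ≤ c a * ‖f‖)
    (h1 : M (one1 β) = one1 β) {s : ℝ} (hs : M (sg1 β) = s • sg1 β) :
    ∑ h, |M (dl 1) h - 1 / (Fintype.card (Perm β) : ℝ)| ≤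
      Real.sqrt (s ^ 2 + ∑ a ∈ Finset.Ico 1 (Fintype.card β),
        2 * ((Fintype.card β).choose a * (Fintype.card β).descFactorial a : ℝ) * (c a) ^ 2) := by
  set N : ℝ := (Fintype.card (Perm β) : ℝ) with hN
  have hNpos : 0 < N := by rw [hN]; exact_mod_cast Fintype.card_pos
  set n := Fintype.card β with hn
  have hn2 : 2 ≤ n := Fintype.one_lt_card
  -- the centred delta
  set δ : EE β := dl 1 - (1 / N) • one1 β - (1 / N) • sg1 β with hδ
  have hip1 : inner ℝ (one1 β) (dl (1 : Perm β)) = 1 := by
    rw [inner_EE]; simp [one1_apply, dl_apply]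
  have hip2 : inner ℝ (sg1 β) (dl (1 : Perm β)) = 1 := by
    rw [inner_EE]; simp [sg1_apply, dl_apply]
  have hip3 : inner ℝ (one1 β) (sg1 β) = 0 := by
    rw [inner_EE]; simp only [one1_apply, sg1_apply, one_mul]; exact sum_sign
  have hip4 : inner ℝ (one1 β) (one1 β) = N := by
    rw [inner_EE]; simp [one1_apply, hN]
  have hip5 : inner ℝ (sg1 β) (sg1 β) = N := by
    rw [inner_EE]
    simp only [sg1_apply, sign_mul_self]
    simp [hN]
  have hδ1 : inner ℝ (one1 β) δ = 0 := by
    rw [hδ, inner_sub_right, inner_sub_right, inner_smul_right, inner_smul_right, hip1, hip3, hip4]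
    field_simp; ring
  have hδ2 : inner ℝ (sg1 β) δ = 0 := by
    rw [hδ, inner_sub_right, inner_sub_right, inner_smul_right, inner_smul_right, hip2, hip5,
      real_inner_comm, hip3]
    field_simp; ring
  have hδW : δ ∈ WW β 1 := mem_WW_one hδ1 hδ2
  -- projections of δ and dl agree
  have hproj : ∀ a, 1 ≤ a → (WW β a).starProjection δ = (WW β a).starProjection (dl 1) := by
    intro a ha
    have e1 : (WW β a).starProjection (one1 β) = 0 := by
      rw [Submodule.starProjection_apply_eq_zero_iff, Submodule.mem_orthogonal]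
      intro f hf
      rw [real_inner_comm]; exact one1_perp ha hf
    have e2 : (WW β a).starProjection (sg1 β) = 0 := by
      rw [Submodule.starProjection_apply_eq_zero_iff, Submodule.mem_orthogonal]
      intro f hf
      rw [real_inner_comm]; exact sg1_perp ha hf
    rw [hδ, map_sub, map_sub, map_smul, map_smul, e1, e2]
    simp
  have hbot : (WW β n).starProjection (M δ) = 0 := by
    have : (WW β n).starProjection (M δ) ∈ WW β n := Submodule.starProjection_apply_mem _ _
    rwa [hn, WW_top_eq_bot, Submodule.mem_bot, ← WW_top_eq_bot] at this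
  -- one level
  have hlevel : ∀ a ∈ Finset.Ico 1 n,
      ‖(WW β a).starProjection (M δ)‖ ^ 2 - ‖(WW β (a + 1)).starProjection (M δ)‖ ^ 2 ≤
        (2 * (n.choose a * n.descFactorial a : ℝ) * (c a) ^ 2) / N := by
    intro a ha
    obtain ⟨ha1, ha2⟩ := Finset.mem_Ico.1 ha
    set g := M δ with hg
    set x := (WW β a).starProjection g with hx
    set y := (WW β (a + 1)).starProjection g with hy
    have hanti : WW β (a + 1) ≤ WW β a := WW_anti (by omega)
    have hyx : (WW β (a + 1)).starProjection x = y := by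
      have := Submodule.starProjection_comp_starProjection_of_le hanti
      have h2 := congrArg (fun T => T g) this
      simpa using h2
    -- Pythagoras
    have e1 : ‖x‖ ^ 2 - ‖y‖ ^ 2 = ‖x - y‖ ^ 2 := by
      have h3 : inner ℝ y (x - y) = 0 := by
        have := (WW β (a + 1)).starProjection_inner_eq_zero x y
          (Submodule.starProjection_apply_mem _ _)
        rw [hyx] at this
        rw [real_inner_comm]; exact this
      rw [← real_inner_self_eq_norm_sq, ← real_inner_self_eq_norm_sq,
        ← real_inner_self_eq_norm_sq]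
      rw [inner_sub_right, sub_eq_zero] at h3
      rw [inner_sub_left, inner_sub_right, inner_sub_right, real_inner_comm y x, h3]
      ring
    have e2 : x - y = M ((WW β a).starProjection δ - (WW β (a + 1)).starProjection δ) := by
      rw [map_sub, ← hM, ← hM]
    have e3 : (WW β a).starProjection δ - (WW β (a + 1)).starProjection δ ∈ WW β a :=
      Submodule.sub_mem _ (Submodule.starProjection_apply_mem _ _)
        (hanti (Submodule.starProjection_apply_mem _ _))
    have e4 : ‖(WW β a).starProjection δ - (WW β (a + 1)).starProjection δ‖ ^ 2 ≤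
        2 * (n.choose a * n.descFactorial a : ℝ) / N := by
      rw [hproj a ha1, hproj (a + 1) (by omega)]
      have h4 : (WW β a).starProjection (dl 1) - (WW β (a + 1)).starProjection (dl 1) =
          (WW β a).starProjection (dl 1 - (WW β (a + 1)).starProjection (dl (1 : Perm β))) := by
        rw [map_sub]
        congr 1
        exact (Submodule.starProjection_eq_self_iff.2
          (hanti (Submodule.starProjection_apply_mem _ _))).symm
      rw [h4]
      have h5 := Submodule.norm_starProjection_apply_le (WW β a)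
        (dl 1 - (WW β (a + 1)).starProjection (dl (1 : Perm β)))
      have h6 : ‖dl (1 : Perm β) - (WW β (a + 1)).starProjection (dl 1)‖ ^ 2 ≤
          2 * (n.choose a * n.descFactorial a : ℝ) / N := by
        rw [le_div_iff₀ hNpos, mul_comm, hN, dist_dl (fun f hf k => Rr_mem_WW hf k)]
        exact_mod_cast finrank_WW_perp (β := β) (a := a) (by omega)
      refine le_trans ?_ h6
      exact pow_le_pow_left₀ (norm_nonneg _) h5 2
    rw [e1, e2]
    have h7 := hc a ha1 ha2 _ e3
    calc ‖M ((WW β a).starProjection δ - (WW β (a + 1)).starProjection δ)‖ ^ 2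
        ≤ (c a * ‖(WW β a).starProjection δ - (WW β (a + 1)).starProjection δ‖) ^ 2 :=
          pow_le_pow_left₀ (norm_nonneg _) h7 2
      _ = (c a) ^ 2 * ‖(WW β a).starProjection δ - (WW β (a + 1)).starProjection δ‖ ^ 2 := by ring
      _ ≤ (c a) ^ 2 * (2 * (n.choose a * n.descFactorial a : ℝ) / N) :=
          mul_le_mul_of_nonneg_left e4 (sq_nonneg _)
      _ = _ := by ring
  have hMδW : M δ ∈ WW β 1 := by
    have := hM 1 δ
    rw [Submodule.starProjection_eq_self_iff.2 hδW] at this
    rw [← this]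
    exact Submodule.starProjection_apply_mem _ _
  have hMδ : ‖M δ‖ ^ 2 ≤ (∑ a ∈ Finset.Ico 1 n,
      2 * (n.choose a * n.descFactorial a : ℝ) * (c a) ^ 2) / N := by
    have e1 : ‖M δ‖ ^ 2 = ∑ a ∈ Finset.Ico 1 n,
        (‖(WW β a).starProjection (M δ)‖ ^ 2 - ‖(WW β (a + 1)).starProjection (M δ)‖ ^ 2) := by
      rw [Finset.sum_Ico_eq_sum_range]
      have h3 := Finset.sum_range_sub' (fun k => ‖(WW β (1 + k)).starProjection (M δ)‖ ^ 2) (n - 1)
      have h4 : ∀ k, 1 + k + 1 = 1 + (k + 1) := fun k => by omega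
      simp only [h4]
      rw [h3]
      have h5 : 1 + (n - 1) = n := by omega
      rw [h5, hbot, add_zero, Submodule.starProjection_eq_self_iff.2 hMδW]
      simp
    rw [e1, Finset.sum_div]
    exact Finset.sum_le_sum hlevel
  -- the final computation
  have hdec : ∀ h, M (dl 1) h - 1 / N = ((s / N) • sg1 β + M δ) h := by
    intro h
    have e1 : M (dl 1) = (1 / N) • one1 β + ((s / N) • sg1 β + M δ) := by
      have : (dl 1 : EE β) = δ + (1 / N) • one1 β + (1 / N) • sg1 β := by rw [hδ]; abel
      conv_lhs => rw [this]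
      rw [map_add, map_add, map_smul, map_smul, h1, hs, smul_smul]
      have : 1 / N * s = s / N := by ring
      rw [this]
      abel
    rw [e1]
    simp only [PiLp.add_apply, PiLp.smul_apply, one1_apply, smul_eq_mul, mul_one]
    ring
  have hperp : inner ℝ (sg1 β) (M δ) = 0 := sg1_perp le_rfl hMδW
  have hnorm : ‖(s / N) • sg1 β + M δ‖ ^ 2 = s ^ 2 / N + ‖M δ‖ ^ 2 := by
    rw [← real_inner_self_eq_norm_sq, ← real_inner_self_eq_norm_sq, inner_add_left,
      inner_add_right, inner_add_right, inner_smul_left, inner_smul_left, inner_smul_right,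
      inner_smul_right, real_inner_comm (sg1 β) (M δ), hperp, hip5]
    simp only [conj_trivial]
    field_simp
    ring
  have hsq : (∑ h, |M (dl 1) h - 1 / N|) ^ 2 ≤ N * ‖(s / N) • sg1 β + M δ‖ ^ 2 := by
    have e1 : ‖(s / N) • sg1 β + M δ‖ ^ 2 = ∑ h, |M (dl 1) h - 1 / N| ^ 2 := by
      rw [EuclideanSpace.norm_sq_eq]
      refine Finset.sum_congr rfl fun h _ => ?_
      rw [hdec h, Real.norm_eq_abs]
    rw [e1]
    have := sq_sum_le_card_mul_sum_sq (s := (Finset.univ : Finset (Perm β)))
      (f := fun h => |M (dl 1) h - 1 / N|)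
    rw [Finset.card_univ] at this
    exact this
  apply Real.le_sqrt_of_sq_le
  refine hsq.trans ?_
  rw [hnorm, mul_add]
  have e2 := mul_le_mul_of_nonneg_left hMδ hNpos.le
  have e3 : N * ((∑ a ∈ Finset.Ico 1 n,
      2 * (n.choose a * n.descFactorial a : ℝ) * (c a) ^ 2) / N) = ∑ a ∈ Finset.Ico 1 n,
      2 * (n.choose a * n.descFactorial a : ℝ) * (c a) ^ 2 := by field_simp
  have e4 : N * (s ^ 2 / N) = s ^ 2 := by field_simp
  rw [e3] at e2
  rw [e4]
  linarith

end Pool.Agent.Lib.MP_8c2010_pr
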