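import Pool.Agent.Lib.MP_8c2010_pr.Hybrid

set_option autoImplicit false
set_option linter.unusedSectionVars false

/-! # First moment estimates for the visiting cards -/

namespace Pool.Agent.Lib.MP_8c2010_pr

open Equiv Finset

variable {α : Type*} [Fintype α] [DecidableEq α]

/-- the step moves the site `x` -/
def dM (x : α) (a : α × α) : ℕ := if swap a.1 a.2 x = x then 0 else 1

/-- the step moves the site `x` into `S` -/
def dN (S : Finset α) (x : α) (a : α × α) : ℕ :=
  if swap a.1 a.2 x ≠ x ∧ swap a.1 a.2 x ∈ S then 1 else 0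

/-- number of moves of the card `c` -/
def Mc (c : α) : List (α × α) → ℕ
  | [] => 0
  | a :: w => Mc c w + dM (Xw w c) a

/-- number of arrivals of the card `c` in `S` -/
def Nc (S : Finset α) (c : α) : List (α × α) → ℕ
  | [] => 0
  | a :: w => Nc S c w + dN S (Xw w c) a

lemma sum_dM_le {p : α → ℝ} (hp : ∀ i, 0 ≤ p i) (hs : ∑ i, p i = 1) {b : ℝ}
    (hb : ∀ i, p i ≤ b) (x : α) : ∑ a : α × α, wt p a * (dM x a : ℝ) ≤ 2 * b := by
  have h1 : ∀ a : α × α, wt p a * (dM x a : ℝ) ≤
      wt p a * ((if a.1 = x then 1 else 0) + (if a.2 = x then 1 else 0)) := by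
    intro a
    refine mul_le_mul_of_nonneg_left ?_ (wt_nonneg hp a)
    unfold dM
    by_cases h1 : a.1 = x
    · rw [if_pos h1]; split_ifs <;> norm_num
    · by_cases h2 : a.2 = x
      · rw [if_pos h2]; split_ifs <;> norm_num
      · rw [swap_apply_of_ne_of_ne (Ne.symm h1) (Ne.symm h2), if_pos rfl, if_neg h1, if_neg h2]
        norm_num
  refine (Finset.sum_le_sum fun a _ => h1 a).trans ?_
  rw [Fintype.sum_prod_type]
  simp only [wt, mul_add, mul_ite, mul_one, mul_zero, Finset.sum_add_distrib]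
  have h2 : ∑ i, ∑ j, (if i = x then p i * p j else 0) = p x := by
    have : ∀ i, ∑ j, (if i = x then p i * p j else 0) = if i = x then p i else 0 := by
      intro i
      split_ifs
      · rw [← Finset.mul_sum, hs, mul_one]
      · simp
    rw [Finset.sum_congr rfl fun i _ => this i]
    simp
  have h3 : ∑ i, ∑ j, (if j = x then p i * p j else 0) = p x := by
    rw [Finset.sum_comm, ← h2]
    exact Finset.sum_congr rfl fun i _ => Finset.sum_congr rfl fun j _ => by rw [mul_comm]
  rw [h2, h3]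
  have := hb x
  linarith

lemma sum_dN_le {p : α → ℝ} (hp : ∀ i, 0 ≤ p i) {b : ℝ}
    (hb : ∀ i, p i ≤ b) (S : Finset α) (x : α) :
    ∑ a : α × α, wt p a * (dN S x a : ℝ) ≤ 2 * b * ∑ z ∈ S, p z := by
  have h1 : ∀ a : α × α, wt p a * (dN S x a : ℝ) ≤
      wt p a * ((if a.1 = x ∧ a.2 ∈ S then 1 else 0) + (if a.2 = x ∧ a.1 ∈ S then 1 else 0)) := by
    intro a
    refine mul_le_mul_of_nonneg_left ?_ (wt_nonneg hp a)
    unfold dN
    by_cases hd : swap a.1 a.2 x ≠ x ∧ swap a.1 a.2 x ∈ S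
    · rw [if_pos hd]
      by_cases h1 : a.1 = x
      · have h2 : a.2 ∈ S := by
          have := hd.2
          rwa [← h1, swap_apply_left] at this
        rw [if_pos ⟨h1, h2⟩]; split_ifs <;> norm_num
      · by_cases h2 : a.2 = x
        · have h3 : a.1 ∈ S := by
            have := hd.2
            rwa [← h2, swap_apply_right] at this
          have h4 : (if a.2 = x ∧ a.1 ∈ S then (1 : ℝ) else 0) = 1 := if_pos ⟨h2, h3⟩
          rw [h4]; split_ifs <;> norm_num
        · exact absurd (swap_apply_of_ne_of_ne (Ne.symm h1) (Ne.symm h2)) hd.1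
    · rw [if_neg hd]; split_ifs <;> norm_num
  refine (Finset.sum_le_sum fun a _ => h1 a).trans ?_
  rw [Fintype.sum_prod_type]
  simp only [wt, mul_add, mul_ite, mul_one, mul_zero, Finset.sum_add_distrib]
  have h2 : ∑ i, ∑ j, (if i = x ∧ j ∈ S then p i * p j else 0) = p x * ∑ z ∈ S, p z := by
    have : ∀ i, ∑ j, (if i = x ∧ j ∈ S then p i * p j else 0) =
        if i = x then p i * ∑ z ∈ S, p z else 0 := by
      intro i
      by_cases hi : i = x
      · simp only [hi, true_and, if_true]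
        rw [← Finset.sum_filter, Finset.mul_sum, Finset.filter_mem_eq_inter, Finset.univ_inter]
      · simp [hi]
    rw [Finset.sum_congr rfl fun i _ => this i]
    simp
  have h3 : ∑ i, ∑ j, (if j = x ∧ i ∈ S then p i * p j else 0) = p x * ∑ z ∈ S, p z := by
    rw [Finset.sum_comm, ← h2]
    exact Finset.sum_congr rfl fun i _ => Finset.sum_congr rfl fun j _ => by rw [mul_comm]
  rw [h2, h3]
  have h4 : 0 ≤ ∑ z ∈ S, p z := Finset.sum_nonneg fun z _ => hp z
  have := mul_le_mul_of_nonneg_right (hb x) h4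
  linarith

lemma Ew_Mc_le {p : α → ℝ} (hp : ∀ i, 0 ≤ p i) (hs : ∑ i, p i = 1) {b : ℝ}
    (hb : ∀ i, p i ≤ b) (c : α) (t : ℕ) : Ew p t (fun w => (Mc c w : ℝ)) ≤ 2 * b * t := by
  induction t with
  | zero => simp [Ew_zero, Mc]
  | succ t ih =>
    rw [Ew_succ']
    have h1 : Ew p t (fun w => ∑ a : α × α, wt p a * (Mc c (a :: w) : ℝ)) ≤
        Ew p t (fun w => (Mc c w : ℝ) + 2 * b) := by
      refine Ew_mono hp fun w _ => ?_
      simp only [Mc, Nat.cast_add, mul_add, Finset.sum_add_distrib]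
      rw [← Finset.sum_mul, sum_wt, hs]
      have := sum_dM_le hp hs hb (Xw w c)
      linarith
    rw [Ew_add, Ew_const hs] at h1
    push_cast
    linarith

lemma Ew_Nc_le {p : α → ℝ} (hp : ∀ i, 0 ≤ p i) (hs : ∑ i, p i = 1) {b : ℝ}
    (hb : ∀ i, p i ≤ b) (S : Finset α) (c : α) (t : ℕ) :
    Ew p t (fun w => (Nc S c w : ℝ)) ≤ 2 * b * (∑ z ∈ S, p z) * t := by
  induction t with
  | zero => simp [Ew_zero, Nc]
  | succ t ih =>
    rw [Ew_succ']
    have h1 : Ew p t (fun w => ∑ a : α × α, wt p a * (Nc S c (a :: w) : ℝ)) ≤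
        Ew p t (fun w => (Nc S c w : ℝ) + 2 * b * ∑ z ∈ S, p z) := by
      refine Ew_mono hp fun w _ => ?_
      simp only [Nc, Nat.cast_add, mul_add, Finset.sum_add_distrib]
      rw [← Finset.sum_mul, sum_wt, hs]
      have := sum_dN_le hp hb S (Xw w c)
      linarith
    rw [Ew_add, Ew_const hs] at h1
    push_cast
    linarith

lemma Ew_NM_le {p : α → ℝ} (hp : ∀ i, 0 ≤ p i) (hs : ∑ i, p i = 1) {b : ℝ} (hb0 : 0 ≤ b)
    (hb : ∀ i, p i ≤ b) (S : Finset α) (c : α) (t : ℕ) :
    Ew p t (fun w => (Nc S c w : ℝ) * Mc c w) ≤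
      (2 * b * ∑ z ∈ S, p z) * (2 * b) * (t : ℝ) ^ 2 + (2 * b * ∑ z ∈ S, p z) * t := by
  induction t with
  | zero => simp [Ew_zero, Nc]
  | succ t ih =>
    rw [Ew_succ']
    have hpS : 0 ≤ ∑ z ∈ S, p z := Finset.sum_nonneg fun z _ => hp z
    have h1 : Ew p t (fun w => ∑ a : α × α, wt p a * ((Nc S c (a :: w) : ℝ) * Mc c (a :: w))) ≤
        Ew p t (fun w => ((Nc S c w : ℝ) * Mc c w + (2 * b) * (Nc S c w : ℝ)) +
          ((2 * b * ∑ z ∈ S, p z) * (Mc c w : ℝ) + 2 * b * ∑ z ∈ S, p z)) := by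
      refine Ew_mono hp fun w _ => ?_
      have hd : ∀ a, (dN S (Xw w c) a : ℝ) * (dM (Xw w c) a : ℝ) = dN S (Xw w c) a := by
        intro a
        unfold dN dM
        by_cases h1 : swap a.1 a.2 (Xw w c) = Xw w c
        · rw [if_pos h1, if_neg (fun hh => hh.1 h1)]; norm_num
        · rw [if_neg h1]; norm_num
      have h2 : ∑ a : α × α, wt p a * ((Nc S c (a :: w) : ℝ) * Mc c (a :: w)) =
          (Nc S c w : ℝ) * Mc c w + (Nc S c w : ℝ) * ∑ a : α × α, wt p a * (dM (Xw w c) a : ℝ) +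
          (Mc c w : ℝ) * ∑ a : α × α, wt p a * (dN S (Xw w c) a : ℝ) +
          ∑ a : α × α, wt p a * (dN S (Xw w c) a : ℝ) := by
        have h3 : ∀ a : α × α, wt p a * ((Nc S c (a :: w) : ℝ) * Mc c (a :: w)) =
            wt p a * ((Nc S c w : ℝ) * Mc c w) +
            (Nc S c w : ℝ) * (wt p a * (dM (Xw w c) a : ℝ)) +
            (Mc c w : ℝ) * (wt p a * (dN S (Xw w c) a : ℝ)) +
            wt p a * (dN S (Xw w c) a : ℝ) := by
          intro a
          simp only [Nc, Mc, Nat.cast_add]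
          have := hd a
          linear_combination (wt p a) * this
        rw [Finset.sum_congr rfl fun a _ => h3 a]
        simp only [Finset.sum_add_distrib]
        rw [← Finset.sum_mul, sum_wt, hs, ← Finset.mul_sum, ← Finset.mul_sum]
        ring
      rw [h2]
      have h4 := sum_dM_le hp hs hb (Xw w c)
      have h5 := sum_dN_le hp hb S (Xw w c)
      have h6 : (0 : ℝ) ≤ Nc S c w := Nat.cast_nonneg _
      have h7 : (0 : ℝ) ≤ Mc c w := Nat.cast_nonneg _
      have h8 := mul_le_mul_of_nonneg_left h4 h6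
      have h9 := mul_le_mul_of_nonneg_left h5 h7
      linarith
    rw [Ew_add, Ew_add, Ew_add, Ew_const_mul, Ew_const_mul, Ew_const hs] at h1
    have h10 := Ew_Mc_le hp hs hb c t
    have h11 := Ew_Nc_le hp hs hb S c t
    have h12 := mul_le_mul_of_nonneg_left h10 (by positivity : 0 ≤ 2 * b * ∑ z ∈ S, p z)
    have h13 := mul_le_mul_of_nonneg_left h11 (by positivity : 0 ≤ 2 * b)
    push_cast
    have h14 : 0 ≤ (2 * b * ∑ z ∈ S, p z) * (2 * b) := by positivity
    nlinarith

lemma mem_vis_imp {S : Finset α} {c : α} {w : List (α × α)} (hc : c ∈ vis S w) :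
    c ∈ S ∨ 1 ≤ Nc S c w := by
  induction w with
  | nil => exact Or.inl hc
  | cons a w ih =>
    rcases Finset.mem_union.1 hc with hc | hc
    · rcases ih hc with h | h
      · exact Or.inl h
      · right; simp only [Nc]; omega
    · obtain ⟨x, hx, rfl⟩ := Finset.mem_image.1 hc
      set c := (Xw (a :: w))⁻¹ x with hcdef
      have h1 : swap a.1 a.2 (Xw w c) = x := by
        have : Xw (a :: w) c = x := by rw [hcdef]; simp
        exact this
      by_cases h2 : Xw w c = x
      · -- already there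
        have h3 : c ∈ vis S w := by
          have : c = (Xw w)⁻¹ x := by rw [eq_comm, Perm.inv_eq_iff_eq]; exact h2.symm
          rw [this]
          exact inv_mem_vis w hx
        rcases ih h3 with h | h
        · exact Or.inl h
        · right; simp only [Nc]; omega
      · right
        simp only [Nc]
        have : dN S (Xw w c) a = 1 := by
          unfold dN
          rw [if_pos]
          rw [h1]
          exact ⟨fun e => h2 e.symm, hx⟩
        omega

lemma mvs_le_sum (Γ : Finset α) (w : List (α × α)) : mvs Γ w ≤ ∑ c ∈ Γ, Mc c w := by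
  induction w with
  | nil => simp [mvs]
  | cons a w ih =>
    simp only [mvs, Mc, Finset.sum_add_distrib]
    refine add_le_add ih ?_
    split_ifs with h
    · exact Nat.zero_le _
    · push Not at h
      obtain ⟨c, hc, hne⟩ := h
      calc 1 = dM (Xw w c) a := by unfold dM; rw [if_neg hne]
        _ ≤ _ := Finset.single_le_sum (f := fun c => dM (Xw w c) a)
            (fun _ _ => Nat.zero_le _) hc

lemma card_vis_le (S : Finset α) (w : List (α × α)) :
    (vis S w).card ≤ S.card + ∑ c, Nc S c w := by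
  calc (vis S w).card = ∑ c, (if c ∈ vis S w then 1 else 0) := by simp
    _ ≤ ∑ c, ((if c ∈ S then 1 else 0) + Nc S c w) := by
        refine Finset.sum_le_sum fun c _ => ?_
        split_ifs with h1 h2 h2
        · omega
        · rcases mem_vis_imp h1 with h | h
          · exact absurd h h2
          · omega
        · omega
        · omega
    _ = _ := by rw [Finset.sum_add_distrib]; simp

lemma mvs_vis_le (S : Finset α) (w : List (α × α)) :
    mvs (vis S w) w ≤ ∑ c ∈ S, Mc c w + ∑ c, Nc S c w * Mc c w := by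
  refine (mvs_le_sum _ w).trans ?_
  calc ∑ c ∈ vis S w, Mc c w = ∑ c, (if c ∈ vis S w then Mc c w else 0) := by
        rw [Finset.sum_ite_mem, Finset.univ_inter]
    _ ≤ ∑ c, ((if c ∈ S then Mc c w else 0) + Nc S c w * Mc c w) := by
        refine Finset.sum_le_sum fun c _ => ?_
        split_ifs with h1 h2 h2
        · omega
        · rcases mem_vis_imp h1 with h | h
          · exact absurd h h2
          · have := Nat.mul_le_mul_right (Mc c w) h
            omega
        · omega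
        · omega
    _ = _ := by
        rw [Finset.sum_add_distrib, Finset.sum_ite_mem, Finset.univ_inter]

/-- the probability of a bad word -/
theorem bad_le {p : α → ℝ} {S : Finset α} {b m η : ℝ} [Nonempty α] (h : Setup p S b m η)
    {G0 J0 : ℕ} (hG : 0 < G0) (hJ : 0 < J0) (t : ℕ) :
    1 - Ew p t (gd S G0 J0) ≤
      (S.card + Fintype.card α * (2 * b * (∑ z ∈ S, p z) * t)) / G0 +
      (S.card * (2 * b * t) + Fintype.card α * ((2 * b * ∑ z ∈ S, p z) * (2 * b) * (t : ℝ) ^ 2 +
        (2 * b * ∑ z ∈ S, p z) * t)) / J0 := by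
  have hG' : (0 : ℝ) < G0 := by exact_mod_cast hG
  have hJ' : (0 : ℝ) < J0 := by exact_mod_cast hJ
  have h1 : 1 - Ew p t (gd S G0 J0) ≤
      Ew p t (fun w => ((S.card : ℝ) + ∑ c, (Nc S c w : ℝ)) * (1 / G0) +
        (∑ c ∈ S, (Mc c w : ℝ) + ∑ c, (Nc S c w : ℝ) * Mc c w) * (1 / J0)) := by
    have h0 : 1 - Ew p t (gd S G0 J0) = Ew p t (fun w => 1 - gd S G0 J0 w) := by
      rw [Ew_sub, Ew_const h.sum]
    rw [h0]
    refine Ew_mono h.nonneg fun w _ => ?_
    have e1 : ((vis S w).card : ℝ) ≤ (S.card : ℝ) + ∑ c, (Nc S c w : ℝ) := by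
      exact_mod_cast card_vis_le S w
    have e2 : (mvs (vis S w) w : ℝ) ≤ ∑ c ∈ S, (Mc c w : ℝ) + ∑ c, (Nc S c w : ℝ) * Mc c w := by
      exact_mod_cast mvs_vis_le S w
    have e1' : 0 ≤ (S.card : ℝ) + ∑ c, (Nc S c w : ℝ) := (Nat.cast_nonneg _).trans e1
    have e2' : 0 ≤ ∑ c ∈ S, (Mc c w : ℝ) + ∑ c, (Nc S c w : ℝ) * Mc c w :=
      (Nat.cast_nonneg _).trans e2
    unfold gd
    split_ifs with hg
    · rw [sub_self]; positivity
    · rw [sub_zero]
      unfold Good at hg
      rw [not_and_or] at hg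
      rcases hg with hg | hg
      · push Not at hg
        have e3 : (G0 : ℝ) ≤ (vis S w).card := by exact_mod_cast hg.le
        have e4 : 1 ≤ ((S.card : ℝ) + ∑ c, (Nc S c w : ℝ)) * (1 / G0) := by
          rw [mul_one_div, le_div_iff₀ hG']; linarith
        have e5 : 0 ≤ (∑ c ∈ S, (Mc c w : ℝ) + ∑ c, (Nc S c w : ℝ) * Mc c w) * (1 / J0) := by
          positivity
        linarith
      · push Not at hg
        have e3 : (J0 : ℝ) ≤ mvs (vis S w) w := by exact_mod_cast hg.le
        have e4 : 1 ≤ (∑ c ∈ S, (Mc c w : ℝ) + ∑ c, (Nc S c w : ℝ) * Mc c w) * (1 / J0) := by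
          rw [mul_one_div, le_div_iff₀ hJ']; linarith
        have e5 : 0 ≤ ((S.card : ℝ) + ∑ c, (Nc S c w : ℝ)) * (1 / G0) := by positivity
        linarith
  refine h1.trans ?_
  rw [Ew_add, Ew_mul_const, Ew_mul_const, Ew_add, Ew_add, Ew_const h.sum, Ew_fsum, Ew_fsum,
    Ew_fsum]
  have hb := h.b_nonneg
  have s1 : ∑ c, Ew p t (fun w => (Nc S c w : ℝ)) ≤
      Fintype.card α * (2 * b * (∑ z ∈ S, p z) * t) := by
    calc _ ≤ ∑ _c : α, 2 * b * (∑ z ∈ S, p z) * t :=
          Finset.sum_le_sum fun c _ => Ew_Nc_le h.nonneg h.sum h.le_b S c t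
      _ = _ := by rw [Finset.sum_const, Finset.card_univ, nsmul_eq_mul]
  have s2 : ∑ c ∈ S, Ew p t (fun w => (Mc c w : ℝ)) ≤ S.card * (2 * b * t) := by
    calc _ ≤ ∑ _c ∈ S, 2 * b * t :=
          Finset.sum_le_sum fun c _ => Ew_Mc_le h.nonneg h.sum h.le_b c t
      _ = _ := by rw [Finset.sum_const, nsmul_eq_mul]
  have s3 : ∑ c, Ew p t (fun w => (Nc S c w : ℝ) * Mc c w) ≤
      Fintype.card α * ((2 * b * ∑ z ∈ S, p z) * (2 * b) * (t : ℝ) ^ 2 +
        (2 * b * ∑ z ∈ S, p z) * t) := by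
    calc _ ≤ ∑ _c : α, ((2 * b * ∑ z ∈ S, p z) * (2 * b) * (t : ℝ) ^ 2 +
        (2 * b * ∑ z ∈ S, p z) * t) :=
          Finset.sum_le_sum fun c _ => Ew_NM_le h.nonneg h.sum hb h.le_b S c t
      _ = _ := by rw [Finset.sum_const, Finset.card_univ, nsmul_eq_mul]
  rw [mul_one_div, mul_one_div]
  refine add_le_add (div_le_div_of_nonneg_right ?_ hG'.le) (div_le_div_of_nonneg_right ?_ hJ'.le)
  · linarith
  · linarith

end Pool.Agent.Lib.MP_8c2010_pr
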