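import Pool.Agent.Lib.MP_8c2010_pr.Rep

set_option autoImplicit false

/-! # Numerical estimate for the level sum -/

namespace Pool.Agent.Lib.MP_8c2010_pr

open Finset

lemma lev_ge_one {n a : ℕ} : (a : ℝ) * ((n : ℝ) - a) ≤ lev n a := by
  unfold lev
  exact mul_le_mul_of_nonneg_left (le_max_left _ _) (Nat.cast_nonneg a)

lemma lev_ge_two {n a : ℕ} : (a : ℝ) * ((n : ℝ) / 2) ≤ lev n a := by
  unfold lev
  exact mul_le_mul_of_nonneg_left (le_max_right _ _) (Nat.cast_nonneg a)

/-- one term of the level sum -/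
lemma level_term {ε : ℝ} (hε : 0 < ε) {n n' a : ℕ} (hn' : n' ≤ n) (ha : 1 ≤ a)
    (han : a < n') {θ : ℝ} (hθ : 2 * (1 + ε) * Real.log n ≤ θ) :
    2 * ((n'.choose a : ℝ) * n'.descFactorial a) * Real.exp (-(θ / n' * lev n' a)) ≤
      2 * (Real.exp 1 * (2 * (1 + ε) / ε) * Real.exp (-(ε * Real.log n))) ^ a := by
  set L := Real.log n with hL
  have hnpos : (0 : ℝ) < n := by
    have : 0 < n := by omega
    exact_mod_cast this
  have hn'pos : (0 : ℝ) < n' := by
    have : 0 < n' := by omega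
    exact_mod_cast this
  have hn'n : (n' : ℝ) ≤ n := by exact_mod_cast hn'
  have hL0 : 0 ≤ L := Real.log_nonneg (by
    have : 1 ≤ n := by omega
    exact_mod_cast this)
  have hθ0 : 0 ≤ θ := le_trans (by positivity) hθ
  have ha0 : (0 : ℝ) < a := by exact_mod_cast ha
  have hfact : (0 : ℝ) < a.factorial := by exact_mod_cast a.factorial_pos
  have hchoose : (n'.choose a : ℝ) * n'.descFactorial a ≤ (n' : ℝ) ^ a * (n' : ℝ) ^ a / a.factorial := by
    have h1 : (n'.choose a : ℝ) ≤ (n' : ℝ) ^ a / a.factorial := Nat.choose_le_pow_div a n'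
    have h2 : (n'.descFactorial a : ℝ) ≤ (n' : ℝ) ^ a := by
      exact_mod_cast Nat.descFactorial_le_pow n' a
    calc (n'.choose a : ℝ) * n'.descFactorial a ≤ (n' : ℝ) ^ a / a.factorial * (n' : ℝ) ^ a :=
          mul_le_mul h1 h2 (Nat.cast_nonneg _) (by positivity)
      _ = _ := by ring
  have hnpow : ∀ k : ℕ, (n : ℝ) ^ k = Real.exp (k * L) := by
    intro k
    rw [hL, ← Real.log_pow, Real.exp_log (by positivity)]
  have hδ : (1 : ℝ) ≤ 2 * (1 + ε) / ε := by
    rw [le_div_iff₀ hε]; linarith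
  have he1 : (1 : ℝ) ≤ Real.exp 1 := by
    have := Real.add_one_le_exp (1 : ℝ)
    linarith
  rw [mul_assoc]
  refine mul_le_mul_of_nonneg_left ?_ (by norm_num)
  by_cases hsmall : (a : ℝ) ≤ ε / (2 * (1 + ε)) * n'
  · -- small levels
    have h1 : (n'.choose a : ℝ) * n'.descFactorial a ≤ Real.exp (2 * a * L) := by
      refine hchoose.trans ?_
      calc (n' : ℝ) ^ a * (n' : ℝ) ^ a / a.factorial ≤ (n' : ℝ) ^ a * (n' : ℝ) ^ a / 1 := by
            apply div_le_div_of_nonneg_left (by positivity) (by norm_num)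
            exact_mod_cast a.factorial_pos
        _ ≤ (n : ℝ) ^ a * (n : ℝ) ^ a := by
            rw [div_one]
            gcongr
        _ = Real.exp (2 * a * L) := by
            rw [hnpow, ← Real.exp_add]; congr 1; ring
    have h2 : Real.exp (-(θ / n' * lev n' a)) ≤ Real.exp (-((2 + ε) * a * L)) := by
      apply Real.exp_le_exp.2
      have h3 : (a : ℝ) * (n' * (1 - ε / (2 * (1 + ε)))) ≤ lev n' a := by
        refine le_trans ?_ lev_ge_one
        apply mul_le_mul_of_nonneg_left _ ha0.le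
        linarith
      have h4 : 0 ≤ θ / n' := by positivity
      have h5 := mul_le_mul_of_nonneg_left h3 h4
      have h6 : θ / n' * ((a : ℝ) * (n' * (1 - ε / (2 * (1 + ε))))) =
          θ * a * (1 - ε / (2 * (1 + ε))) := by field_simp
      have h7 : (1 - ε / (2 * (1 + ε))) = (2 + ε) / (2 * (1 + ε)) := by field_simp; ring
      rw [h6, h7] at h5
      have h8 : (2 + ε) * a * L ≤ θ * a * ((2 + ε) / (2 * (1 + ε))) := by
        have h9 : 2 * (1 + ε) * L * (a * ((2 + ε) / (2 * (1 + ε)))) ≤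
            θ * (a * ((2 + ε) / (2 * (1 + ε)))) :=
          mul_le_mul_of_nonneg_right hθ (by positivity)
        have h10 : 2 * (1 + ε) * L * (a * ((2 + ε) / (2 * (1 + ε)))) = (2 + ε) * a * L := by
          field_simp
        linarith
      linarith
    calc (n'.choose a : ℝ) * n'.descFactorial a * Real.exp (-(θ / n' * lev n' a))
        ≤ Real.exp (2 * a * L) * Real.exp (-((2 + ε) * a * L)) :=
          mul_le_mul h1 h2 (Real.exp_pos _).le (Real.exp_pos _).le
      _ = (1 * Real.exp (-(ε * L))) ^ a := by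
          rw [one_mul, ← Real.exp_add, ← Real.exp_nat_mul]; congr 1; ring
      _ ≤ _ := by
          apply pow_le_pow_left₀ (by positivity)
          apply mul_le_mul_of_nonneg_right _ (Real.exp_pos _).le
          nlinarith
  · push Not at hsmall
    have h1 : (n'.choose a : ℝ) * n'.descFactorial a ≤
        (Real.exp 1 * (2 * (1 + ε) / ε)) ^ a * Real.exp (a * L) := by
      refine hchoose.trans ?_
      have h2 : (a : ℝ) ^ a / a.factorial ≤ Real.exp 1 ^ a := by
        have := Real.pow_div_factorial_le_exp (a : ℝ) ha0.le a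
        rwa [← Real.exp_one_pow] at this
      have h3 : (n' : ℝ) ≤ 2 * (1 + ε) / ε * a := by
        have : n' * (ε / (2 * (1 + ε))) ≤ a := by linarith
        have h4 : (n' : ℝ) = n' * (ε / (2 * (1 + ε))) * (2 * (1 + ε) / ε) := by field_simp
        rw [h4]
        rw [mul_comm]
        exact mul_le_mul_of_nonneg_left this (by positivity)
      calc (n' : ℝ) ^ a * (n' : ℝ) ^ a / a.factorial
          ≤ (2 * (1 + ε) / ε * a) ^ a * (n : ℝ) ^ a / a.factorial := by gcongr
        _ = (2 * (1 + ε) / ε) ^ a * ((a : ℝ) ^ a / a.factorial) * (n : ℝ) ^ a := by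
            rw [mul_pow]; ring
        _ ≤ (2 * (1 + ε) / ε) ^ a * (Real.exp 1 ^ a) * (n : ℝ) ^ a := by gcongr
        _ = _ := by rw [hnpow, mul_pow]; ring
    have h2 : Real.exp (-(θ / n' * lev n' a)) ≤ Real.exp (-((1 + ε) * a * L)) := by
      apply Real.exp_le_exp.2
      have h4 : 0 ≤ θ / n' := by positivity
      have h5 := mul_le_mul_of_nonneg_left (lev_ge_two (n := n') (a := a)) h4
      have h6 : θ / n' * ((a : ℝ) * ((n' : ℝ) / 2)) = θ * a / 2 := by field_simp
      rw [h6] at h5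
      have h7 := mul_le_mul_of_nonneg_right hθ ha0.le
      nlinarith
    calc (n'.choose a : ℝ) * n'.descFactorial a * Real.exp (-(θ / n' * lev n' a))
        ≤ (Real.exp 1 * (2 * (1 + ε) / ε)) ^ a * Real.exp (a * L) *
          Real.exp (-((1 + ε) * a * L)) :=
          mul_le_mul h1 h2 (Real.exp_pos _).le (by positivity)
      _ = (Real.exp 1 * (2 * (1 + ε) / ε)) ^ a * (Real.exp (-(ε * L))) ^ a := by
          rw [mul_assoc, ← Real.exp_add, ← Real.exp_nat_mul]; congr 2; ring
      _ = _ := by rw [← mul_pow]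

/-- the level sum -/
lemma level_sum {ε : ℝ} (hε : 0 < ε) {n n' : ℕ} (hn' : n' ≤ n)
    {θ : ℝ} (hθ : 2 * (1 + ε) * Real.log n ≤ θ)
    (hr : Real.exp 1 * (2 * (1 + ε) / ε) * Real.exp (-(ε * Real.log n)) ≤ 1 / 2) :
    ∑ a ∈ Finset.Ico 1 n', 2 * ((n'.choose a : ℝ) * n'.descFactorial a) *
      Real.exp (-(θ / n' * lev n' a)) ≤
      4 * (Real.exp 1 * (2 * (1 + ε) / ε) * Real.exp (-(ε * Real.log n))) := by
  set r := Real.exp 1 * (2 * (1 + ε) / ε) * Real.exp (-(ε * Real.log n)) with hrdef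
  have hr0 : 0 ≤ r := by positivity
  calc _ ≤ ∑ a ∈ Finset.Ico 1 n', 2 * r ^ a := by
        refine Finset.sum_le_sum fun a ha => ?_
        obtain ⟨h1, h2⟩ := Finset.mem_Ico.1 ha
        exact level_term hε hn' h1 h2 hθ
    _ ≤ 4 * r := by
        rw [Finset.sum_Ico_eq_sum_range]
        have h1 : ∀ k, 2 * r ^ (1 + k) = (2 * r) * r ^ k := fun k => by rw [pow_add]; ring
        simp only [h1]
        rw [← Finset.mul_sum]
        have h2 : ∑ k ∈ Finset.range (n' - 1), r ^ k ≤ 2 := by
          calc ∑ k ∈ Finset.range (n' - 1), r ^ k ≤ ∑ k ∈ Finset.range (n' - 1), (1 / 2 : ℝ) ^ k :=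
                Finset.sum_le_sum fun k _ => pow_le_pow_left₀ hr0 hr k
            _ ≤ 2 := by
                rw [geom_sum_eq (by norm_num)]
                have : (0 : ℝ) ≤ (1 / 2) ^ (n' - 1) := by positivity
                rw [div_le_iff_of_neg (by norm_num)]
                linarith
        nlinarith

end Pool.Agent.Lib.MP_8c2010_pr
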