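import Pool.Agent.Lib.MP_8c2010_pr.Rep

set_option autoImplicit false
set_option linter.unusedSectionVars false

/-! # The regular representation, levels and dimension bounds -/

namespace Pool.Agent.Lib.MP_8c2010_pr

open Equiv Finset

variable {β : Type*} [Fintype β] [DecidableEq β]

/-- functions on the symmetric group -/
abbrev EE (β : Type*) [Fintype β] [DecidableEq β] := EuclideanSpace ℝ (Perm β)

lemma inner_EE (f g : EE β) : inner ℝ f g = ∑ h, f h * g h := by
  simp only [PiLp.inner_apply, RCLike.inner_apply, conj_trivial]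
  exact Finset.sum_congr rfl fun h _ => mul_comm _ _

/-- left regular representation -/
noncomputable def Lr : Perm β →* Module.End ℝ (EE β) where
  toFun g :=
    { toFun := fun f => WithLp.toLp 2 (fun h => f (g⁻¹ * h))
      map_add' := fun f f' => by ext h; rfl
      map_smul' := fun c f => by ext h; rfl }
  map_one' := by
    ext f h
    simp
  map_mul' g g' := by
    ext f h
    simp [mul_assoc]

lemma Lr_apply (g : Perm β) (f : EE β) (h : Perm β) : Lr g f h = f (g⁻¹ * h) := rfl

/-- right translations -/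
noncomputable def Rr (k : Perm β) : Module.End ℝ (EE β) where
  toFun := fun f => WithLp.toLp 2 (fun h => f (h * k))
  map_add' := fun f f' => by ext h; rfl
  map_smul' := fun c f => by ext h; rfl

lemma Rr_apply (k : Perm β) (f : EE β) (h : Perm β) : Rr k f h = f (h * k) := rfl

/-- multiplication by the sign -/
noncomputable def Us : Module.End ℝ (EE β) where
  toFun := fun f => WithLp.toLp 2 (fun h => ((Perm.sign h : ℤ) : ℝ) * f h)
  map_add' := fun f f' => by ext h; simp [mul_add]
  map_smul' := fun c f => by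
    ext h
    simp only [PiLp.smul_apply, smul_eq_mul, RingHom.id_apply]
    ring

lemma Us_apply (f : EE β) (h : Perm β) : Us f h = ((Perm.sign h : ℤ) : ℝ) * f h := rfl

lemma orth_Lr : OrthRep (Lr (β := β)) := by
  intro g x y
  rw [inner_EE, inner_EE]
  refine Finset.sum_equiv (Equiv.mulLeft g⁻¹) (by simp) ?_
  intro h _
  simp only [Equiv.coe_mulLeft, Lr_apply, inv_inv, mul_inv_cancel_left]

lemma inner_Rr (k : Perm β) (x y : EE β) : inner ℝ (Rr k x) y = inner ℝ x (Rr k⁻¹ y) := by
  rw [inner_EE, inner_EE]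
  refine Finset.sum_equiv (Equiv.mulRight k) (by simp) ?_
  intro h _
  simp only [Equiv.coe_mulRight, Rr_apply, mul_inv_cancel_right]

lemma sign_mul_self (h : Perm β) :
    ((Perm.sign h : ℤ) : ℝ) * ((Perm.sign h : ℤ) : ℝ) = 1 := by
  rcases Int.units_eq_one_or (Perm.sign h) with e | e <;> simp [e]

lemma inner_Us (x y : EE β) : inner ℝ (Us x) y = inner ℝ x (Us y) := by
  rw [inner_EE, inner_EE]
  refine Finset.sum_congr rfl fun h _ => ?_
  rw [Us_apply, Us_apply]; ring

lemma Us_Us (x : EE β) : Us (Us x) = x := by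
  ext h
  rw [Us_apply, Us_apply, ← mul_assoc, sign_mul_self, one_mul]

lemma Us_Lr (g : Perm β) (x : EE β) : Us (Lr g x) = ((Perm.sign g : ℤ) : ℝ) • Lr g (Us x) := by
  ext h
  rw [Us_apply, PiLp.smul_apply, Lr_apply, Lr_apply, Us_apply, smul_eq_mul, Perm.sign_mul,
    Perm.sign_inv]
  push_cast
  have := sign_mul_self g
  linear_combination (-(((Perm.sign h : ℤ) : ℝ)) * x (g⁻¹ * h)) * this

lemma Lr_Rr (g k : Perm β) (x : EE β) : Lr g (Rr k x) = Rr k (Lr g x) := by
  ext h
  simp only [Lr_apply, Rr_apply, mul_assoc]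

lemma Us_Rr (k : Perm β) (x : EE β) : Us (Rr k x) = ((Perm.sign k : ℤ) : ℝ) • Rr k (Us x) := by
  ext h
  rw [Us_apply, PiLp.smul_apply, Rr_apply, Rr_apply, Us_apply, smul_eq_mul, Perm.sign_mul]
  push_cast
  have := sign_mul_self k
  linear_combination (-(((Perm.sign h : ℤ) : ℝ)) * x (h * k)) * this

/-- invariance under right translation -/
lemma Rr_mem_Low {k : ℕ} {f : EE β} (hf : f ∈ Low (Lr (β := β)) k) (g : Perm β) :
    Rr g f ∈ Low (Lr (β := β)) k := by
  intro A hA w hw
  have h1 : inner ℝ w (Rr g f) = inner ℝ (Rr g⁻¹ w) f := by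
    rw [inner_Rr, inv_inv]
  rw [h1]
  refine hf A hA _ ?_
  intro a ha b hb
  rw [Lr_Rr, hw a ha b hb]

/-- both the level and the sign twisted level are at least `a` -/
noncomputable def WW (β : Type*) [Fintype β] [DecidableEq β] (a : ℕ) : Submodule ℝ (EE β) :=
  Low (Lr (β := β)) (Fintype.card β - a) ⊓ (Low (Lr (β := β)) (Fintype.card β - a)).comap Us

lemma mem_WW {a : ℕ} {f : EE β} : f ∈ WW β a ↔
    f ∈ Low (Lr (β := β)) (Fintype.card β - a) ∧ Us f ∈ Low (Lr (β := β)) (Fintype.card β - a) :=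
  Iff.rfl

lemma Low_mono {k l : ℕ} (h : k ≤ l) : Low (Lr (β := β)) k ≤ Low (Lr (β := β)) l :=
  fun _ hf A hA => hf A (lt_of_le_of_lt h hA)

lemma WW_anti {a a' : ℕ} (h : a ≤ a') : WW β a' ≤ WW β a := by
  intro f hf
  obtain ⟨h1, h2⟩ := mem_WW.1 hf
  exact mem_WW.2 ⟨Low_mono (by omega) h1, Low_mono (by omega) h2⟩

lemma Lr_mem_WW {a : ℕ} {f : EE β} (hf : f ∈ WW β a) (g : Perm β) : Lr g f ∈ WW β a := by
  obtain ⟨h1, h2⟩ := mem_WW.1 hf
  refine mem_WW.2 ⟨R_mem_Low orth_Lr h1 g, ?_⟩
  rw [Us_Lr]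
  exact Submodule.smul_mem _ _ (R_mem_Low orth_Lr h2 g)

lemma Rr_mem_WW {a : ℕ} {f : EE β} (hf : f ∈ WW β a) (g : Perm β) : Rr g f ∈ WW β a := by
  obtain ⟨h1, h2⟩ := mem_WW.1 hf
  refine mem_WW.2 ⟨Rr_mem_Low h1 g, ?_⟩
  rw [Us_Rr]
  exact Submodule.smul_mem _ _ (Rr_mem_Low h2 g)

/-- commutation with projections -/
lemma proj_comm' {T T' : Module.End ℝ (EE β)} (hT : ∀ x y, inner ℝ (T x) y = inner ℝ x (T' y))
    {W : Submodule ℝ (EE β)} (hW : ∀ w ∈ W, T w ∈ W) (hW' : ∀ w ∈ W, T' w ∈ W) (f : EE β) :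
    W.starProjection (T f) = T (W.starProjection f) := by
  apply Submodule.eq_starProjection_of_mem_of_inner_eq_zero
    (hW _ (W.starProjection_apply_mem f))
  intro w hw
  rw [← map_sub, hT]
  exact W.starProjection_inner_eq_zero f _ (hW' w hw)

/-- delta function -/
noncomputable def dl (k : Perm β) : EE β := EuclideanSpace.single k 1

lemma dl_apply (k h : Perm β) : dl k h = if h = k then 1 else 0 := by
  rw [dl, PiLp.single_apply]

lemma Rr_dl (k h : Perm β) : Rr k (dl h) = dl (h * k⁻¹) := by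
  ext x
  rw [Rr_apply, dl_apply, dl_apply]
  refine if_congr ?_ rfl rfl
  constructor
  · intro e; rw [← e, mul_inv_cancel_right]
  · intro e; rw [e, inv_mul_cancel_right]

/-- the squared distance of `dl 1` to a right invariant subspace -/
lemma dist_dl {V : Submodule ℝ (EE β)} (hV : ∀ f ∈ V, ∀ k, Rr k f ∈ V) :
    (Fintype.card (Perm β) : ℝ) * ‖dl (1 : Perm β) - V.starProjection (dl 1)‖ ^ 2 =
      Module.finrank ℝ Vᗮ := by
  have h1 : ∀ k : Perm β, ‖dl k - V.starProjection (dl k)‖ ^ 2 =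
      ‖dl (1 : Perm β) - V.starProjection (dl 1)‖ ^ 2 := by
    intro k
    have e1 : dl k = Rr k⁻¹ (dl (1 : Perm β)) := by rw [Rr_dl]; simp
    have e2 : V.starProjection (Rr k⁻¹ (dl (1 : Perm β))) =
        Rr k⁻¹ (V.starProjection (dl (1 : Perm β))) :=
      proj_comm' (T' := Rr k) (fun x y => by rw [inner_Rr, inv_inv]) (fun w hw => hV w hw _)
        (fun w hw => hV w hw _) _
    rw [e1, e2, ← map_sub, ← real_inner_self_eq_norm_sq, ← real_inner_self_eq_norm_sq, inner_Rr,
      inv_inv]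
    congr 1
    ext h
    simp [Rr_apply]
  have h2 : LinearMap.trace ℝ (EE β) (Vᗮ.starProjection : EE β →ₗ[ℝ] EE β) =
      Module.finrank ℝ Vᗮ := by
    have : LinearMap.IsProj Vᗮ (Vᗮ.starProjection : EE β →ₗ[ℝ] EE β) :=
      ⟨fun x => Vᗮ.starProjection_apply_mem x,
        fun x hx => Submodule.starProjection_eq_self_iff.2 hx⟩
    exact this.trace
  rw [← h2, LinearMap.trace_eq_sum_inner _ (EuclideanSpace.basisFun (Perm β) ℝ)]
  have h3 : ∀ k : Perm β, inner ℝ ((EuclideanSpace.basisFun (Perm β) ℝ) k)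
      ((Vᗮ.starProjection : EE β →ₗ[ℝ] EE β) ((EuclideanSpace.basisFun (Perm β) ℝ) k)) =
      ‖dl (1 : Perm β) - V.starProjection (dl 1)‖ ^ 2 := by
    intro k
    rw [← h1 k, EuclideanSpace.basisFun_apply]
    change inner ℝ (dl k) (Vᗮ.starProjection (dl k)) = _
    have h4 : Vᗮ.starProjection (dl k) = dl k - V.starProjection (dl k) := by
      rw [Submodule.starProjection_orthogonal_val]
    rw [h4, ← real_inner_self_eq_norm_sq]
    have h5 : inner ℝ (V.starProjection (dl k)) (dl k - V.starProjection (dl k)) = 0 := by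
      rw [real_inner_comm]
      exact V.starProjection_inner_eq_zero (dl k) _ (V.starProjection_apply_mem _)
    conv_rhs => rw [inner_sub_left, h5, sub_zero]
  rw [Finset.sum_congr rfl fun k _ => h3 k, Finset.sum_const, Finset.card_univ, nsmul_eq_mul]

/-! ## Dimension bounds -/

lemma inv_of_fix {A : Finset β} {w : EE β} (hw : w ∈ Inv (Lr (β := β)) A) (σ : Perm β)
    (hσ : ∀ x, x ∉ A → σ x = x) (h : Perm β) : w (σ * h) = w h := by
  induction hn : σ.support.card using Nat.strong_induction_on generalizing σ h with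
  | _ n ih =>
  by_cases h1 : σ = 1
  · rw [h1, one_mul]
  · obtain ⟨x, hx⟩ : ∃ x, σ x ≠ x := by
      by_contra hcon
      push Not at hcon
      exact h1 (Equiv.ext hcon)
    have hxA : x ∈ A := by
      by_contra hxA
      exact hx (hσ x hxA)
    have hσxA : σ x ∈ A := by
      by_contra hc
      exact hx (σ.injective (hσ (σ x) hc))
    have h2 := ih _ (by rw [← hn]; exact Perm.card_support_swap_mul hx) (swap x (σ x) * σ)
      (by
        intro y hy
        rw [Perm.mul_apply, hσ y hy]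
        exact swap_apply_of_ne_of_ne (fun e => hy (e ▸ hxA)) (fun e => hy (e ▸ hσxA))) h rfl
    have h3 := congrArg (fun f : EE β => f (σ * h)) (hw x hxA (σ x) hσxA)
    simp only [Lr_apply, swap_inv] at h3
    rw [← h3, ← mul_assoc, h2]

/-- the index set of the indicator functions -/
abbrev Idx (β : Type*) [Fintype β] [DecidableEq β] (a : ℕ) :=
  (T : {T : Finset β // T.card = a}) × (T.1 ↪ β)

/-- indicator functions of `a` prescribed values of the inverse -/
noncomputable def ind (a : ℕ) (i : Idx β a) : EE β :=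
  WithLp.toLp 2 (fun h => if ∀ c : i.1.1, h⁻¹ c = i.2 c then 1 else 0)

lemma ind_apply (a : ℕ) (i : Idx β a) (h : Perm β) :
    ind a i h = if ∀ c : i.1.1, h⁻¹ c = i.2 c then 1 else 0 := rfl

lemma card_Idx (a : ℕ) : Fintype.card (Idx β a) =
    (Fintype.card β).choose a * (Fintype.card β).descFactorial a := by
  rw [Fintype.card_sigma]
  have h1 : ∀ T : {T : Finset β // T.card = a}, Fintype.card (T.1 ↪ β) =
      (Fintype.card β).descFactorial a := by
    intro T
    rw [Fintype.card_embedding_eq, Fintype.card_coe, T.2]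
  rw [Finset.sum_congr rfl fun T _ => h1 T, Finset.sum_const, Finset.card_univ, smul_eq_mul]
  congr 1
  rw [Fintype.card_finset_len]

lemma mem_Low_of_orth {a : ℕ} (ha : a ≤ Fintype.card β) {f : EE β}
    (hf : ∀ i : Idx β a, inner ℝ (ind a i) f = 0) :
    f ∈ Low (Lr (β := β)) (Fintype.card β - (a + 1)) := by
  intro A hA w hw
  have hAc : Aᶜ.card ≤ a := by
    rw [Finset.card_compl]; omega
  obtain ⟨T, hT1, hT2⟩ := Finset.exists_superset_card_eq (s := Aᶜ) hAc (by simpa using ha)
  have hconst : ∀ h h' : Perm β, (∀ c ∈ T, h⁻¹ c = h'⁻¹ c) → w h = w h' := by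
    intro h h' hh
    have h1 := inv_of_fix hw (h * h'⁻¹) (by
      intro x hx
      have hxT : x ∈ T := hT1 (Finset.mem_compl.2 hx)
      rw [Perm.mul_apply, ← hh x hxT]
      simp) h'
    rw [inv_mul_cancel_right] at h1
    exact h1
  set res : Perm β → (T ↪ β) := fun h => ⟨fun c => h⁻¹ c, fun c d e =>
    Subtype.ext (h⁻¹.injective e)⟩ with hres
  rw [inner_EE, ← Finset.sum_fiberwise_of_maps_to (s := Finset.univ) (t := Finset.univ) (g := res)
    (fun _ _ => Finset.mem_univ _)]
  refine Finset.sum_eq_zero fun y _ => ?_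
  have h2 := hf ⟨⟨T, hT2⟩, y⟩
  rw [inner_EE] at h2
  simp only [ind_apply, ite_mul, one_mul, zero_mul] at h2
  rw [← Finset.sum_filter] at h2
  have h3 : (Finset.univ.filter fun h : Perm β => ∀ c : T, h⁻¹ c = y c) =
      Finset.univ.filter (fun h => res h = y) := by
    ext h
    simp only [Finset.mem_filter, Finset.mem_univ, true_and, hres]
    constructor
    · intro e; ext c; exact e c
    · intro e c
      exact DFunLike.congr_fun e c
  rw [h3] at h2
  rcases (Finset.univ.filter (fun h => res h = y)).eq_empty_or_nonempty with he | ⟨h₀, hh₀⟩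
  · rw [he, Finset.sum_empty]
  · have h4 : ∀ h ∈ Finset.univ.filter (fun h => res h = y), w h * f h = w h₀ * f h := by
      intro h hh
      congr 1
      apply hconst
      intro c hc
      have e1 := (Finset.mem_filter.1 hh).2
      have e2 := (Finset.mem_filter.1 hh₀).2
      have e3 := DFunLike.congr_fun (e1.trans e2.symm) ⟨c, hc⟩
      exact e3
    rw [Finset.sum_congr rfl h4, ← Finset.mul_sum, h2, mul_zero]

lemma finrank_WW_perp {a : ℕ} (ha : a ≤ Fintype.card β) :
    Module.finrank ℝ (WW β (a + 1))ᗮ ≤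
      2 * ((Fintype.card β).choose a * (Fintype.card β).descFactorial a) := by
  set v : Idx β a ⊕ Idx β a → EE β := Sum.elim (ind a) (fun i => Us (ind a i)) with hv
  have h1 : (WW β (a + 1))ᗮ ≤ Submodule.span ℝ (Set.range v) := by
    have h2 : (Submodule.span ℝ (Set.range v))ᗮ ≤ WW β (a + 1) := by
      intro f hf
      rw [Submodule.mem_orthogonal] at hf
      refine mem_WW.2 ⟨mem_Low_of_orth ha fun i => ?_, mem_Low_of_orth ha fun i => ?_⟩
      · exact hf _ (Submodule.subset_span ⟨Sum.inl i, rfl⟩)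
      · rw [← inner_Us]
        exact hf _ (Submodule.subset_span ⟨Sum.inr i, rfl⟩)
    have h3 := Submodule.orthogonal_le h2
    rwa [Submodule.orthogonal_orthogonal] at h3
  calc Module.finrank ℝ (WW β (a + 1))ᗮ ≤ Module.finrank ℝ (Submodule.span ℝ (Set.range v)) :=
        Submodule.finrank_mono h1
    _ ≤ Fintype.card (Idx β a ⊕ Idx β a) := finrank_range_le_card v
    _ = _ := by rw [Fintype.card_sum, card_Idx]; ring

lemma WW_top_eq_bot [Nonempty β] : WW β (Fintype.card β) = ⊥ := by
  rw [eq_bot_iff]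
  intro f hf
  obtain ⟨h1, _⟩ := mem_WW.1 hf
  rw [Nat.sub_self] at h1
  obtain ⟨y⟩ := (inferInstance : Nonempty β)
  have h2 := h1 {y} (by simp) f (Inv_singleton _ y f)
  exact inner_self_eq_zero.1 h2

end Pool.Agent.Lib.MP_8c2010_pr
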