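import Mathlib

set_option autoImplicit false

/-! # Star operators and symmetrisable sets in an orthogonal representation of a symmetric group -/

namespace Pool.Agent.Lib.MP_8c2010_pr

open Equiv

variable {E : Type*} [NormedAddCommGroup E] [InnerProductSpace ℝ E] [FiniteDimensional ℝ E]
variable {α : Type*} [DecidableEq α]

/-- `R` acts orthogonally. -/
def OrthRep (R : Perm α →* Module.End ℝ E) : Prop :=
  ∀ (g : Perm α) (x y : E), inner ℝ (R g x) y = inner ℝ x (R g⁻¹ y)

/-- vectors invariant under all transpositions inside `A` -/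
def Inv (R : Perm α →* Module.End ℝ E) (A : Finset α) : Submodule ℝ E where
  carrier := {f | ∀ a ∈ A, ∀ b ∈ A, R (swap a b) f = f}
  add_mem' := by
    intro f g hf hg a ha b hb
    rw [map_add, hf a ha b hb, hg a ha b hb]
  zero_mem' := by
    intro a _ b _
    rw [map_zero]
  smul_mem' := by
    intro c f hf a ha b hb
    rw [map_smul, hf a ha b hb]

/-- `f` is orthogonal to the `A`-invariant vectors -/
def Van (R : Perm α →* Module.End ℝ E) (A : Finset α) (f : E) : Prop :=
  ∀ w ∈ Inv R A, inner ℝ w f = 0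

/-- the star operator: the sum of the transpositions `(x y)`, `y ∈ D` -/
noncomputable def star (R : Perm α →* Module.End ℝ E) (x : α) (D : Finset α) : Module.End ℝ E :=
  ∑ y ∈ D, R (swap x y)

omit [FiniteDimensional ℝ E] in
lemma star_apply (R : Perm α →* Module.End ℝ E) (x : α) (D : Finset α) (f : E) :
    star R x D f = ∑ y ∈ D, R (swap x y) f := by
  rw [star, LinearMap.sum_apply]

omit [FiniteDimensional ℝ E] in
lemma Inv_mono {R : Perm α →* Module.End ℝ E} {A B : Finset α} (h : A ⊆ B) :
    Inv R B ≤ Inv R A := fun _ hf a ha b hb => hf a (h ha) b (h hb)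

omit [FiniteDimensional ℝ E] in
lemma Van_mono {R : Perm α →* Module.End ℝ E} {A B : Finset α} (h : A ⊆ B) {f : E}
    (hf : Van R A f) : Van R B f := fun w hw => hf w (Inv_mono h hw)

omit [FiniteDimensional ℝ E] in
lemma OrthRep.swap_adj {R : Perm α →* Module.End ℝ E} (hR : OrthRep R) (a b : α) (x y : E) :
    inner ℝ (R (swap a b) x) y = inner ℝ x (R (swap a b) y) := by
  have := hR (swap a b) x y
  rwa [swap_inv] at this

omit [FiniteDimensional ℝ E] [DecidableEq α] in
lemma R_mul_apply (R : Perm α →* Module.End ℝ E) (g h : Perm α) (f : E) :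
    R g (R h f) = R (g * h) f := by
  rw [map_mul]; rfl

omit [FiniteDimensional ℝ E] in
lemma R_conj_swap (R : Perm α →* Module.End ℝ E) (g : Perm α) (a b : α) (f : E) :
    R g (R (swap a b) f) = R (swap (g a) (g b)) (R g f) := by
  rw [R_mul_apply, R_mul_apply, Equiv.mul_swap_eq_swap_mul]

omit [FiniteDimensional ℝ E] in
/-- the star identity -/
lemma star_eq_neg {R : Perm α →* Module.End ℝ E} (hR : OrthRep R) {A : Finset α} {x : α}
    (hx : x ∉ A) {g : E} (hg : g ∈ Inv R A) (hv : Van R (insert x A) g) :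
    ∑ a ∈ A, R (swap a x) g = -g := by
  set h : E := g + ∑ a ∈ A, R (swap a x) g with hh
  have hinvA : ∀ u ∈ A, ∀ v ∈ A, R (swap u v) h = h := by
    intro u hu v hv'
    have hπx : swap u v x = x := swap_apply_of_ne_of_ne (fun e => hx (e ▸ hu)) (fun e => hx (e ▸ hv'))
    have hπA : ∀ a ∈ A, swap u v a ∈ A := by
      intro a ha
      rw [swap_apply_def]
      split_ifs
      · exact hv'
      · exact hu
      · exact ha
    rw [hh, map_add, hg u hu v hv', map_sum]
    congr 1
    have h1 : ∀ a ∈ A, R (swap u v) (R (swap a x) g) = R (swap (swap u v a) x) g := by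
      intro a _
      rw [R_conj_swap, hπx, hg u hu v hv']
    rw [Finset.sum_congr rfl h1]
    refine Finset.sum_bij' (fun a _ => swap u v a) (fun a _ => swap u v a)
      hπA hπA ?_ ?_ ?_
    · intro a _; exact swap_apply_self u v a
    · intro a _; exact swap_apply_self u v a
    · intro a _; rfl
  have hinvx : ∀ v ∈ A, R (swap x v) h = h := by
    intro v hv'
    have hxv : x ≠ v := fun e => hx (e ▸ hv')
    rw [hh, map_add, map_sum, ← Finset.add_sum_erase A _ hv']
    have h1 : R (swap x v) (R (swap v x) g) = g := by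
      rw [R_mul_apply, swap_comm v x, swap_mul_self, map_one]; rfl
    have h2 : ∀ a ∈ A.erase v, R (swap x v) (R (swap a x) g) = R (swap a x) g := by
      intro a ha
      obtain ⟨hav, haA⟩ := Finset.mem_erase.1 ha
      have hax : a ≠ x := fun e => hx (e ▸ haA)
      have key : swap x v * swap a x = swap a x * swap a v := by
        rw [Equiv.mul_swap_eq_swap_mul (swap a x) a v, swap_apply_left,
          swap_apply_of_ne_of_ne hav.symm hxv.symm]
      rw [R_mul_apply, key, ← R_mul_apply, hg a haA v hv']
    rw [h1, Finset.sum_congr rfl h2, ← Finset.add_sum_erase A (fun a => R (swap a x) g) hv',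
      swap_comm v x]
    abel
  have hmem : h ∈ Inv R (insert x A) := by
    intro u hu v hv'
    by_cases hux : u = x
    · by_cases hvx : v = x
      · rw [hux, hvx, swap_self]
        change R 1 h = h
        rw [map_one]; rfl
      · rw [hux]
        exact hinvx v ((Finset.mem_insert.1 hv').resolve_left hvx)
    · have huA := (Finset.mem_insert.1 hu).resolve_left hux
      by_cases hvx : v = x
      · rw [hvx, swap_comm]
        exact hinvx u huA
      · exact hinvA u huA v ((Finset.mem_insert.1 hv').resolve_left hvx)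
  have h0 : inner ℝ h g = 0 := hv h hmem
  have hhh : inner ℝ h h = 0 := by
    nth_rewrite 2 [hh]
    rw [inner_add_right, h0, inner_sum, zero_add]
    refine Finset.sum_eq_zero fun a ha => ?_
    rw [← hR.swap_adj, swap_comm, hinvx a ha, h0]
  have hzero : h = 0 := inner_self_eq_zero.1 hhh
  rw [hh] at hzero
  exact (neg_eq_of_add_eq_zero_right hzero).symm

/-- A symmetric operator preserving a subspace commutes with the orthogonal projection. -/
lemma proj_comm {T : Module.End ℝ E} (hT : ∀ x y, inner ℝ (T x) y = inner ℝ x (T y))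
    {W : Submodule ℝ E} (hW : ∀ w ∈ W, T w ∈ W) (f : E) :
    W.starProjection (T f) = T (W.starProjection f) := by
  apply Submodule.eq_starProjection_of_mem_of_inner_eq_zero
    (hW _ (W.starProjection_apply_mem f))
  intro w hw
  rw [← map_sub, hT]
  exact W.starProjection_inner_eq_zero f _ (hW w hw)

/-- inner products against elements of the subspace are unchanged by projecting -/
lemma inner_proj {W : Submodule ℝ E} {w : E} (hw : w ∈ W) (f : E) :
    inner ℝ w (W.starProjection f) = inner ℝ w f := by
  rw [← Submodule.inner_starProjection_left_eq_right, Submodule.starProjection_eq_self_iff.2 hw]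

/-- not vanishing means the projection is nonzero -/
lemma proj_ne_zero {R : Perm α →* Module.End ℝ E} {A : Finset α} {f : E} (h : ¬ Van R A f) :
    (Inv R A).starProjection f ≠ 0 := by
  intro h0
  apply h
  intro w hw
  rw [← inner_proj hw f, h0, inner_zero_right]

lemma van_proj {R : Perm α →* Module.End ℝ E} {A B : Finset α} {f : E}
    (hAB : Inv R B ≤ Inv R A) (h : Van R B f) : Van R B ((Inv R A).starProjection f) := by
  intro w hw
  rw [inner_proj (hAB hw)]
  exact h w hw

omit [FiniteDimensional ℝ E] in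
lemma star_symm {R : Perm α →* Module.End ℝ E} (hR : OrthRep R) (x : α) (D : Finset α)
    (u v : E) : inner ℝ (star R x D u) v = inner ℝ u (star R x D v) := by
  rw [star_apply, star_apply, sum_inner, inner_sum]
  exact Finset.sum_congr rfl fun y _ => hR.swap_adj x y u v

omit [FiniteDimensional ℝ E] in
/-- the star operator centred outside `A` whose leaves contain `A` preserves `A`-invariance -/
lemma star_mem_Inv {R : Perm α →* Module.End ℝ E} {x : α} {A D : Finset α}
    (hx : x ∉ A) (hAD : A ⊆ D) {f : E} (hf : f ∈ Inv R A) : star R x D f ∈ Inv R A := by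
  intro u hu v hv
  have hπx : swap u v x = x := swap_apply_of_ne_of_ne (fun e => hx (e ▸ hu)) (fun e => hx (e ▸ hv))
  have hπD : ∀ a ∈ D, swap u v a ∈ D := by
    intro a ha
    rw [swap_apply_def]
    split_ifs
    · exact hAD hv
    · exact hAD hu
    · exact ha
  rw [star_apply, map_sum]
  have h1 : ∀ a ∈ D, R (swap u v) (R (swap x a) f) = R (swap x (swap u v a)) f := by
    intro a _
    rw [R_conj_swap, hπx, hf u hu v hv]
  rw [Finset.sum_congr rfl h1]
  refine Finset.sum_bij' (fun a _ => swap u v a) (fun a _ => swap u v a)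
    hπD hπD ?_ ?_ ?_
  · intro a _; exact swap_apply_self u v a
  · intro a _; exact swap_apply_self u v a
  · intro a _; rfl

omit [FiniteDimensional ℝ E] in
lemma Inv_singleton (R : Perm α →* Module.End ℝ E) (y : α) (f : E) : f ∈ Inv R {y} := by
  intro a ha b hb
  rw [Finset.mem_singleton] at ha hb
  rw [ha, hb, swap_self]
  change R 1 f = f
  rw [map_one]; rfl

/-- Jucys-Murphy bound: an eigenvalue of a star operator is at most `k - 1` if no set of size
larger than `k` is symmetrisable. -/
lemma star_eigen_le {R : Perm α →* Module.End ℝ E} (hR : OrthRep R) (k : ℕ) (hk : 1 ≤ k) :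
    ∀ (m : ℕ) (D : Finset α), D.card = m → ∀ (x : α), x ∉ D → ∀ (g : E) (c : ℝ), g ≠ 0 →
      star R x D g = c • g → (∀ B ⊆ insert x D, k < B.card → Van R B g) → c ≤ (k : ℝ) - 1 := by
  have hk' : (1 : ℝ) ≤ k := by exact_mod_cast hk
  intro m
  induction m using Nat.strong_induction_on with
  | _ m ih =>
  intro D hDm x hxD g c hg hc hvan
  rcases D.eq_empty_or_nonempty with hD | hD
  · rw [hD, star_apply, Finset.sum_empty] at hc
    have : c = 0 := by
      rcases smul_eq_zero.1 hc.symm with h | h
      · exact h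
      · exact absurd h hg
    rw [this]; linarith
  -- choose a maximal symmetrisable subset of D
  classical
  set P : Finset (Finset α) := D.powerset.filter (fun A => ¬ Van R A g) with hP
  have hPne : P.Nonempty := by
    obtain ⟨y, hy⟩ := hD
    refine ⟨{y}, ?_⟩
    rw [hP, Finset.mem_filter, Finset.mem_powerset]
    refine ⟨Finset.singleton_subset_iff.2 hy, fun hv => hg ?_⟩
    exact inner_self_eq_zero.1 (hv g (Inv_singleton R y g))
  obtain ⟨A, hAP, hAmax⟩ := P.exists_max_image Finset.card hPne
  rw [hP, Finset.mem_filter, Finset.mem_powerset] at hAP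
  obtain ⟨hAD, hAv⟩ := hAP
  have hmax : ∀ B ⊆ D, A.card < B.card → Van R B g := by
    intro B hB hcard
    by_contra hvB
    have := hAmax B (by rw [hP, Finset.mem_filter, Finset.mem_powerset]; exact ⟨hB, hvB⟩)
    omega
  have hApos : 1 ≤ A.card := by
    obtain ⟨y, hy⟩ := hD
    have : ({y} : Finset α) ∈ P := by
      rw [hP, Finset.mem_filter, Finset.mem_powerset]
      refine ⟨Finset.singleton_subset_iff.2 hy, fun hv => hg ?_⟩
      exact inner_self_eq_zero.1 (hv g (Inv_singleton R y g))
    have := hAmax _ this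
    simpa using this
  have hxA : x ∉ A := fun h => hxD (hAD h)
  set g' : E := (Inv R A).starProjection g with hg'
  have hg'0 : g' ≠ 0 := proj_ne_zero hAv
  have hg'mem : g' ∈ Inv R A := Submodule.starProjection_apply_mem _ _
  have hJg' : star R x D g' = c • g' := by
    rw [hg', ← proj_comm (star_symm hR x D) (fun w hw => star_mem_Inv hxA hAD hw) g, hc, map_smul]
  -- star identity for leaves outside A
  have hstar : ∀ y ∈ D \ A, ∑ a ∈ A, R (swap a y) g' = -g' := by
    intro y hy
    obtain ⟨hyD, hyA⟩ := Finset.mem_sdiff.1 hy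
    refine star_eq_neg hR hyA hg'mem (van_proj (Inv_mono (Finset.subset_insert y A)) ?_)
    refine hmax _ (Finset.insert_subset hyD hAD) ?_
    rw [Finset.card_insert_of_notMem hyA]; omega
  set g₁ : E := (Inv R (insert x A)).starProjection g' with hg₁
  have hg₁mem : g₁ ∈ Inv R (insert x A) := Submodule.starProjection_apply_mem _ _
  have hg₁A : g₁ ∈ Inv R A := Inv_mono (Finset.subset_insert x A) hg₁mem
  have hinner : inner ℝ g₁ g' = inner ℝ g₁ g₁ := by
    rw [hg₁, inner_proj (Submodule.starProjection_apply_mem _ _)]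
  by_cases h0 : g₁ = 0
  · -- second case: peel off A
    have hvanx : Van R (insert x A) g' := by
      intro w hw
      rw [← inner_proj hw g', ← hg₁, h0, inner_zero_right]
    have hT := star_eq_neg hR hxA hg'mem hvanx
    have hsplit : star R x D g' = star R x (D \ A) g' + ∑ a ∈ A, R (swap a x) g' := by
      rw [star_apply, star_apply, ← Finset.sum_sdiff hAD]
      congr 1
      exact Finset.sum_congr rfl fun a _ => by rw [swap_comm]
    have hnew : star R x (D \ A) g' = (c + 1) • g' := by
      rw [hT, hJg'] at hsplit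
      rw [add_smul, one_smul, hsplit]; abel
    have hlt : (D \ A).card < m := by
      rw [← hDm, Finset.card_sdiff_of_subset hAD]
      have := Finset.card_le_card hAD
      omega
    have := ih _ hlt (D \ A) rfl x (fun h => hxD (Finset.mem_sdiff.1 h).1) g' (c + 1) hg'0 hnew
      (by
        intro B hB hcard w hw
        -- B is disjoint from A
        have hBA : ∀ b ∈ B, b ∉ A := by
          intro b hb hbA
          rcases Finset.mem_insert.1 (hB hb) with rfl | hb'
          · exact hxA hbA
          · exact (Finset.mem_sdiff.1 hb').2 hbA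
        have hwP : (Inv R A).starProjection w ∈ Inv R B := by
          intro u hu v hv
          rw [← proj_comm (hR.swap_adj u v) _ w, hw u hu v hv]
          intro z hz a ha b hb
          have hua : swap u v a = a :=
            swap_apply_of_ne_of_ne (fun e => hBA u hu (e ▸ ha)) (fun e => hBA v hv (e ▸ ha))
          have hub : swap u v b = b :=
            swap_apply_of_ne_of_ne (fun e => hBA u hu (e ▸ hb)) (fun e => hBA v hv (e ▸ hb))
          have h1 := R_conj_swap R (swap u v) a b z
          rw [hua, hub, hz a ha b hb] at h1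
          exact h1.symm
        have hB' : B ⊆ insert x D := hB.trans (Finset.insert_subset_insert x Finset.sdiff_subset)
        rw [hg', ← Submodule.inner_starProjection_left_eq_right]
        exact hvan B hB' hcard _ hwP)
    linarith
  · -- first case: c = |A| and insert x A is symmetrisable
    have hpos : inner ℝ g₁ g₁ ≠ 0 := fun h => h0 (inner_self_eq_zero.1 h)
    have hcardle : A.card + 1 ≤ k := by
      by_contra hlt
      push Not at hlt
      have hv := hvan (insert x A) (Finset.insert_subset_insert x hAD)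
        (by rw [Finset.card_insert_of_notMem hxA]; exact hlt)
      apply hpos
      rw [← hinner, hg', inner_proj hg₁A]
      exact hv g₁ hg₁mem
    have hmain : inner ℝ g₁ (star R x D g') = (A.card : ℝ) * inner ℝ g₁ g' := by
      rw [star_apply, inner_sum, ← Finset.sum_sdiff hAD]
      have hz : ∀ y ∈ D \ A, inner ℝ g₁ (R (swap x y) g') = 0 := by
        intro y hy
        obtain ⟨hyD, hyA⟩ := Finset.mem_sdiff.1 hy
        have hyx : y ≠ x := fun e => hxD (e ▸ hyD)
        have hyxA : y ∉ insert x A := by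
          rw [Finset.mem_insert]; push Not; exact ⟨hyx, hyA⟩
        have hvy : Van R (insert y (insert x A)) g₁ := by
          intro w hw
          have hwx : w ∈ Inv R (insert x A) := Inv_mono (Finset.subset_insert _ _) hw
          have hwy : w ∈ Inv R (insert y A) :=
            Inv_mono (Finset.insert_subset_insert y (Finset.subset_insert x A)) hw
          rw [hg₁, inner_proj hwx, hg',
            inner_proj (Inv_mono (Finset.subset_insert x A) hwx)]
          refine hmax (insert y A) (Finset.insert_subset hyD hAD) ?_ w hwy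
          rw [Finset.card_insert_of_notMem hyA]; omega
        have h1 := star_eq_neg hR hyxA hg₁mem hvy
        rw [Finset.sum_insert hxA] at h1
        have h2 := hstar y hy
        have h3 : inner ℝ (R (swap x y) g₁ + ∑ a ∈ A, R (swap a y) g₁) g' = -inner ℝ g₁ g' := by
          rw [h1, inner_neg_left]
        have h4 : inner ℝ g₁ (∑ a ∈ A, R (swap a y) g') = -inner ℝ g₁ g' := by
          rw [h2, inner_neg_right]
        rw [inner_add_left, sum_inner] at h3
        rw [inner_sum] at h4
        have h5 : ∑ a ∈ A, inner ℝ (R (swap a y) g₁) g' = ∑ a ∈ A, inner ℝ g₁ (R (swap a y) g') :=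
          Finset.sum_congr rfl fun a _ => hR.swap_adj a y g₁ g'
        rw [h5, h4] at h3
        rw [← hR.swap_adj]
        linarith
      rw [Finset.sum_eq_zero hz, zero_add]
      have hA' : ∀ y ∈ A, inner ℝ g₁ (R (swap x y) g') = inner ℝ g₁ g' := by
        intro y hy
        rw [← hR.swap_adj, hg₁mem x (Finset.mem_insert_self _ _) y (Finset.mem_insert_of_mem hy)]
      rw [Finset.sum_congr rfl hA', Finset.sum_const, nsmul_eq_mul]
    rw [hJg', inner_smul_right] at hmain
    have hceq : c = A.card := by
      have h6 : inner ℝ g₁ g' ≠ 0 := by rw [hinner]; exact hpos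
      exact mul_right_cancel₀ h6 hmain
    rw [hceq]
    have : (A.card : ℝ) + 1 ≤ k := by exact_mod_cast hcardle
    linarith

/-! ## Spectral helpers -/

lemma exists_neg_eigen {F : Type*} [NormedAddCommGroup F] [InnerProductSpace ℝ F]
    [FiniteDimensional ℝ F] {T : Module.End ℝ F} (hT : LinearMap.IsSymmetric T) {f : F}
    (hf : inner ℝ f (T f) < 0) : ∃ t : ℝ, t < 0 ∧ ∃ v : F, v ≠ 0 ∧ T v = t • v := by
  by_contra hcon
  push Not at hcon
  set b := hT.eigenvectorBasis rfl with hb
  have hev : ∀ i, 0 ≤ hT.eigenvalues rfl i := by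
    intro i
    by_contra hneg
    push Not at hneg
    exact hcon _ hneg (b i) (b.orthonormal.ne_zero i) (hT.apply_eigenvectorBasis rfl i)
  have : inner ℝ f (T f) = ∑ i, hT.eigenvalues rfl i * (inner ℝ (b i) f) ^ 2 := by
    rw [← b.sum_inner_mul_inner f (T f)]
    refine Finset.sum_congr rfl fun i _ => ?_
    rw [← hT, hT.apply_eigenvectorBasis rfl i, inner_smul_left, real_inner_comm]
    simp only [RCLike.conj_to_real, RCLike.ofReal_real_eq_id, id_eq]
    rw [← hb]; ring
  rw [this] at hf
  have := Finset.sum_nonneg (s := Finset.univ) fun i _ =>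
    mul_nonneg (hev i) (sq_nonneg (inner ℝ (b i) f))
  linarith

/-- version on an invariant subspace -/
lemma exists_neg_eigen_on {T : Module.End ℝ E} (hT : ∀ x y, inner ℝ (T x) y = inner ℝ x (T y))
    {W : Submodule ℝ E} (hW : ∀ w ∈ W, T w ∈ W) {f : E} (hfW : f ∈ W)
    (hf : inner ℝ f (T f) < 0) : ∃ t : ℝ, t < 0 ∧ ∃ v ∈ W, v ≠ 0 ∧ T v = t • v := by
  have hT' : LinearMap.IsSymmetric T := hT
  have hres := hT'.restrict_invariant hW
  have hf' : inner ℝ (⟨f, hfW⟩ : W) ((T.restrict hW) ⟨f, hfW⟩) < 0 := by
    simpa using hf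
  obtain ⟨t, ht, v, hv, hvt⟩ := exists_neg_eigen hres hf'
  refine ⟨t, ht, v, v.2, fun h => hv (Subtype.ext h), ?_⟩
  have := congrArg Subtype.val hvt
  simpa using this

/-- a commuting symmetric operator has an eigenvector in an eigenspace -/
lemma exists_eigen_in {S : Module.End ℝ E} (hS : ∀ x y, inner ℝ (S x) y = inner ℝ x (S y))
    {W : Submodule ℝ E} (hW : ∀ w ∈ W, S w ∈ W) {v : E} (hv : v ∈ W) (hv0 : v ≠ 0) :
    ∃ s : ℝ, ∃ u ∈ W, u ≠ 0 ∧ S u = s • u := by
  -- shift so that the Rayleigh quotient at `v` is negative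
  set c : ℝ := inner ℝ v (S v) / inner ℝ v v + 1 with hc
  have hvv : 0 < inner ℝ v v := real_inner_self_pos.2 hv0
  have hT : ∀ x y, inner ℝ ((S - c • (1 : Module.End ℝ E)) x) y =
      inner ℝ x ((S - c • (1 : Module.End ℝ E)) y) := by
    intro x y
    simp only [LinearMap.sub_apply, LinearMap.smul_apply, Module.End.one_apply, inner_sub_left,
      inner_sub_right, inner_smul_left, inner_smul_right, hS, RCLike.conj_to_real]
  have hWT : ∀ w ∈ W, (S - c • (1 : Module.End ℝ E)) w ∈ W := by
    intro w hw
    exact W.sub_mem (hW w hw) (W.smul_mem c hw)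
  have hneg : inner ℝ v ((S - c • (1 : Module.End ℝ E)) v) < 0 := by
    simp only [LinearMap.sub_apply, LinearMap.smul_apply, Module.End.one_apply,
      inner_sub_right, inner_smul_right]
    rw [hc]
    field_simp
    linarith
  obtain ⟨t, _, u, huW, hu0, hu⟩ := exists_neg_eigen_on hT hWT hv hneg
  refine ⟨t + c, u, huW, hu0, ?_⟩
  simp only [LinearMap.sub_apply, LinearMap.smul_apply, Module.End.one_apply] at hu
  rw [add_smul, ← hu]; abel

/-! ## The mean field Laplacian -/

section Lap

variable [Fintype α]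

/-- sum of all transpositions over ordered pairs (the diagonal contributes the identity) -/
noncomputable def tot (R : Perm α →* Module.End ℝ E) : Module.End ℝ E :=
  ∑ i, ∑ j, R (swap i j)

omit [FiniteDimensional ℝ E] in
lemma tot_apply (R : Perm α →* Module.End ℝ E) (f : E) :
    tot R f = ∑ i, ∑ j, R (swap i j) f := by
  simp only [tot, LinearMap.sum_apply]

omit [FiniteDimensional ℝ E] in
lemma tot_symm {R : Perm α →* Module.End ℝ E} (hR : OrthRep R) (u v : E) :
    inner ℝ (tot R u) v = inner ℝ u (tot R v) := by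
  simp only [tot_apply, sum_inner, inner_sum]
  exact Finset.sum_congr rfl fun i _ => Finset.sum_congr rfl fun j _ => hR.swap_adj i j u v

omit [FiniteDimensional ℝ E] in
lemma tot_comm (R : Perm α →* Module.End ℝ E) (g : Perm α) (f : E) :
    R g (tot R f) = tot R (R g f) := by
  simp only [tot_apply, map_sum]
  have h : ∀ i j, R g (R (swap i j) f) = R (swap (g i) (g j)) (R g f) := fun i j =>
    R_conj_swap R g i j f
  simp only [h]
  rw [← Equiv.sum_comp g (fun i => ∑ j, R (swap i j) (R g f))]
  refine Finset.sum_congr rfl fun i _ => ?_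
  rw [← Equiv.sum_comp g (fun j => R (swap (g i) j) (R g f))]

omit [FiniteDimensional ℝ E] in
lemma tot_mem_Inv (R : Perm α →* Module.End ℝ E) {A : Finset α} {f : E} (hf : f ∈ Inv R A) :
    tot R f ∈ Inv R A := by
  intro a ha b hb
  rw [tot_comm, hf a ha b hb]

omit [FiniteDimensional ℝ E] [Fintype α] in
lemma abs_inner_R_le {R : Perm α →* Module.End ℝ E} (hR : OrthRep R) (a b : α) (f : E) :
    |inner ℝ f (R (swap a b) f)| ≤ inner ℝ f f := by
  have hnn : inner ℝ (R (swap a b) f) (R (swap a b) f) = inner ℝ f f := by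
    rw [hR.swap_adj, R_mul_apply, swap_mul_self, map_one]; rfl
  have h1 : 0 ≤ inner ℝ (f + R (swap a b) f) (f + R (swap a b) f) := real_inner_self_nonneg
  have h2 : 0 ≤ inner ℝ (f - R (swap a b) f) (f - R (swap a b) f) := real_inner_self_nonneg
  rw [inner_add_left, inner_add_right, inner_add_right, hnn,
    real_inner_comm f (R (swap a b) f)] at h1
  rw [inner_sub_left, inner_sub_right, inner_sub_right, hnn,
    real_inner_comm f (R (swap a b) f)] at h2
  rw [abs_le]; constructor <;> linarith

/-- vectors for which no set of size larger than `k` is symmetrisable -/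
def Low (R : Perm α →* Module.End ℝ E) (k : ℕ) : Submodule ℝ E where
  carrier := {f | ∀ A : Finset α, k < A.card → Van R A f}
  add_mem' := by
    intro f g hf hg A hA w hw
    rw [inner_add_right, hf A hA w hw, hg A hA w hw, add_zero]
  zero_mem' := by
    intro A _ w _
    rw [inner_zero_right]
  smul_mem' := by
    intro c f hf A hA w hw
    rw [inner_smul_right, hf A hA w hw, mul_zero]

omit [FiniteDimensional ℝ E] [Fintype α] in
lemma R_mem_Low {R : Perm α →* Module.End ℝ E} (hR : OrthRep R) {k : ℕ} {f : E}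
    (hf : f ∈ Low R k) (g : Perm α) : R g f ∈ Low R k := by
  intro A hA w hw
  -- `R g⁻¹ w` is invariant under the image of `A`
  have hw' : R g⁻¹ w ∈ Inv R (A.map (g⁻¹).toEmbedding) := by
    intro a ha b hb
    obtain ⟨a', ha', rfl⟩ := Finset.mem_map.1 ha
    obtain ⟨b', hb', rfl⟩ := Finset.mem_map.1 hb
    have := R_conj_swap R g⁻¹ a' b' w
    rw [hw a' ha' b' hb'] at this
    exact this.symm
  have h1 := hR g⁻¹ w f
  rw [inv_inv] at h1
  rw [← h1]
  exact hf _ (by rw [Finset.card_map]; exact hA) _ hw'

omit [FiniteDimensional ℝ E] in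
/-- the largest symmetrisable size of a nonzero vector -/
lemma exists_max_size [Nonempty α] (R : Perm α →* Module.End ℝ E) {f : E} (hf : f ≠ 0) :
    ∃ A : Finset α, 1 ≤ A.card ∧ ¬ Van R A f ∧ f ∈ Low R A.card := by
  classical
  set P : Finset (Finset α) := Finset.univ.filter (fun A => ¬ Van R A f) with hP
  obtain ⟨y⟩ := (inferInstance : Nonempty α)
  have hy : ({y} : Finset α) ∈ P := by
    rw [hP, Finset.mem_filter]
    exact ⟨Finset.mem_univ _, fun hv => hf (inner_self_eq_zero.1 (hv f (Inv_singleton R y f)))⟩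
  obtain ⟨A, hAP, hAmax⟩ := P.exists_max_image Finset.card ⟨_, hy⟩
  refine ⟨A, by simpa using hAmax _ hy, (Finset.mem_filter.1 hAP).2, fun B hB => ?_⟩
  by_contra hvB
  have := hAmax B (by rw [hP, Finset.mem_filter]; exact ⟨Finset.mem_univ _, hvB⟩)
  omega

/-- bounds on an eigenvalue of `tot` in terms of the largest symmetrisable size -/
lemma tot_eigen_bounds {R : Perm α →* Module.End ℝ E} (hR : OrthRep R) {f : E} {μ : ℝ}
    (hμ : tot R f = μ • f) {A : Finset α} (hA : ¬ Van R A f) (hlow : f ∈ Low R A.card)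
    {m : ℕ} (hm : A.card + m = Fintype.card α) :
    (A.card : ℝ) ^ 2 - (m : ℝ) ^ 2 ≤ μ ∧ μ ≤ (A.card : ℝ) ^ 2 + (m : ℝ) ^ 2 - 2 * m := by
  classical
  set g : E := (Inv R A).starProjection f with hg
  have hg0 : g ≠ 0 := proj_ne_zero hA
  have hgmem : g ∈ Inv R A := Submodule.starProjection_apply_mem _ _
  have hgμ : tot R g = μ • g := by
    rw [hg, ← proj_comm (tot_symm hR) (fun w hw => tot_mem_Inv R hw) f, hμ, map_smul]
  have hgg : 0 < inner ℝ g g := real_inner_self_pos.2 hg0
  have hstar : ∀ y ∈ Aᶜ, ∑ a ∈ A, R (swap a y) g = -g := by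
    intro y hy
    have hyA : y ∉ A := Finset.mem_compl.1 hy
    refine star_eq_neg hR hyA hgmem (van_proj (Inv_mono (Finset.subset_insert y A)) ?_)
    refine hlow _ ?_
    rw [Finset.card_insert_of_notMem hyA]; omega
  have hmc : (Aᶜ.card : ℝ) = m := by
    have : Aᶜ.card = m := by rw [Finset.card_compl]; omega
    exact_mod_cast this
  -- expand the quadratic form
  have hexp : inner ℝ g (tot R g) = (A.card : ℝ) ^ 2 * inner ℝ g g - 2 * m * inner ℝ g g +
      ∑ i ∈ Aᶜ, ∑ j ∈ Aᶜ, inner ℝ g (R (swap i j) g) := by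
    rw [tot_apply, inner_sum, ← Finset.sum_add_sum_compl A]
    have h1 : ∑ i ∈ A, inner ℝ g (∑ j, R (swap i j) g) =
        (A.card : ℝ) ^ 2 * inner ℝ g g - m * inner ℝ g g := by
      have : ∀ i ∈ A, inner ℝ g (∑ j, R (swap i j) g) =
          (A.card : ℝ) * inner ℝ g g + ∑ j ∈ Aᶜ, inner ℝ g (R (swap i j) g) := by
        intro i hi
        rw [inner_sum, ← Finset.sum_add_sum_compl A]
        congr 1
        rw [Finset.sum_congr rfl (fun j hj => by rw [hgmem i hi j hj]), Finset.sum_const,
          nsmul_eq_mul]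
      rw [Finset.sum_congr rfl this, Finset.sum_add_distrib, Finset.sum_const, nsmul_eq_mul,
        Finset.sum_comm]
      have h2 : ∀ j ∈ Aᶜ, ∑ i ∈ A, inner ℝ g (R (swap i j) g) = -inner ℝ g g := by
        intro j hj
        rw [← inner_sum, hstar j hj, inner_neg_right]
      rw [Finset.sum_congr rfl h2, Finset.sum_const, nsmul_eq_mul, hmc]
      ring
    have h3 : ∑ i ∈ Aᶜ, inner ℝ g (∑ j, R (swap i j) g) =
        -(m * inner ℝ g g) + ∑ i ∈ Aᶜ, ∑ j ∈ Aᶜ, inner ℝ g (R (swap i j) g) := by
      have : ∀ i ∈ Aᶜ, inner ℝ g (∑ j, R (swap i j) g) =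
          -inner ℝ g g + ∑ j ∈ Aᶜ, inner ℝ g (R (swap i j) g) := by
        intro i hi
        rw [inner_sum, ← Finset.sum_add_sum_compl A]
        congr 1
        rw [← inner_sum]
        have h4 : ∑ j ∈ A, R (swap i j) g = -g := by
          rw [← hstar i hi]
          exact Finset.sum_congr rfl fun j _ => by rw [swap_comm]
        rw [h4, inner_neg_right]
      rw [Finset.sum_congr rfl this, Finset.sum_add_distrib, Finset.sum_const, nsmul_eq_mul, hmc]
      ring
    rw [h1, h3]
    ring
  -- the remaining double sum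
  have hdiag : ∑ i ∈ Aᶜ, ∑ j ∈ Aᶜ, inner ℝ g (R (swap i j) g) =
      m * inner ℝ g g + ∑ i ∈ Aᶜ, ∑ j ∈ Aᶜ.erase i, inner ℝ g (R (swap i j) g) := by
    have : ∀ i ∈ Aᶜ, ∑ j ∈ Aᶜ, inner ℝ g (R (swap i j) g) =
        inner ℝ g g + ∑ j ∈ Aᶜ.erase i, inner ℝ g (R (swap i j) g) := by
      intro i hi
      rw [← Finset.add_sum_erase _ _ hi, swap_self]
      congr 1
      change inner ℝ g (R 1 g) = _
      rw [map_one]; rfl
    rw [Finset.sum_congr rfl this, Finset.sum_add_distrib, Finset.sum_const, nsmul_eq_mul, hmc]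
  have hrest : |∑ i ∈ Aᶜ, ∑ j ∈ Aᶜ.erase i, inner ℝ g (R (swap i j) g)| ≤
      ((m : ℝ) ^ 2 - m) * inner ℝ g g := by
    calc |∑ i ∈ Aᶜ, ∑ j ∈ Aᶜ.erase i, inner ℝ g (R (swap i j) g)|
        ≤ ∑ i ∈ Aᶜ, ∑ j ∈ Aᶜ.erase i, inner ℝ g g := by
          refine (Finset.abs_sum_le_sum_abs _ _).trans (Finset.sum_le_sum fun i _ => ?_)
          refine (Finset.abs_sum_le_sum_abs _ _).trans (Finset.sum_le_sum fun j _ => ?_)
          exact abs_inner_R_le hR i j g
      _ = ((m : ℝ) ^ 2 - m) * inner ℝ g g := by
          have : ∀ i ∈ Aᶜ, ∑ j ∈ Aᶜ.erase i, inner ℝ g g = ((m : ℝ) - 1) * inner ℝ g g := by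
            intro i hi
            rw [Finset.sum_const, nsmul_eq_mul, Finset.card_erase_of_mem hi]
            have h5 : 1 ≤ Aᶜ.card := Finset.card_pos.2 ⟨i, hi⟩
            rw [Nat.cast_sub h5, hmc, Nat.cast_one]
          rw [Finset.sum_congr rfl this, Finset.sum_const, nsmul_eq_mul, hmc]
          ring
  rw [hgμ, inner_smul_right] at hexp
  rw [hdiag] at hexp
  obtain ⟨hr1, hr2⟩ := abs_le.1 hrest
  constructor
  · by_contra hlt
    push Not at hlt
    have := mul_lt_mul_of_pos_right hlt hgg
    nlinarith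
  · by_contra hlt
    push Not at hlt
    have := mul_lt_mul_of_pos_right hlt hgg
    nlinarith

/-- the star operator with all leaves -/
noncomputable def fullStar (R : Perm α →* Module.End ℝ E) (x : α) : Module.End ℝ E :=
  star R x (Finset.univ.erase x)

lemma fullStar_le {R : Perm α →* Module.End ℝ E} (hR : OrthRep R) {k : ℕ} (hk : 1 ≤ k)
    (x : α) {f : E} (hf : f ∈ Low R k) :
    inner ℝ f (fullStar R x f) ≤ ((k : ℝ) - 1) * inner ℝ f f := by
  by_contra hlt
  push Not at hlt
  set T : Module.End ℝ E := ((k : ℝ) - 1) • (1 : Module.End ℝ E) - fullStar R x with hT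
  have hTs : ∀ u v, inner ℝ (T u) v = inner ℝ u (T v) := by
    intro u v
    simp only [hT, LinearMap.sub_apply, LinearMap.smul_apply, Module.End.one_apply,
      inner_sub_left, inner_sub_right, inner_smul_left, inner_smul_right, RCLike.conj_to_real,
      fullStar, star_symm hR]
  have hTW : ∀ w ∈ Low R k, T w ∈ Low R k := by
    intro w hw
    refine (Low R k).sub_mem ((Low R k).smul_mem _ hw) ?_
    rw [fullStar, star_apply]
    exact (Low R k).sum_mem fun y _ => R_mem_Low hR hw _
  have hneg : inner ℝ f (T f) < 0 := by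
    simp only [hT, LinearMap.sub_apply, LinearMap.smul_apply, Module.End.one_apply,
      inner_sub_right, inner_smul_right]
    linarith
  obtain ⟨t, ht, v, hvW, hv0, hv⟩ := exists_neg_eigen_on hTs hTW hf hneg
  have hstar : star R x (Finset.univ.erase x) v = (((k : ℝ) - 1) - t) • v := by
    rw [sub_smul, ← hv, hT]
    simp only [LinearMap.sub_apply, LinearMap.smul_apply, Module.End.one_apply, fullStar]
    abel
  have := star_eigen_le hR k hk _ (Finset.univ.erase x) rfl x (Finset.notMem_erase x _) v _ hv0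
    hstar (fun B _ hB => hvW B hB)
  linarith

omit [FiniteDimensional ℝ E] in
lemma tot_eq_sum_fullStar (R : Perm α →* Module.End ℝ E) (f : E) :
    tot R f = ∑ x, (f + fullStar R x f) := by
  rw [tot_apply]
  refine Finset.sum_congr rfl fun x _ => ?_
  rw [fullStar, star_apply, ← Finset.add_sum_erase _ _ (Finset.mem_univ x), swap_self]
  congr 1
  change R 1 f = f
  rw [map_one]; rfl

/-- the size of the spectral bound on level `j` -/
noncomputable def lev (n j : ℕ) : ℝ := j * max ((n : ℝ) - j) ((n : ℝ) / 2)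

/-- Lower bound for the mean field Laplacian `n² - tot` on vectors of level at least `j`. -/
lemma lap_lower [Nonempty α] {R : Perm α →* Module.End ℝ E} (hR : OrthRep R) {k j : ℕ}
    (hkj : k + j = Fintype.card α) {f : E} (hf : f ∈ Low R k) :
    2 * lev (Fintype.card α) j * inner ℝ f f ≤
      (Fintype.card α : ℝ) ^ 2 * inner ℝ f f - inner ℝ f (tot R f) := by
  set n := Fintype.card α with hn
  by_contra hlt
  push Not at hlt
  set T : Module.End ℝ E := ((n : ℝ) ^ 2 - 2 * lev n j) • (1 : Module.End ℝ E) - tot R with hT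
  have hTs : ∀ u v, inner ℝ (T u) v = inner ℝ u (T v) := by
    intro u v
    simp only [hT, LinearMap.sub_apply, LinearMap.smul_apply, Module.End.one_apply,
      inner_sub_left, inner_sub_right, inner_smul_left, inner_smul_right, RCLike.conj_to_real,
      tot_symm hR]
  have hTW : ∀ w ∈ Low R k, T w ∈ Low R k := by
    intro w hw
    refine (Low R k).sub_mem ((Low R k).smul_mem _ hw) ?_
    rw [tot_apply]
    exact (Low R k).sum_mem fun i _ => (Low R k).sum_mem fun y _ => R_mem_Low hR hw _
  have hneg : inner ℝ f (T f) < 0 := by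
    simp only [hT, LinearMap.sub_apply, LinearMap.smul_apply, Module.End.one_apply,
      inner_sub_right, inner_smul_right]
    linarith
  obtain ⟨t, ht, v, hvW, hv0, hv⟩ := exists_neg_eigen_on hTs hTW hf hneg
  have hμ : tot R v = ((n : ℝ) ^ 2 - 2 * lev n j - t) • v := by
    rw [sub_smul, ← hv, hT]
    simp only [LinearMap.sub_apply, LinearMap.smul_apply, Module.End.one_apply]
    abel
  obtain ⟨A, hA1, hAv, hAlow⟩ := exists_max_size R hv0
  have hAle : A.card ≤ n := Finset.card_le_univ A
  obtain ⟨m, hm⟩ : ∃ m, A.card + m = n := ⟨n - A.card, by omega⟩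
  have hAk : A.card ≤ k := by
    by_contra hcard
    push Not at hcard
    exact hAv (hvW A hcard)
  have hmj : j ≤ m := by omega
  obtain ⟨_, hup⟩ := tot_eigen_bounds hR hμ hAv hAlow hm
  have hvv : 0 < inner ℝ v v := real_inner_self_pos.2 hv0
  -- bound through the stars
  have hst : (n : ℝ) ^ 2 - 2 * lev n j - t ≤ n * A.card := by
    have h1 : inner ℝ v (tot R v) = ((n : ℝ) ^ 2 - 2 * lev n j - t) * inner ℝ v v := by
      rw [hμ, inner_smul_right]
    have h2 : inner ℝ v (tot R v) ≤ (n * A.card : ℝ) * inner ℝ v v := by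
      rw [tot_eq_sum_fullStar, inner_sum]
      calc ∑ x, inner ℝ v (v + fullStar R x v) ≤ ∑ _x : α, (A.card : ℝ) * inner ℝ v v := by
            refine Finset.sum_le_sum fun x _ => ?_
            rw [inner_add_right]
            have := fullStar_le hR hA1 x hAlow
            linarith
        _ = (n * A.card : ℝ) * inner ℝ v v := by
            rw [Finset.sum_const, Finset.card_univ, nsmul_eq_mul]; ring
    rw [h1] at h2
    exact le_of_mul_le_mul_right h2 hvv
  have hnr : (n : ℝ) = A.card + m := by rw [← hm]; push_cast; ring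
  have hjr : (j : ℝ) ≤ m := by exact_mod_cast hmj
  have hj0 : (0 : ℝ) ≤ j := Nat.cast_nonneg j
  have hA0 : (1 : ℝ) ≤ A.card := by exact_mod_cast hA1
  have hm0 : (0 : ℝ) ≤ m := Nat.cast_nonneg m
  -- two lower bounds for `2 lev`
  have b1 : 2 * (m : ℝ) * (A.card + 1) < 2 * lev n j := by nlinarith
  have b2 : (n : ℝ) * m < 2 * lev n j := by nlinarith
  rw [lev] at b1 b2
  rcases le_total ((n : ℝ) - j) ((n : ℝ) / 2) with h | h
  · rw [max_eq_right h] at b2
    nlinarith
  · rw [max_eq_left h] at b1 b2
    have hn0 : (0 : ℝ) ≤ n := Nat.cast_nonneg n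
    rcases le_total (m : ℝ) ((n : ℝ) / 2) with h' | h'
    · nlinarith
    · nlinarith [sq_nonneg ((n : ℝ) - 2 * j)]

/-- The uniform octopus inequality. -/
lemma octopus [Nonempty α] {R : Perm α →* Module.End ℝ E} (hR : OrthRep R) (x : α) (f : E) :
    (Fintype.card α : ℝ) ^ 2 * inner ℝ f f - inner ℝ f (tot R f) ≤
      2 * Fintype.card α * (((Fintype.card α : ℝ) - 1) * inner ℝ f f
        - inner ℝ f (fullStar R x f)) := by
  set n := Fintype.card α with hn
  by_contra hlt
  push Not at hlt
  set T : Module.End ℝ E := ((2 * (n : ℝ) * ((n : ℝ) - 1) - (n : ℝ) ^ 2)) • (1 : Module.End ℝ E)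
    - (2 * (n : ℝ)) • fullStar R x + tot R with hT
  have hTs : ∀ u v, inner ℝ (T u) v = inner ℝ u (T v) := by
    intro u v
    simp only [hT, LinearMap.sub_apply, LinearMap.add_apply, LinearMap.smul_apply,
      Module.End.one_apply, inner_sub_left, inner_sub_right, inner_add_left, inner_add_right,
      inner_smul_left, inner_smul_right, RCLike.conj_to_real, tot_symm hR, fullStar,
      star_symm hR]
  have hneg : inner ℝ f (T f) < 0 := by
    simp only [hT, LinearMap.sub_apply, LinearMap.add_apply, LinearMap.smul_apply,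
      Module.End.one_apply, inner_sub_right, inner_add_right, inner_smul_right]
    linarith
  obtain ⟨t, ht, v, -, hv0, hv⟩ := exists_neg_eigen_on (W := ⊤) hTs (fun _ _ => Submodule.mem_top)
    (Submodule.mem_top : f ∈ (⊤ : Submodule ℝ E)) hneg
  -- `tot` commutes with `T`
  have hcomm : ∀ u, tot R (T u) = T (tot R u) := by
    intro u
    simp only [hT, LinearMap.sub_apply, LinearMap.add_apply, LinearMap.smul_apply,
      Module.End.one_apply, map_add, map_sub, map_smul]
    congr 3
    rw [fullStar, star_apply, star_apply, map_sum]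
    exact Finset.sum_congr rfl fun y _ => (tot_comm R _ u).symm
  set W : Submodule ℝ E := Module.End.eigenspace T t with hW
  have hvW : v ∈ W := Module.End.mem_eigenspace_iff.2 hv
  have hWinv : ∀ w ∈ W, tot R w ∈ W := by
    intro w hw
    rw [hW, Module.End.mem_eigenspace_iff] at hw ⊢
    rw [← hcomm, hw, map_smul]
  obtain ⟨μ, u, huW, hu0, hu⟩ := exists_eigen_in (tot_symm hR) hWinv hvW hv0
  rw [hW, Module.End.mem_eigenspace_iff] at huW
  obtain ⟨A, hA1, hAv, hAlow⟩ := exists_max_size R hu0
  have hAle : A.card ≤ n := Finset.card_le_univ A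
  obtain ⟨m, hm⟩ : ∃ m, A.card + m = n := ⟨n - A.card, by omega⟩
  obtain ⟨hlo, _⟩ := tot_eigen_bounds hR hu hAv hAlow hm
  have hn1 : (1 : ℝ) ≤ n := by
    have : 1 ≤ n := hA1.trans hAle
    exact_mod_cast this
  have huu : 0 < inner ℝ u u := real_inner_self_pos.2 hu0
  have hfs := fullStar_le hR hA1 x hAlow
  have h1 : inner ℝ u (T u) = t * inner ℝ u u := by rw [huW, inner_smul_right]
  simp only [hT, LinearMap.sub_apply, LinearMap.add_apply, LinearMap.smul_apply,
      Module.End.one_apply, inner_sub_right, inner_add_right, inner_smul_right, hu] at h1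
  have hnr : (n : ℝ) = A.card + m := by rw [← hm]; push_cast; ring
  have h2 : 0 ≤ t * inner ℝ u u := by
    rw [← h1]
    have h3 : (2 * (n : ℝ)) * inner ℝ u (fullStar R x u) ≤
        (2 * (n : ℝ)) * (((A.card : ℝ) - 1) * inner ℝ u u) := by gcongr
    have h4 : ((A.card : ℝ) ^ 2 - (m : ℝ) ^ 2) * inner ℝ u u ≤ μ * inner ℝ u u := by gcongr
    have h5 : (2 * (n : ℝ) * ((n : ℝ) - 1) - (n : ℝ) ^ 2) * inner ℝ u u
        - (2 * (n : ℝ)) * (((A.card : ℝ) - 1) * inner ℝ u u)
        + ((A.card : ℝ) ^ 2 - (m : ℝ) ^ 2) * inner ℝ u u = 0 := by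
      rw [hnr]; ring
    linarith
  have h3 : t * inner ℝ u u < 0 := mul_neg_of_neg_of_pos ht huu
  linarith

end Lap

end Pool.Agent.Lib.MP_8c2010_pr
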