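import Pool.Agent.Lib.MP_8c2010_pr.L2

set_option autoImplicit false
set_option linter.unusedSectionVars false

/-! # One step operators with product weights -/

namespace Pool.Agent.Lib.MP_8c2010_pr

open Equiv Finset

variable {β : Type*} [Fintype β] [DecidableEq β]

/-- quadratic form bound for product weights on vectors of level at least `a` -/
lemma quad_le [Nonempty β] {w : β → ℝ} {m : ℝ} (hm0 : 0 ≤ m) (hm : ∀ c, m ≤ w c) {k a : ℕ}
    (hka : k + a = Fintype.card β) {f : EE β} (hf : f ∈ Low (Lr (β := β)) k) :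
    ∑ c, ∑ c', w c * w c' * inner ℝ f (Lr (swap c c') f) ≤
      ((∑ c, w c) ^ 2 - 2 * m * (∑ c, w c) / Fintype.card β * lev (Fintype.card β) a) *
        inner ℝ f f := by
  set n := Fintype.card β with hn
  have hnpos : (0 : ℝ) < n := by rw [hn]; exact_mod_cast Fintype.card_pos
  set T := (n : ℝ) ^ 2 * inner ℝ f f - inner ℝ f (tot Lr f) with hT
  set D : β → β → ℝ := fun c c' => inner ℝ f f - inner ℝ f (Lr (swap c c') f) with hD
  have hD0 : ∀ c c', 0 ≤ D c c' := by
    intro c c'
    have h1 := abs_inner_R_le orth_Lr c c' f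
    have h2 := le_abs_self (inner ℝ f (Lr (swap c c') f))
    simp only [hD]; linarith
  have hDs : ∀ c c', D c c' = D c' c := by
    intro c c'; simp only [hD]; rw [swap_comm]
  have hrow : ∀ c, T / (2 * n) ≤ ∑ c', D c c' := by
    intro c
    have h1 := octopus orth_Lr c f
    rw [← hn, ← hT] at h1
    have h2 : ∑ c', D c c' = ((n : ℝ) - 1) * inner ℝ f f - inner ℝ f (fullStar Lr c f) := by
      simp only [hD]
      rw [Finset.sum_sub_distrib, Finset.sum_const, Finset.card_univ, nsmul_eq_mul, ← hn,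
        fullStar, star_apply, inner_sum, ← Finset.add_sum_erase _ _ (Finset.mem_univ c), swap_self]
      have h3 : inner ℝ f (Lr (Equiv.refl β) f) = inner ℝ f f := by
        change inner ℝ f (Lr 1 f) = _
        rw [map_one]; rfl
      rw [h3]; ring
    rw [h2, div_le_iff₀ (by positivity)]
    linarith
  have htot : ∑ c, ∑ c', D c c' = T := by
    simp only [hD, Finset.sum_sub_distrib, Finset.sum_const, Finset.card_univ, nsmul_eq_mul, ← hn,
      hT, tot_apply, inner_sum]
    ring
  have hlap := lap_lower orth_Lr hka hf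
  rw [← hn, ← hT] at hlap
  have hmain : m * (∑ c, w c) / n * T ≤ ∑ c, ∑ c', w c * w c' * D c c' := by
    have e1 : ∑ c, ∑ c', (m ^ 2 + m * (w c - m) + m * (w c' - m)) * D c c' ≤
        ∑ c, ∑ c', w c * w c' * D c c' := by
      refine Finset.sum_le_sum fun c _ => Finset.sum_le_sum fun c' _ => ?_
      refine mul_le_mul_of_nonneg_right ?_ (hD0 c c')
      have h1 := hm c
      have h2 := hm c'
      nlinarith [mul_nonneg (sub_nonneg.2 h1) (sub_nonneg.2 h2)]
    have e2 : ∑ c, ∑ c', (m ^ 2 + m * (w c - m) + m * (w c' - m)) * D c c' =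
        m ^ 2 * T + 2 * ∑ c, m * (w c - m) * ∑ c', D c c' := by
      have e3 : ∀ c, ∑ c', (m ^ 2 + m * (w c - m) + m * (w c' - m)) * D c c' =
          m ^ 2 * ∑ c', D c c' + m * (w c - m) * ∑ c', D c c' +
            ∑ c', m * (w c' - m) * D c c' := by
        intro c
        rw [Finset.mul_sum, Finset.mul_sum, ← Finset.sum_add_distrib, ← Finset.sum_add_distrib]
        exact Finset.sum_congr rfl fun c' _ => by ring
      rw [Finset.sum_congr rfl fun c _ => e3 c, Finset.sum_add_distrib, Finset.sum_add_distrib,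
        ← Finset.mul_sum, htot]
      have e4 : ∑ c, ∑ c', m * (w c' - m) * D c c' = ∑ c, m * (w c - m) * ∑ c', D c c' := by
        rw [Finset.sum_comm]
        refine Finset.sum_congr rfl fun c _ => ?_
        rw [Finset.mul_sum]
        exact Finset.sum_congr rfl fun c' _ => by rw [hDs]
      rw [e4]; ring
    have e5 : ∑ c, m * (w c - m) * (T / (2 * n)) ≤ ∑ c, m * (w c - m) * ∑ c', D c c' := by
      refine Finset.sum_le_sum fun c _ => ?_
      exact mul_le_mul_of_nonneg_left (hrow c) (mul_nonneg hm0 (sub_nonneg.2 (hm c)))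
    have e6 : ∑ c, m * (w c - m) * (T / (2 * n)) =
        m * ((∑ c, w c) - n * m) * (T / (2 * n)) := by
      rw [← Finset.sum_mul, ← Finset.mul_sum, Finset.sum_sub_distrib, Finset.sum_const,
        Finset.card_univ, nsmul_eq_mul, ← hn]
    have e7 : m * (∑ c, w c) / n * T =
        m ^ 2 * T + 2 * (m * ((∑ c, w c) - n * m) * (T / (2 * n))) := by
      field_simp
      ring
    rw [e7, ← e6]
    linarith
  have hexp : ∑ c, ∑ c', w c * w c' * D c c' = (∑ c, w c) ^ 2 * inner ℝ f f -
      ∑ c, ∑ c', w c * w c' * inner ℝ f (Lr (swap c c') f) := by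
    simp only [hD, mul_sub, Finset.sum_sub_distrib]
    congr 1
    rw [sq, Finset.sum_mul_sum, Finset.sum_mul]
    exact Finset.sum_congr rfl fun c _ => by rw [Finset.sum_mul]
  have hws : 0 ≤ m * (∑ c, w c) / n := by
    have : 0 ≤ ∑ c, w c := Finset.sum_nonneg fun c _ => hm0.trans (hm c)
    positivity
  have h8 := mul_le_mul_of_nonneg_left hlap hws
  rw [hexp] at hmain
  have h9 : m * (∑ c, w c) / n * (2 * lev n a * inner ℝ f f) =
      2 * m * (∑ c, w c) / n * lev n a * inner ℝ f f := by ring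
  rw [h9] at h8
  linarith

/-- the normalised one step operator -/
noncomputable def SP (w : β → ℝ) (e : ℝ) : Module.End ℝ (EE β) :=
  (1 / ((∑ c, w c) ^ 2 + e)) •
    ((∑ c, ∑ c', (w c * w c') • Lr (swap c c')) + e • (1 : Module.End ℝ (EE β)))

lemma SP_apply (w : β → ℝ) (e : ℝ) (f : EE β) :
    SP w e f = (1 / ((∑ c, w c) ^ 2 + e)) •
      ((∑ c, ∑ c', (w c * w c') • Lr (swap c c') f) + e • f) := by
  simp only [SP, LinearMap.smul_apply, LinearMap.add_apply, LinearMap.sum_apply,
    Module.End.one_apply]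

lemma SP_symm (w : β → ℝ) (e : ℝ) (x y : EE β) :
    inner ℝ (SP w e x) y = inner ℝ x (SP w e y) := by
  simp only [SP_apply, inner_smul_left, inner_smul_right, inner_add_left, inner_add_right,
    sum_inner, inner_sum, conj_trivial, orth_Lr.swap_adj]

lemma SP_mem_WW (w : β → ℝ) (e : ℝ) {a : ℕ} {f : EE β} (hf : f ∈ WW β a) :
    SP w e f ∈ WW β a := by
  rw [SP_apply]
  refine Submodule.smul_mem _ _ (Submodule.add_mem _ (Submodule.sum_mem _ fun c _ =>
    Submodule.sum_mem _ fun c' _ => Submodule.smul_mem _ _ (Lr_mem_WW hf _))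
    (Submodule.smul_mem _ _ hf))

/-- bound on the quadratic form implies a bound on the operator -/
lemma norm_le_of_quad {T : Module.End ℝ (EE β)} (hT : ∀ x y, inner ℝ (T x) y = inner ℝ x (T y))
    {W : Submodule ℝ (EE β)} (hW : ∀ w ∈ W, T w ∈ W) {c : ℝ}
    (hc : ∀ f ∈ W, |inner ℝ f (T f)| ≤ c * inner ℝ f f) {f : EE β} (hf : f ∈ W) :
    ‖T f‖ ≤ c * ‖f‖ := by
  by_cases h0 : T f = 0
  · rw [h0, norm_zero]
    by_cases hf0 : f = 0
    · rw [hf0, norm_zero, mul_zero]
    · have h1 := hc f hf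
      have h2 : 0 < inner ℝ f f := real_inner_self_pos.2 hf0
      have h3 : 0 ≤ c := by
        by_contra hneg
        push Not at hneg
        have := mul_neg_of_neg_of_pos hneg h2
        have := abs_nonneg (inner ℝ f (T f))
        linarith
      positivity
  · have hTf : 0 < ‖T f‖ := norm_pos_iff.2 h0
    have hf0 : f ≠ 0 := fun e => h0 (by rw [e, map_zero])
    have hfpos : 0 < ‖f‖ := norm_pos_iff.2 hf0
    set l : ℝ := ‖f‖ / ‖T f‖ with hl
    set g : EE β := l • T f with hg
    have hgW : g ∈ W := W.smul_mem _ (hW f hf)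
    have e1 : 4 * inner ℝ (T f) g = inner ℝ (f + g) (T (f + g)) - inner ℝ (f - g) (T (f - g)) := by
      rw [map_add, map_sub, inner_add_left, inner_add_right, inner_add_right, inner_sub_left,
        inner_sub_right, inner_sub_right]
      have h1 : inner ℝ f (T g) = inner ℝ (T f) g := (hT f g).symm
      have h2 : inner ℝ g (T f) = inner ℝ (T f) g := real_inner_comm _ _
      rw [h1, h2]; ring
    have e2 := (abs_le.1 (hc (f + g) (W.add_mem hf hgW))).2
    have e3 := (abs_le.1 (hc (f - g) (W.sub_mem hf hgW))).1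
    have e4 : inner ℝ (f + g) (f + g) + inner ℝ (f - g) (f - g) =
        2 * (‖f‖ ^ 2 + ‖g‖ ^ 2) := by
      rw [inner_add_left, inner_add_right, inner_add_right, inner_sub_left,
        inner_sub_right, inner_sub_right, real_inner_self_eq_norm_sq, real_inner_self_eq_norm_sq]
      ring
    have e5 : ‖g‖ = ‖f‖ := by
      rw [hg, norm_smul, Real.norm_eq_abs, abs_of_nonneg (by positivity), hl,
        div_mul_cancel₀ _ hTf.ne']
    have e6 : inner ℝ (T f) g = ‖f‖ * ‖T f‖ := by
      rw [hg, inner_smul_right, real_inner_self_eq_norm_sq, hl]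
      field_simp
    rw [e5] at e4
    rw [e6] at e1
    have e4' : c * inner ℝ (f + g) (f + g) + c * inner ℝ (f - g) (f - g) =
        4 * (c * ‖f‖ ^ 2) := by
      rw [← mul_add, e4]; ring
    have e7 : 4 * (‖f‖ * ‖T f‖) ≤ 4 * (c * ‖f‖ ^ 2) := by linarith
    have e8 : ‖f‖ * ‖T f‖ ≤ ‖f‖ * (c * ‖f‖) := by nlinarith
    exact le_of_mul_le_mul_left e8 hfpos

lemma inner_Us_Lr_swap (c c' : β) (f : EE β) :
    inner ℝ f (Lr (swap c c') f) = (if c = c' then 1 else -1) *
      inner ℝ (Us f) (Lr (swap c c') (Us f)) := by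
  have h1 : Lr (swap c c') (Us f) =
      ((Perm.sign (swap c c') : ℤ) : ℝ) • Us (Lr (swap c c') f) := by
    rw [Us_Lr, smul_smul, sign_mul_self, one_smul]
  rw [h1, inner_smul_right, inner_Us, Us_Us]
  by_cases hcc : c = c'
  · subst hcc
    simp
  · rw [if_neg hcc, Perm.sign_swap hcc]
    simp

/-- norm bound for the step operator on `WW a` -/
lemma SP_norm_le [Nonempty β] {w : β → ℝ} {m e : ℝ} (hm0 : 0 ≤ m) (hm : ∀ c, m ≤ w c)
    (he : 0 ≤ e) (hW : 0 < (∑ c, w c) ^ 2 + e) {a : ℕ} (ha : a ≤ Fintype.card β) {f : EE β}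
    (hf : f ∈ WW β a) :
    ‖SP w e f‖ ≤ (1 - 2 * m * (∑ c, w c) / (Fintype.card β * ((∑ c, w c) ^ 2 + e)) *
      lev (Fintype.card β) a) * ‖f‖ := by
  set n := Fintype.card β with hn
  have hnpos : (0 : ℝ) < n := by rw [hn]; exact_mod_cast Fintype.card_pos
  set W := (∑ c, w c) ^ 2 + e with hWdef
  refine norm_le_of_quad (SP_symm w e) (fun x hx => SP_mem_WW w e hx) ?_ hf
  intro g hg
  obtain ⟨hg1, hg2⟩ := mem_WW.1 hg
  have hka : (Fintype.card β - a) + a = Fintype.card β := Nat.sub_add_cancel ha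
  have q1 := quad_le hm0 hm hka hg1
  have q2 := quad_le hm0 hm hka hg2
  rw [← hn] at q1 q2
  have hUU : inner ℝ (Us g) (Us g) = inner ℝ g g := by rw [inner_Us, Us_Us]
  rw [hUU] at q2
  set κ := 2 * m * (∑ c, w c) / n * lev n a with hκ
  have hexp : inner ℝ g (SP w e g) = (1 / W) *
      (∑ c, ∑ c', w c * w c' * inner ℝ g (Lr (swap c c') g) + e * inner ℝ g g) := by
    rw [SP_apply, inner_smul_right, inner_add_right, inner_sum, inner_smul_right]
    congr 2
    refine Finset.sum_congr rfl fun c _ => ?_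
    rw [inner_sum]
    exact Finset.sum_congr rfl fun c' _ => inner_smul_right _ _ _
  have htarget : (1 - 2 * m * (∑ c, w c) / (n * W) * lev n a) * inner ℝ g g =
      (1 / W) * ((W - κ) * inner ℝ g g) := by
    rw [hκ]; field_simp
  have hgg : 0 ≤ inner ℝ g g := real_inner_self_nonneg
  have hWinv : 0 ≤ 1 / W := by positivity
  rw [hexp, htarget, abs_mul, abs_of_nonneg hWinv]
  refine mul_le_mul_of_nonneg_left ?_ hWinv
  rw [abs_le]
  constructor
  · -- lower bound through the sign twist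
    have e1 : ∑ c, ∑ c', w c * w c' * inner ℝ g (Lr (swap c c') g) =
        -(∑ c, ∑ c', w c * w c' * inner ℝ (Us g) (Lr (swap c c') (Us g))) +
        2 * (∑ c, (w c) ^ 2) * inner ℝ g g := by
      have e2 : ∀ c c', w c * w c' * inner ℝ g (Lr (swap c c') g) =
          -(w c * w c' * inner ℝ (Us g) (Lr (swap c c') (Us g))) +
          (if c = c' then 2 * (w c * w c') * inner ℝ g g else 0) := by
        intro c c'
        rw [inner_Us_Lr_swap]
        by_cases hcc : c = c'
        · subst hcc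
          rw [if_pos rfl, if_pos rfl, swap_self]
          have h3 : inner ℝ (Us g) (Lr (Equiv.refl β) (Us g)) = inner ℝ g g := by
            change inner ℝ (Us g) (Lr 1 (Us g)) = _
            rw [map_one]; exact hUU
          rw [h3]; ring
        · rw [if_neg hcc, if_neg hcc]; ring
      simp only [e2, Finset.sum_add_distrib, Finset.sum_neg_distrib]
      congr 1
      have e3 : ∀ c, ∑ c', (if c = c' then 2 * (w c * w c') * inner ℝ g g else 0) =
          2 * (w c) ^ 2 * inner ℝ g g := by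
        intro c
        rw [Finset.sum_ite_eq, if_pos (Finset.mem_univ _)]; ring
      rw [Finset.sum_congr rfl fun c _ => e3 c, Finset.mul_sum, Finset.sum_mul]
    rw [e1]
    have e4 : 0 ≤ 2 * (∑ c, (w c) ^ 2) * inner ℝ g g := by
      have : 0 ≤ ∑ c, (w c) ^ 2 := Finset.sum_nonneg fun c _ => sq_nonneg _
      positivity
    have e5 : 0 ≤ e * inner ℝ g g := by positivity
    have e6 : (W - κ) * inner ℝ g g = ((∑ c, w c) ^ 2 - κ) * inner ℝ g g + e * inner ℝ g g := by
      rw [hWdef]; ring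
    rw [e6]
    linarith
  · have e6 : (W - κ) * inner ℝ g g = ((∑ c, w c) ^ 2 - κ) * inner ℝ g g + e * inner ℝ g g := by
      rw [hWdef]; ring
    rw [e6]
    linarith

lemma Lr_one1 (g : Perm β) : Lr g (one1 β) = one1 β := by ext h; rfl

lemma Lr_sg1 (g : Perm β) : Lr g (sg1 β) = ((Perm.sign g : ℤ) : ℝ) • sg1 β := by
  ext h
  rw [Lr_apply, PiLp.smul_apply, sg1_apply, sg1_apply, Perm.sign_mul, Perm.sign_inv, smul_eq_mul]
  push_cast
  ring

lemma SP_one1 {w : β → ℝ} {e : ℝ} (hW : 0 < (∑ c, w c) ^ 2 + e) :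
    SP w e (one1 β) = one1 β := by
  rw [SP_apply]
  simp only [Lr_one1]
  have h1 : ∑ c, ∑ c', (w c * w c') • one1 β = ((∑ c, w c) ^ 2) • one1 β := by
    simp only [← Finset.sum_smul]
    rw [sq, Finset.sum_mul_sum]
  rw [h1, ← add_smul, smul_smul, one_div, inv_mul_cancel₀ hW.ne', one_smul]

lemma SP_sg1 (w : β → ℝ) (e : ℝ) :
    SP w e (sg1 β) = ((2 * (∑ c, (w c) ^ 2) + e - (∑ c, w c) ^ 2) /
      ((∑ c, w c) ^ 2 + e)) • sg1 β := by
  rw [SP_apply]
  simp only [Lr_sg1, smul_smul]
  have h1 : ∑ c, ∑ c', (w c * w c' * ((Perm.sign (swap c c') : ℤ) : ℝ)) • sg1 β =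
      (2 * (∑ c, (w c) ^ 2) - (∑ c, w c) ^ 2) • sg1 β := by
    simp only [← Finset.sum_smul]
    congr 1
    have h2 : ∀ c c', w c * w c' * ((Perm.sign (swap c c') : ℤ) : ℝ) =
        (if c = c' then 2 * (w c * w c') else 0) - w c * w c' := by
      intro c c'
      by_cases hcc : c = c'
      · subst hcc; simp; ring
      · rw [if_neg hcc, Perm.sign_swap hcc]; simp
    simp only [h2, Finset.sum_sub_distrib]
    have e3 : ∀ c, ∑ c', (if c = c' then 2 * (w c * w c') else 0) = 2 * (w c) ^ 2 := by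
      intro c
      rw [Finset.sum_ite_eq, if_pos (Finset.mem_univ _)]; ring
    rw [Finset.sum_congr rfl fun c _ => e3 c, ← Finset.mul_sum, sq (∑ c, w c),
      Finset.sum_mul_sum]
  rw [h1, ← add_smul, smul_smul]
  congr 1
  ring

end Pool.Agent.Lib.MP_8c2010_pr
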