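import Pool.Agent.Lib.MP_8c2010_pr.Hybrid
import Pool.Agent.Lib.MP_8c2010_pr.Moments
import Pool.Agent.Lib.MP_8c2010_pr.Bulk
import Pool.Agent.Lib.MP_8c2010_pr.Numeric

set_option autoImplicit false
set_option linter.unusedSectionVars false

/-! # Explicit upper bound after time `(1+δ)τ` -/

namespace Pool.Agent.Lib.MP_8c2010_pr

open Equiv Finset

variable {α : Type*} [Fintype α] [DecidableEq α]

section tau

variable {p : α → ℝ} {c C τ : ℝ}

lemma tau_nonneg (hn : 2 ≤ Fintype.card α) (hp : ∀ i, 0 < p i)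
    (hτ : ∑ i, Real.exp (-(2 * p i * τ)) = 1) : 0 ≤ τ := by
  by_contra hneg
  push Not at hneg
  have h1 : ∀ i : α, (1 : ℝ) ≤ Real.exp (-(2 * p i * τ)) := by
    intro i
    rw [Real.one_le_exp_iff]
    nlinarith [hp i, mul_pos (hp i) (neg_pos.2 hneg)]
  have h2 : ∑ _i : α, (1 : ℝ) ≤ 1 :=
    (Finset.sum_le_sum fun i _ => h1 i).trans hτ.le
  rw [Finset.sum_const, Finset.card_univ, nsmul_eq_mul, mul_one] at h2
  have h3 : (2 : ℝ) ≤ Fintype.card α := by exact_mod_cast hn
  linarith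

lemma tau_lower (hn : 2 ≤ Fintype.card α) (hC : 0 < C) (hp : ∀ i, 0 < p i)
    (hpC : ∀ i, p i ≤ C / Fintype.card α)
    (hτ : ∑ i, Real.exp (-(2 * p i * τ)) = 1) :
    (Fintype.card α : ℝ) * Real.log (Fintype.card α) / (2 * C) ≤ τ := by
  have hτ0 := tau_nonneg hn hp hτ
  have hN : (0 : ℝ) < Fintype.card α := by
    have : (2 : ℝ) ≤ Fintype.card α := by exact_mod_cast hn
    linarith
  have h1 : ∀ i : α, Real.exp (-(2 * (C / Fintype.card α) * τ)) ≤
      Real.exp (-(2 * p i * τ)) := by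
    intro i
    rw [Real.exp_le_exp]
    have := mul_le_mul_of_nonneg_right (hpC i) hτ0
    linarith
  have h2 : ∑ _i : α, Real.exp (-(2 * (C / Fintype.card α) * τ)) ≤ 1 := by
    rw [← hτ]; exact Finset.sum_le_sum fun i _ => h1 i
  rw [Finset.sum_const, Finset.card_univ, nsmul_eq_mul] at h2
  nth_rw 1 [← Real.exp_log hN] at h2
  rw [← Real.exp_add, Real.exp_le_one_iff] at h2
  rw [div_le_iff₀ (by positivity)]
  have h3 : Real.log (Fintype.card α) ≤ 2 * (C / Fintype.card α) * τ := by linarith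
  calc (Fintype.card α : ℝ) * Real.log (Fintype.card α)
      ≤ Fintype.card α * (2 * (C / Fintype.card α) * τ) :=
        mul_le_mul_of_nonneg_left h3 hN.le
    _ = τ * (2 * C) := by field_simp

lemma tau_upper (hn : 2 ≤ Fintype.card α) (hc : 0 < c) (hp : ∀ i, 0 < p i)
    (hpc : ∀ i, c / Fintype.card α ≤ p i)
    (hτ : ∑ i, Real.exp (-(2 * p i * τ)) = 1) :
    τ ≤ (Fintype.card α : ℝ) * Real.log (Fintype.card α) / (2 * c) := by
  have hτ0 := tau_nonneg hn hp hτ
  have hN : (0 : ℝ) < Fintype.card α := by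
    have : (2 : ℝ) ≤ Fintype.card α := by exact_mod_cast hn
    linarith
  have h1 : ∀ i : α, Real.exp (-(2 * p i * τ)) ≤
      Real.exp (-(2 * (c / Fintype.card α) * τ)) := by
    intro i
    rw [Real.exp_le_exp]
    have := mul_le_mul_of_nonneg_right (hpc i) hτ0
    linarith
  have h2 : 1 ≤ ∑ _i : α, Real.exp (-(2 * (c / Fintype.card α) * τ)) := by
    rw [← hτ]; exact Finset.sum_le_sum fun i _ => h1 i
  rw [Finset.sum_const, Finset.card_univ, nsmul_eq_mul] at h2
  nth_rw 1 [← Real.exp_log hN] at h2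
  rw [← Real.exp_add, Real.one_le_exp_iff] at h2
  rw [le_div_iff₀ (by positivity)]
  have h3 : 2 * (c / Fintype.card α) * τ ≤ Real.log (Fintype.card α) := by linarith
  calc τ * (2 * c) = Fintype.card α * (2 * (c / Fintype.card α) * τ) := by field_simp
    _ ≤ (Fintype.card α : ℝ) * Real.log (Fintype.card α) :=
        mul_le_mul_of_nonneg_left h3 hN.le

end tau

/-- the slow sites are few -/
lemma card_slow {p : α → ℝ} {τ m δ L : ℝ} {t : ℕ} (hδ : 0 < δ) (hτ0 : 0 ≤ τ)
    (hτ : ∑ i, Real.exp (-(2 * p i * τ)) = 1) (hm : 0 < m)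
    (hmt : 2 * (m * t) = (1 + δ / 2) * L) (ht : (1 + δ) * τ ≤ t)
    {S : Finset α} (hS : ∀ z ∈ S, p z < m) :
    (S.card : ℝ) ≤ Real.exp ((1 + δ / 2) / (1 + δ) * L) := by
  have h1 : ∀ z ∈ S, Real.exp (-((1 + δ / 2) / (1 + δ) * L)) ≤ Real.exp (-(2 * p z * τ)) := by
    intro z hz
    rw [Real.exp_le_exp, neg_le_neg_iff]
    have h2 : p z * τ ≤ m * τ := mul_le_mul_of_nonneg_right (hS z hz).le hτ0
    have h3 : m * ((1 + δ) * τ) ≤ m * t := mul_le_mul_of_nonneg_left ht hm.le
    rw [div_mul_eq_mul_div, le_div_iff₀ (by positivity), ← hmt]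
    nlinarith
  have h2 : ∑ _z ∈ S, Real.exp (-((1 + δ / 2) / (1 + δ) * L)) ≤ 1 :=
    ((Finset.sum_le_sum h1).trans
      (Finset.sum_le_sum_of_subset_of_nonneg (Finset.subset_univ _) fun _ _ _ =>
        (Real.exp_pos _).le)).trans hτ.le
  rw [Finset.sum_const, nsmul_eq_mul, Real.exp_neg, ← div_eq_mul_inv,
    div_le_one (Real.exp_pos _)] at h2
  exact h2

/-- the slow mass at time `t` -/
lemma Lam_small {p : α → ℝ} {τ m δ η L D : ℝ} {t : ℕ} (hδ : 0 < δ) (hδ1 : δ ≤ 1) (hτ0 : 0 ≤ τ)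
    (hp : ∀ i, 0 < p i) (hτ : ∑ i, Real.exp (-(2 * p i * τ)) = 1)
    (ht : (1 + δ) * τ ≤ t) (hη : η ≤ δ / 16)
    (hD : ∀ i, D * L ≤ δ * (p i * τ))
    {S : Finset α} (hS : ∀ z ∈ S, p z < m) :
    Lam p S m η t ≤ Real.exp (-(D * L)) := by
  have h1 : ∀ z ∈ S, Real.exp (-(rho p m η z * t)) ≤
      Real.exp (-(2 * p z * τ)) * Real.exp (-(D * L)) := by
    intro z hz
    rw [← Real.exp_add, Real.exp_le_exp]
    have e : rho p m η z = (1 - η) * (2 * p z) := by
      rw [rho, min_eq_left (by linarith [hS z hz])]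
    rw [e]
    have h2 := hD z
    have h3 : 0 ≤ p z * τ := mul_nonneg (hp z).le hτ0
    have h4 : (1 + δ / 2) ≤ (1 - η) * (1 + δ) := by nlinarith
    have h5 : (1 - η) * (2 * p z) * ((1 + δ) * τ) ≤ (1 - η) * (2 * p z) * t := by
      refine mul_le_mul_of_nonneg_left ht (mul_nonneg (by linarith) ?_)
      linarith [(hp z).le]
    have h6 : (1 + δ / 2) * (2 * (p z * τ)) ≤ (1 - η) * (1 + δ) * (2 * (p z * τ)) :=
      mul_le_mul_of_nonneg_right h4 (by linarith)
    nlinarith
  calc Lam p S m η t = ∑ z ∈ S, Real.exp (-(rho p m η z * t)) := rfl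
    _ ≤ ∑ z ∈ S, Real.exp (-(2 * p z * τ)) * Real.exp (-(D * L)) := Finset.sum_le_sum h1
    _ = (∑ z ∈ S, Real.exp (-(2 * p z * τ))) * Real.exp (-(D * L)) := by rw [Finset.sum_mul]
    _ ≤ 1 * Real.exp (-(D * L)) := by
        refine mul_le_mul_of_nonneg_right ?_ (Real.exp_pos _).le
        rw [← hτ]
        exact Finset.sum_le_sum_of_subset_of_nonneg (Finset.subset_univ _) fun _ _ _ =>
          (Real.exp_pos _).le
    _ = Real.exp (-(D * L)) := one_mul _

lemma Lam_nonneg (p : α → ℝ) (S : Finset α) (m η : ℝ) (u : ℕ) : 0 ≤ Lam p S m η u :=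
  Finset.sum_nonneg fun _ _ => (Real.exp_pos _).le

/-- the entrance sum -/
lemma entr_sum [Nonempty α] {p : α → ℝ} {S : Finset α} {b m η : ℝ} (h : Setup p S b m η)
    (hS : ∀ z ∈ S, p z < m) {t J0 : ℕ} (hm1 : 2 * m ≤ 1)
    (hJ : 2 * m * (J0 + 1) ≤ 1 / 2) :
    8 * ∑ s ∈ Finset.range t, (1 - (1 - η) * (2 * m)) ^ (s - J0) *
        ∑ x ∈ S, p x * BB p S b m η (t - (s + 1)) x ≤
      16 * (t * (2 * b + 4 / Fintype.card α + 24 * b ^ 2 * t)) * Lam p S m η t := by
  set κ := (1 - η) * (2 * m) with hκ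
  have hη1 : 0 ≤ 1 - η := by linarith [h.η_le]
  have hκ0 : 0 ≤ κ := mul_nonneg hη1 (by linarith [h.m_pos])
  have hκ2 : κ ≤ 2 * m := by
    have : 0 ≤ η * (2 * m) := mul_nonneg h.η_nonneg (by linarith [h.m_pos])
    nlinarith
  have hκ1 : κ ≤ 1 := hκ2.trans hm1
  have hb := h.b_nonneg
  have hN : (0 : ℝ) ≤ 4 / Fintype.card α := by positivity
  have hLt := Lam_nonneg p S m η t
  have hrho : ∀ x ∈ S, rho p m η x ≤ κ := by
    intro x hx
    rw [rho, hκ]
    exact mul_le_mul_of_nonneg_left (min_le_right _ _) hη1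
  -- growth of the exponentials
  have hgrow : ∀ x ∈ S, ∀ s, s < t → Real.exp (-(rho p m η x * ((t - (s + 1) : ℕ) : ℝ))) ≤
      Real.exp (κ * (s + 1)) * Real.exp (-(rho p m η x * t)) := by
    intro x hx s hs
    rw [← Real.exp_add, Real.exp_le_exp]
    have e : ((t - (s + 1) : ℕ) : ℝ) = t - (s + 1) := by
      rw [Nat.cast_sub (by omega)]; push_cast; ring
    rw [e]
    have := mul_le_mul_of_nonneg_right (hrho x hx) (by positivity : (0 : ℝ) ≤ (s : ℝ) + 1)
    nlinarith
  have hLgrow : ∀ s, s < t → Lam p S m η (t - (s + 1)) ≤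
      Real.exp (κ * (s + 1)) * Lam p S m η t := by
    intro s hs
    rw [Lam, Lam, Finset.mul_sum]
    exact Finset.sum_le_sum fun x hx => hgrow x hx s hs
  have hpow : ∀ s, s < t → (1 - κ) ^ (s - J0) * Real.exp (κ * (s + 1)) ≤ 2 := by
    intro s _
    have h1 : (1 - κ) ^ (s - J0) ≤ Real.exp (-κ) ^ (s - J0) :=
      pow_le_pow_left₀ (by linarith) (by linarith [Real.add_one_le_exp (-κ)]) _
    rw [← Real.exp_nat_mul] at h1
    calc (1 - κ) ^ (s - J0) * Real.exp (κ * (s + 1))
        ≤ Real.exp (((s - J0 : ℕ) : ℝ) * -κ) * Real.exp (κ * (s + 1)) :=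
          mul_le_mul_of_nonneg_right h1 (Real.exp_pos _).le
      _ = Real.exp (((s - J0 : ℕ) : ℝ) * -κ + κ * (s + 1)) := by rw [Real.exp_add]
      _ ≤ Real.exp (1 / 2) := by
          rw [Real.exp_le_exp]
          have h2 : (s : ℝ) - J0 ≤ ((s - J0 : ℕ) : ℝ) := by
            rcases le_total J0 s with hle | hle
            · rw [Nat.cast_sub hle]
            · rw [Nat.sub_eq_zero_of_le hle]
              have : (s : ℝ) ≤ J0 := by exact_mod_cast hle
              simp only [Nat.cast_zero]; linarith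
          have h3 := mul_le_mul_of_nonneg_right h2 hκ0
          have h4 : κ * (J0 + 1) ≤ 2 * m * (J0 + 1) :=
            mul_le_mul_of_nonneg_right hκ2 (by positivity)
          nlinarith
      _ ≤ 2 := by
          have h5 := Real.exp_one_lt_d9
          have h6 : Real.exp (1 / 2) ^ 2 = Real.exp 1 := by
            rw [← Real.exp_nat_mul]; norm_num
          nlinarith [Real.exp_pos (1 / 2)]
  have hterm : ∀ s ∈ Finset.range t, (1 - κ) ^ (s - J0) *
      ∑ x ∈ S, p x * BB p S b m η (t - (s + 1)) x ≤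
      2 * ((2 * b + 4 / Fintype.card α + 24 * b ^ 2 * t) * Lam p S m η t) := by
    intro s hs
    have hs' := Finset.mem_range.1 hs
    have hu : ((t - (s + 1) : ℕ) : ℝ) ≤ t := by exact_mod_cast Nat.sub_le _ _
    have h1 : ∑ x ∈ S, p x * BB p S b m η (t - (s + 1)) x ≤
        Real.exp (κ * (s + 1)) *
          ((2 * b + 4 / Fintype.card α + 24 * b ^ 2 * t) * Lam p S m η t) := by
      calc ∑ x ∈ S, p x * BB p S b m η (t - (s + 1)) x
          ≤ ∑ x ∈ S, (2 * b * (Real.exp (κ * (s + 1)) * Real.exp (-(rho p m η x * t))) +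
              p x * ((4 / Fintype.card α + 24 * b ^ 2 * t) *
                (Real.exp (κ * (s + 1)) * Lam p S m η t))) := by
            refine Finset.sum_le_sum fun x hx => ?_
            rw [BB, mul_add]
            refine add_le_add ?_ ?_
            · have := hgrow x hx s hs'
              calc p x * (2 * Real.exp (-(rho p m η x * ((t - (s + 1) : ℕ) : ℝ))))
                  ≤ b * (2 * (Real.exp (κ * (s + 1)) * Real.exp (-(rho p m η x * t)))) := by
                    refine mul_le_mul (h.le_b x) ?_ (by positivity) hb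
                    linarith
                _ = _ := by ring
            · refine mul_le_mul_of_nonneg_left ?_ (h.nonneg x)
              refine mul_le_mul ?_ (hLgrow s hs') (Lam_nonneg _ _ _ _ _) (by positivity)
              have := mul_le_mul_of_nonneg_left hu (by positivity : 0 ≤ 24 * b ^ 2)
              linarith
        _ = 2 * b * Real.exp (κ * (s + 1)) * Lam p S m η t + (∑ x ∈ S, p x) *
              ((4 / Fintype.card α + 24 * b ^ 2 * t) *
                (Real.exp (κ * (s + 1)) * Lam p S m η t)) := by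
            rw [Finset.sum_add_distrib, Finset.sum_mul]
            congr 1
            rw [Lam, Finset.mul_sum]
            exact Finset.sum_congr rfl fun x _ => by ring
        _ ≤ 2 * b * Real.exp (κ * (s + 1)) * Lam p S m η t + 1 *
              ((4 / Fintype.card α + 24 * b ^ 2 * t) *
                (Real.exp (κ * (s + 1)) * Lam p S m η t)) := by
            refine add_le_add le_rfl (mul_le_mul_of_nonneg_right (h.sum_le_one S) ?_)
            positivity
        _ = _ := by ring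
    calc (1 - κ) ^ (s - J0) * ∑ x ∈ S, p x * BB p S b m η (t - (s + 1)) x
        ≤ (1 - κ) ^ (s - J0) * (Real.exp (κ * (s + 1)) *
          ((2 * b + 4 / Fintype.card α + 24 * b ^ 2 * t) * Lam p S m η t)) :=
          mul_le_mul_of_nonneg_left h1 (pow_nonneg (by linarith) _)
      _ = ((1 - κ) ^ (s - J0) * Real.exp (κ * (s + 1))) *
          ((2 * b + 4 / Fintype.card α + 24 * b ^ 2 * t) * Lam p S m η t) := by ring
      _ ≤ 2 * ((2 * b + 4 / Fintype.card α + 24 * b ^ 2 * t) * Lam p S m η t) :=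
          mul_le_mul_of_nonneg_right (hpow s hs') (by positivity)
  calc 8 * ∑ s ∈ Finset.range t, (1 - κ) ^ (s - J0) *
        ∑ x ∈ S, p x * BB p S b m η (t - (s + 1)) x
      ≤ 8 * ∑ _s ∈ Finset.range t,
          2 * ((2 * b + 4 / Fintype.card α + 24 * b ^ 2 * t) * Lam p S m η t) := by
        have := Finset.sum_le_sum hterm
        linarith
    _ = _ := by
        rw [Finset.sum_const, Finset.card_range, nsmul_eq_mul]; ring

/-- the sum of the final bounds over the slow sites -/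
lemma BB_sum [Nonempty α] {p : α → ℝ} {S : Finset α} {b m η : ℝ} {t : ℕ} :
    2 * ∑ x ∈ S, BB p S b m η t x =
      (4 + 2 * S.card * (4 / Fintype.card α + 24 * b ^ 2 * t)) * Lam p S m η t := by
  simp only [BB]
  rw [Finset.sum_add_distrib, ← Finset.mul_sum, Finset.sum_const, nsmul_eq_mul]
  change 2 * (2 * Lam p S m η t + _) = _
  ring

end Pool.Agent.Lib.MP_8c2010_pr
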