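import Pool.Agent.Lib.MP_8c2010_pr.Upper

set_option autoImplicit false
set_option linter.unusedSectionVars false

/-! # Explicit upper bound after time `(1+δ)τ`, part 2 -/

namespace Pool.Agent.Lib.MP_8c2010_pr

open Equiv Finset

variable {α : Type*} [Fintype α] [DecidableEq α]

/-- the error of the spectral part -/
noncomputable def rr (δ L : ℝ) : ℝ :=
  Real.exp 1 * (2 * (1 + δ / 4) / (δ / 4)) * Real.exp (-(δ / 4 * L))

lemma bulk_num [Nonempty α] {p : α → ℝ} {S : Finset α} {b m η : ℝ} (h : Setup p S b m η)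
    {G0 J0 t : ℕ} {δ C : ℝ} (hδ : 0 < δ) (hδ1 : δ ≤ 1) (hC : 0 < C)
    (hn : 4 ≤ Fintype.card α) (hG : G0 * b ≤ η)
    (hG2 : 2 * G0 ≤ Fintype.card α)
    (hη : η ≤ δ / 16) (hJ : (J0 : ℝ) ≤ δ / 16 * t)
    (hmt : 2 * (m * t) = (1 + δ / 2) * Real.log (Fintype.card α))
    (ht : (Fintype.card α : ℝ) * Real.log (Fintype.card α) / (2 * C) ≤ t)
    (hr : rr δ (Real.log (Fintype.card α)) ≤ 1 / 2)
    {φ : Perm α → ℝ} (hφ : ∀ X, |φ X| ≤ 1) (w : List (α × α)) (hw : w.length = t)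
    (hgood : Good S G0 J0 w) :
    |ci p (vis S w) w φ - av φ (vis S w) (Xw w)| ≤
      Real.sqrt (Real.exp (-(Real.log (Fintype.card α) / C)) +
        4 * rr δ (Real.log (Fintype.card α))) := by
  set L := Real.log (Fintype.card α) with hL
  set Γ := vis S w with hΓ
  have hN : (4 : ℝ) ≤ Fintype.card α := by exact_mod_cast hn
  have hL0 : 0 ≤ L := Real.log_nonneg (by linarith)
  have hΓb : (Γ.card : ℝ) * b ≤ η := by
    refine le_trans ?_ hG
    exact mul_le_mul_of_nonneg_right (by exact_mod_cast hgood.1) h.b_nonneg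
  have hcB := card_Bk Γ
  have hΓc : Γ.card ≤ G0 := hgood.1
  have : Nontrivial (Bk Γ) := by
    rw [← Fintype.one_lt_card_iff_nontrivial, hcB]
    omega
  have h1 := bulk h hΓb w (le_refl _) hφ
  refine h1.trans (Real.sqrt_le_sqrt ?_)
  have hL' : (1 - δ / 16) * t ≤ ((w.length - mvs Γ w : ℕ) : ℝ) := by
    rw [Nat.cast_sub (mvs_le_length Γ w), hw]
    have : (mvs Γ w : ℝ) ≤ J0 := by exact_mod_cast hgood.2
    linarith
  set L' := w.length - mvs Γ w with hL'd
  have ht0 : (0 : ℝ) ≤ t := Nat.cast_nonneg t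
  refine add_le_add ?_ ?_
  · rw [← pow_mul, ← Real.exp_nat_mul, Real.exp_le_exp]
    have h2 : (Fintype.card α : ℝ) * L ≤ 2 * C * t := by
      rw [div_le_iff₀ (by positivity)] at ht; linarith
    have h3 : L / C ≤ 2 * t / Fintype.card α := by
      rw [div_le_div_iff₀ hC (by linarith)]; linarith
    have h4 : 2 * (t : ℝ) ≤ 4 * L' := by
      have : (15 / 16 : ℝ) * t ≤ (1 - δ / 16) * t :=
        mul_le_mul_of_nonneg_right (by linarith) ht0
      linarith
    have h5 : 2 * (t : ℝ) / Fintype.card α ≤ 4 * L' / Fintype.card α := by gcongr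
    have h6 : ((L' * 2 : ℕ) : ℝ) * -(2 / (Fintype.card α : ℝ)) = -(4 * L' / Fintype.card α) := by
      push_cast; ring
    rw [h6]
    linarith
  · have hθ : 2 * (1 + δ / 4) * L ≤ 4 * m * (1 - η) * L' := by
      have h2 : 4 * m * (1 - η) * ((1 - δ / 16) * t) ≤ 4 * m * (1 - η) * L' := by
        refine mul_le_mul_of_nonneg_left hL' ?_
        have := h.m_pos
        have := h.η_le
        exact mul_nonneg (by linarith) (by linarith)
      have h3 : (1 + δ / 4) ≤ (1 + δ / 2) * ((1 - δ / 16) * (1 - δ / 16)) := by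
        have e1 : δ ^ 2 ≤ δ := by nlinarith
        have e2 : 0 ≤ δ ^ 3 := by positivity
        have e3 : (1 + δ / 2) * ((1 - δ / 16) * (1 - δ / 16)) =
            1 + 3 / 8 * δ - 15 / 256 * δ ^ 2 + 1 / 512 * δ ^ 3 := by ring
        rw [e3]
        linarith
      have h4 : (1 - δ / 16) * (1 - δ / 16) ≤ (1 - η) * (1 - δ / 16) :=
        mul_le_mul_of_nonneg_right (by linarith) (by linarith)
      have h5 : (1 + δ / 4) ≤ (1 + δ / 2) * ((1 - η) * (1 - δ / 16)) :=
        h3.trans (mul_le_mul_of_nonneg_left h4 (by linarith))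
      have h6 := mul_le_mul_of_nonneg_right h5 hL0
      calc 2 * (1 + δ / 4) * L = 2 * ((1 + δ / 4) * L) := by ring
        _ ≤ 2 * ((1 + δ / 2) * ((1 - η) * (1 - δ / 16)) * L) := by linarith
        _ = 2 * ((1 - η) * (1 - δ / 16)) * ((1 + δ / 2) * L) := by ring
        _ = 4 * m * (1 - η) * ((1 - δ / 16) * t) := by rw [← hmt]; ring
        _ ≤ _ := h2
    have h2 := level_sum (ε := δ / 4) (by linarith) (n := Fintype.card α)
      (n' := Fintype.card (Bk Γ)) (by rw [hcB]; exact Nat.sub_le _ _)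
      (θ := 4 * m * (1 - η) * L') hθ hr
    refine le_trans (le_of_eq ?_) h2
    refine Finset.sum_congr rfl fun a _ => ?_
    congr 1
    rw [← pow_mul, ← Real.exp_nat_mul]
    congr 1
    push_cast
    ring

/-- the explicit error bound -/
noncomputable def err (C K δ D E L : ℝ) : ℝ :=
  2 * ((1 + 4 * C ^ 2 * K * L + 2 * C * K * L + 4 * C ^ 3 * K ^ 2 * L ^ 2) * E) +
  Real.sqrt (Real.exp (-(L / C)) + 4 * rr δ L) +
  (12 + 48 * C ^ 2 * K * L) * Real.exp (-(D * L)) +
  16 * (2 * C * K * L + 4 * K * L + 24 * C ^ 2 * K ^ 2 * L ^ 2) * Real.exp (-(D * L))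

theorem upper_det {p : α → ℝ} {c C δ τ K E : ℝ} {t : ℕ} (hn : 4 ≤ Fintype.card α)
    (hc : 0 < c) (hC : 1 ≤ C) (hδ : 0 < δ) (hδ1 : δ ≤ 1)
    (hpc : ∀ i, c / Fintype.card α ≤ p i) (hpC : ∀ i, p i ≤ C / Fintype.card α)
    (hs : ∑ i, p i = 1) (hτ : ∑ i, Real.exp (-(2 * p i * τ)) = 1)
    (ht1 : (1 + δ) * τ ≤ t) (ht2 : (t : ℝ) ≤ (1 + δ) * τ + 1)
    (hK : K = (1 + δ) / (2 * c) + 1)
    (hL1 : 1 ≤ Real.log (Fintype.card α))
    (hE : E = Real.exp (-(δ / 2 / (1 + δ) / 2 * Real.log (Fintype.card α))))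
    (hE1 : 64 * C * E ≤ δ)
    (hE2 : 96 * C ^ 3 * K ^ 2 * Real.log (Fintype.card α) ^ 2 * E ≤ 1)
    (hr : rr δ (Real.log (Fintype.card α)) ≤ 1 / 2)
    {φ : Perm α → ℝ} (hφ : ∀ X, |φ X| ≤ 1) :
    |Ew p t (fun w => φ (Xw w)) - av φ ∅ 1| ≤
      err C K δ (δ * c / (2 * C)) E (Real.log (Fintype.card α)) := by
  set L := Real.log (Fintype.card α) with hL
  set N : ℝ := (Fintype.card α : ℝ) with hNd
  have hN4 : (4 : ℝ) ≤ N := by rw [hNd]; exact_mod_cast hn
  have hN0 : 0 < N := by linarith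
  have : Nonempty α := Fintype.card_pos_iff.1 (by omega)
  have hC0 : 0 < C := by linarith
  have hp : ∀ i, 0 < p i := fun i => lt_of_lt_of_le (div_pos hc hN0) (hpc i)
  have hτ0 : 0 ≤ τ := tau_nonneg (by omega) hp hτ
  have hτl : N * L / (2 * C) ≤ τ := tau_lower (by omega) hC0 hp hpC hτ
  have hτu : τ ≤ N * L / (2 * c) := tau_upper (by omega) hc hp hpc hτ
  have hNL : 0 < N * L := by positivity
  have hτpos : 0 < τ := lt_of_lt_of_le (by positivity) hτl
  have hLpos : 0 < L := by linarith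
  have htl : N * L / (2 * C) ≤ t := by nlinarith only [hτl, ht1, mul_pos hδ hτpos]
  have htl' : (1 + δ) * (N * L / (2 * C)) ≤ t :=
    (mul_le_mul_of_nonneg_left hτl (by linarith)).trans ht1
  have htpos : (0 : ℝ) < t := lt_of_lt_of_le (by positivity) htl
  have hK0 : 0 < K := by rw [hK]; positivity
  have htu : (t : ℝ) ≤ K * L * N := by
    have h1 : (1 + δ) * τ ≤ (1 + δ) * (N * L / (2 * c)) :=
      mul_le_mul_of_nonneg_left hτu (by linarith)
    have h2 : (1 : ℝ) ≤ N * L := by nlinarith only [hN4, hL1]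
    calc (t : ℝ) ≤ (1 + δ) * τ + 1 := ht2
      _ ≤ (1 + δ) * (N * L / (2 * c)) + N * L := by linarith
      _ = K * L * N := by rw [hK]; field_simp
  have hE0 : 0 < E := by rw [hE]; exact Real.exp_pos _
  have hEs : E ≤ 1 / 64 := by
    have : 64 * E ≤ 64 * C * E := by nlinarith only [hE0, hC]
    linarith
  -- the parameters
  set m : ℝ := (1 + δ / 2) * L / (2 * t) with hm
  have hm0 : 0 < m := by rw [hm]; positivity
  have hmt : 2 * (m * t) = (1 + δ / 2) * L := by rw [hm]; field_simp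
  have hmC : m ≤ C / N := by
    have h1 : (1 + δ) * L * N ≤ 2 * C * t := by
      have := htl'
      rw [mul_div_assoc', div_le_iff₀ (by positivity)] at this
      linarith
    rw [hm, div_le_div_iff₀ (by positivity) hN0]
    nlinarith only [h1, mul_pos hδ (mul_pos hLpos hN0)]
  set S : Finset α := Finset.univ.filter (fun z => p z < m) with hSd
  have hS : ∀ z ∈ S, p z < m := fun z hz => (Finset.mem_filter.1 hz).2
  set b : ℝ := C / N with hb
  have hb0 : 0 < b := by positivity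
  -- `N * E ≥ 1`
  have hNexp : N = Real.exp L := by rw [hL, Real.exp_log hN0]
  have hδ1' : δ / 2 / (1 + δ) ≤ 1 := by
    rw [div_le_one (by linarith)]; linarith
  have hδ10 : 0 < δ / 2 / (1 + δ) := by positivity
  have hNE : 1 ≤ N * E := by
    rw [hNexp, hE, ← Real.exp_add, Real.one_le_exp_iff]
    nlinarith only [hLpos, mul_nonneg hLpos.le (sub_nonneg.2 hδ1')]
  have hNE2 : Real.exp ((1 + δ / 2) / (1 + δ) * L) = N * E ^ 2 := by
    rw [hNexp, hE, ← Real.exp_nat_mul, ← Real.exp_add]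
    congr 1
    push_cast
    field_simp
    ring
  have hScard : (S.card : ℝ) ≤ N * E ^ 2 := by
    rw [← hNE2]
    exact card_slow hδ hτ0 hτ hm0 hmt ht1 hS
  set G0 : ℕ := ⌈N * E⌉₊ with hG0
  have hG0l : N * E ≤ G0 := Nat.le_ceil _
  have hG0u : (G0 : ℝ) ≤ 2 * (N * E) := by
    have := (Nat.ceil_lt_add_one (by positivity : 0 ≤ N * E)).le
    linarith
  have hG0pos : 0 < G0 := by
    have : (0 : ℝ) < G0 := by linarith
    exact_mod_cast this
  set η : ℝ := G0 * b with hηd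
  have hη0 : 0 ≤ η := by positivity
  have hηu : η ≤ 2 * C * E := by
    calc η = G0 * b := rfl
      _ ≤ 2 * (N * E) * b := mul_le_mul_of_nonneg_right hG0u hb0.le
      _ = 2 * C * E := by rw [hb]; field_simp
  have hη16 : η ≤ δ / 16 := by linarith
  have hpS : ∑ z ∈ S, p z ≤ C * E ^ 2 := by
    calc ∑ z ∈ S, p z ≤ ∑ _z ∈ S, b := Finset.sum_le_sum fun z _ => hpC z
      _ = S.card * b := by rw [Finset.sum_const, nsmul_eq_mul]
      _ ≤ N * E ^ 2 * b := mul_le_mul_of_nonneg_right hScard hb0.le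
      _ = C * E ^ 2 := by rw [hb]; field_simp
  have hpS0 : 0 ≤ ∑ z ∈ S, p z := Finset.sum_nonneg fun z _ => (hp z).le
  have hbN : b * N = C := by rw [hb]; field_simp
  have hb1 : b ≤ C * E := by
    rw [hb, div_le_iff₀ hN0]
    nlinarith only [hNE, hC0]
  have hbs : 8 * b ≤ 1 := by linarith
  have hset : Setup p S b m η := {
    pos := hp
    sum := hs
    le_b := hpC
    m_le := fun i hi => by
      by_contra hlt
      exact hi (Finset.mem_filter.2 ⟨Finset.mem_univ _, not_le.1 hlt⟩)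
    m_pos := hm0
    b_small := hbs
    η_nonneg := hη0
    η_le := by linarith }
  have hG2 : 2 * G0 ≤ Fintype.card α := by
    have : (2 : ℝ) * G0 ≤ N := by nlinarith only [hG0u, hEs, hN0]
    rw [hNd] at this
    exact_mod_cast this
  have hm1 : 2 * m ≤ 1 := by linarith
  have hbt : b * t ≤ C * K * L := by
    calc b * t ≤ b * (K * L * N) := mul_le_mul_of_nonneg_left htu hb0.le
      _ = (b * N) * (K * L) := by ring
      _ = C * K * L := by rw [hbN]; ring
  have hbt0 : 0 ≤ b * t := by positivity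
  have hbt2 : (b * t) ^ 2 ≤ (C * K * L) ^ 2 := pow_le_pow_left₀ hbt0 hbt 2
  have hE21 : E ^ 2 ≤ E := by nlinarith only [hE0, hEs]
  have hT : 96 * b ^ 2 * (∑ z ∈ S, p z) * (t : ℝ) ^ 2 ≤ 1 := by
    calc 96 * b ^ 2 * (∑ z ∈ S, p z) * (t : ℝ) ^ 2
        = 96 * ((b * t) ^ 2 * ∑ z ∈ S, p z) := by ring
      _ ≤ 96 * ((C * K * L) ^ 2 * (C * E ^ 2)) := by
          have := mul_le_mul hbt2 hpS hpS0 (by positivity)
          linarith
      _ ≤ 96 * ((C * K * L) ^ 2 * (C * E)) := by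
          have : (C * K * L) ^ 2 * (C * E ^ 2) ≤ (C * K * L) ^ 2 * (C * E) :=
            mul_le_mul_of_nonneg_left (mul_le_mul_of_nonneg_left hE21 hC0.le) (by positivity)
          linarith
      _ = 96 * C ^ 3 * K ^ 2 * L ^ 2 * E := by ring
      _ ≤ 1 := hE2
  have hSG : S.card ≤ G0 := by
    have : (S.card : ℝ) ≤ G0 := by
      calc (S.card : ℝ) ≤ N * E ^ 2 := hScard
        _ ≤ N * E := mul_le_mul_of_nonneg_left hE21 hN0.le
        _ ≤ G0 := hG0l
    exact_mod_cast this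
  have hJ : (G0 : ℝ) ≤ δ / 16 * t := by
    have h1 : N / (2 * C) ≤ t := by
      refine le_trans ?_ htl
      gcongr
      nlinarith only [hN0, hL1]
    have h2 : δ / 16 * (N / (2 * C)) ≤ δ / 16 * t :=
      mul_le_mul_of_nonneg_left h1 (by linarith)
    have h3 : 2 * (N * E) ≤ δ / 16 * (N / (2 * C)) := by
      rw [div_mul_div_comm, le_div_iff₀ (by positivity)]
      nlinarith only [mul_le_mul_of_nonneg_right hE1 hN0.le]
    linarith
  have hmain := hybrid hset (G0 := G0) (J0 := G0) le_rfl hG2 hφ hm1 hT hSG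
    (ε := Real.sqrt (Real.exp (-(L / C)) + 4 * rr δ L)) (Real.sqrt_nonneg _)
    (fun w hw hgood => bulk_num hset hδ hδ1 hC0 hn le_rfl hG2 hη16 hJ hmt htl hr hφ w hw hgood)
  refine hmain.trans ?_
  -- bound of each term
  have hbad := bad_le hset (G0 := G0) (J0 := G0) hG0pos hG0pos t
  have hG0r : (0 : ℝ) < G0 := by exact_mod_cast hG0pos
  have hA : 1 - Ew p t (gd S G0 G0) ≤
      (1 + 4 * C ^ 2 * K * L + 2 * C * K * L + 4 * C ^ 3 * K ^ 2 * L ^ 2) * E := by
    refine hbad.trans ?_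
    rw [← add_div, div_le_iff₀ hG0r]
    have e1 : N * (2 * b * (∑ z ∈ S, p z) * t) ≤ 2 * C ^ 2 * K * L * (N * E ^ 2) := by
      calc N * (2 * b * (∑ z ∈ S, p z) * t) = 2 * N * ((b * t) * ∑ z ∈ S, p z) := by ring
        _ ≤ 2 * N * ((C * K * L) * (C * E ^ 2)) :=
            mul_le_mul_of_nonneg_left (mul_le_mul hbt hpS hpS0 (by positivity)) (by positivity)
        _ = _ := by ring
    have e2 : S.card * (2 * b * t) ≤ 2 * C * K * L * (N * E ^ 2) := by
      calc S.card * (2 * b * t) = 2 * (S.card * (b * t)) := by ring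
        _ ≤ 2 * ((N * E ^ 2) * (C * K * L)) :=
            mul_le_mul_of_nonneg_left (mul_le_mul hScard hbt hbt0 (by positivity)) (by norm_num)
        _ = _ := by ring
    have e3 : N * ((2 * b * ∑ z ∈ S, p z) * (2 * b) * (t : ℝ) ^ 2 +
        (2 * b * ∑ z ∈ S, p z) * t) ≤
        (4 * C ^ 3 * K ^ 2 * L ^ 2 + 2 * C ^ 2 * K * L) * (N * E ^ 2) := by
      calc N * ((2 * b * ∑ z ∈ S, p z) * (2 * b) * (t : ℝ) ^ 2 + (2 * b * ∑ z ∈ S, p z) * t)
          = 4 * N * ((b * t) ^ 2 * ∑ z ∈ S, p z) + 2 * N * ((b * t) * ∑ z ∈ S, p z) := by ring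
        _ ≤ 4 * N * ((C * K * L) ^ 2 * (C * E ^ 2)) + 2 * N * ((C * K * L) * (C * E ^ 2)) :=
            add_le_add
              (mul_le_mul_of_nonneg_left (mul_le_mul hbt2 hpS hpS0 (by positivity))
                (by positivity))
              (mul_le_mul_of_nonneg_left (mul_le_mul hbt hpS hpS0 (by positivity))
                (by positivity))
        _ = _ := by ring
    have e4 : (1 + 4 * C ^ 2 * K * L + 2 * C * K * L + 4 * C ^ 3 * K ^ 2 * L ^ 2) * (N * E ^ 2) ≤
        (1 + 4 * C ^ 2 * K * L + 2 * C * K * L + 4 * C ^ 3 * K ^ 2 * L ^ 2) * E * G0 := by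
      calc (1 + 4 * C ^ 2 * K * L + 2 * C * K * L + 4 * C ^ 3 * K ^ 2 * L ^ 2) * (N * E ^ 2)
          = (1 + 4 * C ^ 2 * K * L + 2 * C * K * L + 4 * C ^ 3 * K ^ 2 * L ^ 2) * E * (N * E) := by
            ring
        _ ≤ _ := mul_le_mul_of_nonneg_left hG0l (by positivity)
    refine le_trans ?_ e4
    linarith
  have hLam : Lam p S m η t ≤ Real.exp (-(δ * c / (2 * C) * L)) := by
    refine Lam_small hδ hδ1 hτ0 hp hτ ht1 hη16 (fun i => ?_) hS
    have h1 : c / N * (N * L / (2 * C)) ≤ p i * τ :=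
      mul_le_mul (hpc i) hτl (by positivity) (hp i).le
    have h2 : c / N * (N * L / (2 * C)) = c * L / (2 * C) := by field_simp
    rw [h2] at h1
    calc δ * c / (2 * C) * L = δ * (c * L / (2 * C)) := by ring
      _ ≤ δ * (p i * τ) := mul_le_mul_of_nonneg_left h1 hδ.le
  have hLam0 := Lam_nonneg p S m η t
  have hSN : (S.card : ℝ) ≤ N := by
    rw [hNd]; exact_mod_cast Finset.card_le_univ S
  have hB : 2 * ∑ x ∈ S, BB p S b m η t x ≤
      (12 + 48 * C ^ 2 * K * L) * Real.exp (-(δ * c / (2 * C) * L)) := by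
    rw [BB_sum]
    refine mul_le_mul ?_ hLam hLam0 (by positivity)
    have h1 : 2 * (S.card : ℝ) * (4 / N + 24 * b ^ 2 * t) ≤ 2 * N * (4 / N + 24 * b ^ 2 * t) :=
      mul_le_mul_of_nonneg_right (by linarith) (by positivity)
    have h2 : 2 * N * (4 / N + 24 * b ^ 2 * t) = 8 + 48 * (b * N) * (b * t) := by
      field_simp
      ring
    rw [h2, hbN] at h1
    have h3 : 48 * C * (b * t) ≤ 48 * C * (C * K * L) :=
      mul_le_mul_of_nonneg_left hbt (by positivity)
    change 4 + 2 * (S.card : ℝ) * (4 / N + 24 * b ^ 2 * t) ≤ _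
    have h4 : 48 * C * (C * K * L) = 48 * C ^ 2 * K * L := by ring
    linarith
  have hJ2 : 2 * m * ((G0 : ℝ) + 1) ≤ 1 / 2 := by
    have h1 : (G0 : ℝ) + 1 ≤ 3 * (N * E) := by linarith
    calc 2 * m * ((G0 : ℝ) + 1) ≤ 2 * (C / N) * (3 * (N * E)) :=
          mul_le_mul (by linarith) h1 (by positivity) (by positivity)
      _ = 6 * (C * E) := by field_simp; ring
      _ ≤ 1 / 2 := by linarith
  have hD := entr_sum hset hS (t := t) (J0 := G0) hm1 hJ2
  have hD2 : 16 * (t * (2 * b + 4 / Fintype.card α + 24 * b ^ 2 * t)) * Lam p S m η t ≤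
      16 * (2 * C * K * L + 4 * K * L + 24 * C ^ 2 * K ^ 2 * L ^ 2) *
        Real.exp (-(δ * c / (2 * C) * L)) := by
    refine mul_le_mul ?_ hLam hLam0 (by positivity)
    refine mul_le_mul_of_nonneg_left ?_ (by norm_num)
    change (t : ℝ) * (2 * b + 4 / N + 24 * b ^ 2 * t) ≤ _
    have h1 : (t : ℝ) * (2 * b + 4 / N + 24 * b ^ 2 * t) =
        2 * (b * t) + 4 * (t / N) + 24 * (b * t) ^ 2 := by field_simp
    rw [h1]
    have h2 : (t : ℝ) / N ≤ K * L := by
      rw [div_le_iff₀ hN0]; exact htu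
    have h3 : (C * K * L) ^ 2 = C ^ 2 * K ^ 2 * L ^ 2 := by ring
    rw [h3] at hbt2
    linarith
  rw [err]
  linarith

end Pool.Agent.Lib.MP_8c2010_pr
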