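import Mathlib

set_option autoImplicit false
set_option linter.unusedSectionVars false

/-! # Words of transpositions, expectations over words -/

namespace Pool.Agent.Lib.MP_8c2010_pr

open Equiv Finset

variable {α : Type*} [Fintype α] [DecidableEq α]

/-- the permutation after the steps in the list (head = latest step) -/
def Xw : List (α × α) → Perm α
  | [] => 1
  | a :: w => swap a.1 a.2 * Xw w

/-- weight of a step -/
def wt (p : α → ℝ) (a : α × α) : ℝ := p a.1 * p a.2

/-- expectation over words of length `t` -/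
noncomputable def Ew (p : α → ℝ) : ℕ → (List (α × α) → ℝ) → ℝ
  | 0, F => F []
  | t + 1, F => ∑ a : α × α, wt p a * Ew p t (fun w => F (a :: w))

omit [Fintype α] [DecidableEq α] in
lemma wt_nonneg {p : α → ℝ} (hp : ∀ i, 0 ≤ p i) (a : α × α) : 0 ≤ wt p a :=
  mul_nonneg (hp _) (hp _)

omit [DecidableEq α] in
lemma sum_wt {p : α → ℝ} : ∑ a : α × α, wt p a = (∑ i, p i) ^ 2 := by
  rw [Fintype.sum_prod_type, sq, Finset.sum_mul_sum]
  rfl

omit [DecidableEq α] in
lemma Ew_zero (p : α → ℝ) (F : List (α × α) → ℝ) : Ew p 0 F = F [] := rfl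

omit [DecidableEq α] in
lemma Ew_succ (p : α → ℝ) (t : ℕ) (F : List (α × α) → ℝ) :
    Ew p (t + 1) F = ∑ a : α × α, wt p a * Ew p t (fun w => F (a :: w)) := rfl

omit [DecidableEq α] in
lemma Ew_congr (p : α → ℝ) {t : ℕ} {F G : List (α × α) → ℝ}
    (h : ∀ w, w.length = t → F w = G w) : Ew p t F = Ew p t G := by
  induction t generalizing F G with
  | zero => exact h [] rfl
  | succ t ih =>
    rw [Ew_succ, Ew_succ]
    refine Finset.sum_congr rfl fun a _ => ?_
    rw [ih (F := fun w => F (a :: w)) (G := fun w => G (a :: w))]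
    intro w hw
    exact h (a :: w) (by simp [hw])

omit [DecidableEq α] in
lemma Ew_add (p : α → ℝ) (t : ℕ) (F G : List (α × α) → ℝ) :
    Ew p t (fun w => F w + G w) = Ew p t F + Ew p t G := by
  induction t generalizing F G with
  | zero => rfl
  | succ t ih =>
    simp only [Ew_succ]
    rw [← Finset.sum_add_distrib]
    refine Finset.sum_congr rfl fun a _ => ?_
    rw [ih, mul_add]

omit [DecidableEq α] in
lemma Ew_const_mul (p : α → ℝ) (t : ℕ) (c : ℝ) (F : List (α × α) → ℝ) :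
    Ew p t (fun w => c * F w) = c * Ew p t F := by
  induction t generalizing F with
  | zero => rfl
  | succ t ih =>
    simp only [Ew_succ]
    rw [Finset.mul_sum]
    refine Finset.sum_congr rfl fun a _ => ?_
    rw [ih]; ring

omit [DecidableEq α] in
lemma Ew_mul_const (p : α → ℝ) (t : ℕ) (c : ℝ) (F : List (α × α) → ℝ) :
    Ew p t (fun w => F w * c) = Ew p t F * c := by
  rw [mul_comm, ← Ew_const_mul]
  exact Ew_congr p fun w _ => mul_comm _ _

omit [DecidableEq α] in
lemma Ew_neg (p : α → ℝ) (t : ℕ) (F : List (α × α) → ℝ) :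
    Ew p t (fun w => - F w) = - Ew p t F := by
  have := Ew_const_mul p t (-1) F
  simpa using this

omit [DecidableEq α] in
lemma Ew_sub (p : α → ℝ) (t : ℕ) (F G : List (α × α) → ℝ) :
    Ew p t (fun w => F w - G w) = Ew p t F - Ew p t G := by
  have := Ew_add p t F (fun w => - G w)
  rw [Ew_neg] at this
  simpa [sub_eq_add_neg] using this

omit [DecidableEq α] in
lemma Ew_fsum (p : α → ℝ) (t : ℕ) {ι : Type*} (s : Finset ι) (F : ι → List (α × α) → ℝ) :
    Ew p t (fun w => ∑ i ∈ s, F i w) = ∑ i ∈ s, Ew p t (F i) := by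
  classical
  induction s using Finset.induction_on with
  | empty =>
    simp only [Finset.sum_empty]
    have := Ew_const_mul p t 0 (fun _ => 0)
    simpa using this
  | insert i s hi ih =>
    simp only [Finset.sum_insert hi]
    rw [Ew_add, ih]

omit [DecidableEq α] in
lemma Ew_nonneg {p : α → ℝ} (hp : ∀ i, 0 ≤ p i) {t : ℕ} {F : List (α × α) → ℝ}
    (h : ∀ w, w.length = t → 0 ≤ F w) : 0 ≤ Ew p t F := by
  induction t generalizing F with
  | zero => exact h [] rfl
  | succ t ih =>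
    rw [Ew_succ]
    refine Finset.sum_nonneg fun a _ => mul_nonneg (wt_nonneg hp a) (ih fun w hw => ?_)
    exact h (a :: w) (by simp [hw])

omit [DecidableEq α] in
lemma Ew_mono {p : α → ℝ} (hp : ∀ i, 0 ≤ p i) {t : ℕ} {F G : List (α × α) → ℝ}
    (h : ∀ w, w.length = t → F w ≤ G w) : Ew p t F ≤ Ew p t G := by
  have h1 : 0 ≤ Ew p t (fun w => G w - F w) := Ew_nonneg hp fun w hw => sub_nonneg.2 (h w hw)
  rw [Ew_sub] at h1
  linarith

omit [DecidableEq α] in
lemma Ew_const {p : α → ℝ} (hs : ∑ i, p i = 1) (t : ℕ) (c : ℝ) :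
    Ew p t (fun _ => c) = c := by
  induction t with
  | zero => rfl
  | succ t ih =>
    rw [Ew_succ]
    simp only [ih]
    rw [← Finset.sum_mul, sum_wt, hs]; ring

omit [DecidableEq α] in
lemma Ew_abs_le {p : α → ℝ} (hp : ∀ i, 0 ≤ p i) (t : ℕ) (F : List (α × α) → ℝ) :
    |Ew p t F| ≤ Ew p t (fun w => |F w|) := by
  rw [abs_le]
  constructor
  · rw [← Ew_neg]
    exact Ew_mono hp fun w _ => neg_abs_le _
  · exact Ew_mono hp fun w _ => le_abs_self _

omit [DecidableEq α] in
/-- expand the latest step inside the expectation -/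
lemma Ew_succ' (p : α → ℝ) (t : ℕ) (F : List (α × α) → ℝ) :
    Ew p (t + 1) F = Ew p t (fun w => ∑ a : α × α, wt p a * F (a :: w)) := by
  rw [Ew_fsum, Ew_succ]
  exact Finset.sum_congr rfl fun a _ => (Ew_const_mul p t _ _).symm

/-- the averaging operator iterated -/
noncomputable def Pit (p : α → ℝ) : ℕ → (Perm α → ℝ) → Perm α → ℝ
  | 0, φ => φ
  | u + 1, φ => fun X => ∑ a : α × α, wt p a * Pit p u φ (swap a.1 a.2 * X)

lemma Pit_succ (p : α → ℝ) (u : ℕ) (φ : Perm α → ℝ) (X : Perm α) :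
    Pit p (u + 1) φ X = ∑ a : α × α, wt p a * Pit p u φ (swap a.1 a.2 * X) := rfl

lemma Ew_Pit_succ (p : α → ℝ) (t u : ℕ) (φ : Perm α → ℝ) :
    Ew p (t + 1) (fun w => Pit p u φ (Xw w)) = Ew p t (fun w => Pit p (u + 1) φ (Xw w)) := by
  rw [Ew_succ']
  rfl

lemma Ew_eq_Pit (p : α → ℝ) (t : ℕ) (φ : Perm α → ℝ) :
    Ew p t (fun w => φ (Xw w)) = Pit p t φ 1 := by
  have key : ∀ t u, Ew p t (fun w => Pit p u φ (Xw w)) = Pit p (t + u) φ 1 := by
    intro t
    induction t with
    | zero => intro u; rw [Ew_zero, zero_add]; rfl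
    | succ t ih => intro u; rw [Ew_Pit_succ, ih]; congr 1; omega
  have := key t 0
  rw [add_zero] at this
  exact this

lemma Pit_abs_le {p : α → ℝ} (hp : ∀ i, 0 ≤ p i) (hs : ∑ i, p i = 1) {φ : Perm α → ℝ}
    (hφ : ∀ X, |φ X| ≤ 1) (u : ℕ) (X : Perm α) : |Pit p u φ X| ≤ 1 := by
  induction u generalizing X with
  | zero => exact hφ X
  | succ u ih =>
    rw [Pit_succ]
    calc |∑ a : α × α, wt p a * Pit p u φ (swap a.1 a.2 * X)|
        ≤ ∑ a : α × α, wt p a * 1 := by
          refine (Finset.abs_sum_le_sum_abs _ _).trans (Finset.sum_le_sum fun a _ => ?_)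
          rw [abs_mul, abs_of_nonneg (wt_nonneg hp a)]
          exact mul_le_mul_of_nonneg_left (ih _) (wt_nonneg hp a)
      _ = 1 := by
          rw [← Finset.sum_mul, sum_wt, hs]; ring

/-- the law of the walk, multiplying on the left -/
noncomputable def lawL (p : α → ℝ) : ℕ → Perm α → ℝ
  | 0 => fun σ => if σ = 1 then 1 else 0
  | t + 1 => fun σ => ∑ a : α × α, wt p a * lawL p t (swap a.1 a.2 * σ)

lemma lawL_succ (p : α → ℝ) (t : ℕ) (σ : Perm α) :
    lawL p (t + 1) σ = ∑ a : α × α, wt p a * lawL p t (swap a.1 a.2 * σ) := rfl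

lemma sum_lawL (p : α → ℝ) (t : ℕ) (φ : Perm α → ℝ) :
    ∑ σ, lawL p t σ * φ σ = Ew p t (fun w => φ (Xw w)) := by
  induction t generalizing φ with
  | zero =>
    rw [Ew_zero]
    simp [lawL, Xw]
  | succ t ih =>
    simp only [lawL_succ, Finset.sum_mul]
    rw [Finset.sum_comm, Ew_succ]
    refine Finset.sum_congr rfl fun a _ => ?_
    have h1 : ∑ σ, wt p a * lawL p t (swap a.1 a.2 * σ) * φ σ =
        wt p a * ∑ σ, lawL p t σ * φ (swap a.1 a.2 * σ) := by
      rw [Finset.mul_sum]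
      refine Finset.sum_equiv (Equiv.mulLeft (swap a.1 a.2)) (by simp) ?_
      intro σ _
      simp only [Equiv.coe_mulLeft]
      rw [← mul_assoc (swap a.1 a.2), swap_mul_self, one_mul, mul_assoc]
    rw [h1, ih (fun σ => φ (swap a.1 a.2 * σ))]
    rfl

/-- averages over the permutations agreeing with `g` on `Γ` -/
noncomputable def ext (Γ : Finset α) (g : Perm α) : Finset (Perm α) :=
  Finset.univ.filter fun X => ∀ c ∈ Γ, X c = g c

lemma mem_ext {Γ : Finset α} {g X : Perm α} : X ∈ ext Γ g ↔ ∀ c ∈ Γ, X c = g c := by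
  simp [ext]

/-- average of `φ` over the permutations agreeing with `g` on `Γ` -/
noncomputable def av (φ : Perm α → ℝ) (Γ : Finset α) (g : Perm α) : ℝ :=
  (∑ X ∈ ext Γ g, φ X) / ((ext Γ (1 : Perm α)).card : ℝ)

lemma ext_card (Γ : Finset α) (g : Perm α) : (ext Γ g).card = (ext Γ (1 : Perm α)).card := by
  refine Finset.card_equiv (Equiv.mulLeft g⁻¹) ?_
  intro X
  simp only [mem_ext, Equiv.coe_mulLeft, Perm.mul_apply, Perm.one_apply]
  constructor
  · intro h c hc
    rw [h c hc]; simp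
  · intro h c hc
    have := h c hc
    rw [Perm.inv_eq_iff_eq] at this
    exact this

lemma ext_one_card_pos (Γ : Finset α) : 0 < (ext Γ (1 : Perm α)).card :=
  Finset.card_pos.2 ⟨1, mem_ext.2 fun _ _ => rfl⟩

lemma ext_congr {Γ : Finset α} {g g' : Perm α} (h : ∀ c ∈ Γ, g c = g' c) : ext Γ g = ext Γ g' := by
  ext X
  simp only [mem_ext]
  exact forall₂_congr fun c hc => by rw [h c hc]

lemma av_congr {φ : Perm α → ℝ} {Γ : Finset α} {g g' : Perm α} (h : ∀ c ∈ Γ, g c = g' c) :
    av φ Γ g = av φ Γ g' := by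
  rw [av, av, ext_congr h]

lemma av_abs_le {φ : Perm α → ℝ} {M : ℝ} (hφ : ∀ X, |φ X| ≤ M) (Γ : Finset α) (g : Perm α) :
    |av φ Γ g| ≤ M := by
  have hpos : (0 : ℝ) < ((ext Γ (1 : Perm α)).card : ℝ) := by exact_mod_cast ext_one_card_pos Γ
  rw [av, abs_div, abs_of_pos hpos, div_le_iff₀ hpos]
  calc |∑ X ∈ ext Γ g, φ X| ≤ ∑ X ∈ ext Γ g, M :=
        (Finset.abs_sum_le_sum_abs _ _).trans (Finset.sum_le_sum fun X _ => hφ X)
    _ = M * ((ext Γ (1 : Perm α)).card : ℝ) := by
        rw [Finset.sum_const, nsmul_eq_mul, ext_card]; ring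

/-- averaging a left translate -/
lemma av_mul_left (φ : Perm α → ℝ) (Γ : Finset α) (s g : Perm α) :
    av (fun X => φ (s * X)) Γ g = av φ Γ (s * g) := by
  rw [av, av]
  congr 1
  refine Finset.sum_equiv (Equiv.mulLeft s) ?_ ?_
  · intro X
    simp only [mem_ext, Equiv.coe_mulLeft, Perm.mul_apply]
    exact forall₂_congr fun c _ => (s.injective.eq_iff).symm
  · intro X _
    rfl

lemma av_Pit_succ (p : α → ℝ) (u : ℕ) (φ : Perm α → ℝ) (Γ : Finset α) (g : Perm α) :
    av (Pit p (u + 1) φ) Γ g = ∑ a : α × α, wt p a * av (Pit p u φ) Γ (swap a.1 a.2 * g) := by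
  have h1 : ∀ a : α × α, av (Pit p u φ) Γ (swap a.1 a.2 * g) =
      av (fun X => Pit p u φ (swap a.1 a.2 * X)) Γ g := fun a => (av_mul_left _ _ _ _).symm
  simp only [h1]
  simp only [av, Pit_succ]
  rw [Finset.sum_comm, Finset.sum_div]
  refine Finset.sum_congr rfl fun a _ => ?_
  rw [← Finset.mul_sum, mul_div_assoc]

/-- sites not occupied by the cards of `Γ` in the arrangement `g` -/
def free (Γ : Finset α) (g : Perm α) : Finset α := (Γ.image g)ᶜ

lemma mem_free {Γ : Finset α} {g : Perm α} {z : α} : z ∈ free Γ g ↔ ∀ c ∈ Γ, g c ≠ z := by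
  simp [free]

lemma card_free (Γ : Finset α) (g : Perm α) :
    (free Γ g).card = Fintype.card α - Γ.card := by
  rw [free, Finset.card_compl, Finset.card_image_of_injective _ g.injective]

/-- moving the card `c` to the site `z` -/
def mv (g : Perm α) (c z : α) : Perm α := swap (g c) z * g

lemma mv_self (g : Perm α) (c z : α) : mv g c z c = z := by
  simp [mv]

lemma mv_of_mem {Γ : Finset α} {g : Perm α} {c z : α} (hc : c ∉ Γ) (hz : z ∈ free Γ g) {d : α}
    (hd : d ∈ Γ) : mv g c z d = g d := by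
  rw [mv, Perm.mul_apply]
  refine swap_apply_of_ne_of_ne (fun h => hc ?_) (mem_free.1 hz d hd)
  rwa [← g.injective h]

lemma ext_fiber {Γ : Finset α} {g : Perm α} {c z : α} (hc : c ∉ Γ) (hz : z ∈ free Γ g) :
    (ext Γ g).filter (fun X => X c = z) = ext (insert c Γ) (mv g c z) := by
  ext X
  simp only [Finset.mem_filter, mem_ext, Finset.mem_insert, forall_eq_or_imp, mv_self]
  constructor
  · rintro ⟨h1, h2⟩
    exact ⟨h2, fun d hd => by rw [h1 d hd, mv_of_mem hc hz hd]⟩
  · rintro ⟨h1, h2⟩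
    exact ⟨fun d hd => by rw [h2 d hd, mv_of_mem hc hz hd], h1⟩

lemma ext_card_insert {Γ : Finset α} {c : α} (hc : c ∉ Γ) :
    ((ext Γ (1 : Perm α)).card : ℝ) =
      ((Fintype.card α : ℝ) - Γ.card) * ((ext (insert c Γ) (1 : Perm α)).card : ℝ) := by
  have h1 : (ext Γ (1 : Perm α)).card =
      ∑ z ∈ free Γ (1 : Perm α), ((ext Γ (1 : Perm α)).filter (fun X => X c = z)).card := by
    refine Finset.card_eq_sum_card_fiberwise ?_
    intro X hX
    rw [Finset.mem_coe, mem_free]
    intro d hd h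
    have h2 := mem_ext.1 hX d hd
    rw [← h2] at h
    exact hc (X.injective h ▸ hd)
  have h2 : ∀ z ∈ free Γ (1 : Perm α), ((ext Γ (1 : Perm α)).filter (fun X => X c = z)).card =
      (ext (insert c Γ) (1 : Perm α)).card := by
    intro z hz
    rw [ext_fiber hc hz, ext_card]
  rw [Finset.sum_congr rfl h2, Finset.sum_const, smul_eq_mul, card_free] at h1
  rw [h1, Nat.cast_mul, Nat.cast_sub (Finset.card_le_univ Γ)]

lemma card_sub_pos {Γ : Finset α} {c : α} (hc : c ∉ Γ) :
    (0 : ℝ) < (Fintype.card α : ℝ) - Γ.card := by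
  have : Γ.card < Fintype.card α := by
    rw [← Finset.card_univ]
    exact Finset.card_lt_card ⟨Finset.subset_univ _, fun h => hc (h (Finset.mem_univ c))⟩
  have h' : (Γ.card : ℝ) < Fintype.card α := by exact_mod_cast this
  linarith

/-- disintegration over the position of the card `c` -/
lemma av_site (φ : Perm α → ℝ) {Γ : Finset α} {c : α} (hc : c ∉ Γ) (g : Perm α) :
    ((Fintype.card α : ℝ) - Γ.card) * av φ Γ g =
      ∑ z ∈ free Γ g, av φ (insert c Γ) (mv g c z) := by
  have hpos := card_sub_pos hc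
  have hE : (0 : ℝ) < ((ext (insert c Γ) (1 : Perm α)).card : ℝ) := by
    exact_mod_cast ext_one_card_pos (insert c Γ)
  have h1 : ∑ X ∈ ext Γ g, φ X = ∑ z ∈ free Γ g, ∑ X ∈ ext (insert c Γ) (mv g c z), φ X := by
    rw [← Finset.sum_fiberwise_of_maps_to (s := ext Γ g) (t := free Γ g) (g := fun X => X c)]
    · exact Finset.sum_congr rfl fun z hz => by rw [ext_fiber hc hz]
    · intro X hX
      rw [mem_free]
      intro d hd h
      rw [← mem_ext.1 hX d hd] at h
      exact hc (X.injective h ▸ hd)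
  simp only [av]
  rw [h1, ← Finset.sum_div, ext_card_insert hc]
  field_simp

/-- disintegration over the card sitting at the free site `x` -/
lemma av_card (φ : Perm α → ℝ) {Γ : Finset α} {x : α} {g : Perm α} (hx : x ∈ free Γ g) :
    ((Fintype.card α : ℝ) - Γ.card) * av φ Γ g =
      ∑ c ∈ Γᶜ, av φ (insert c Γ) (mv g c x) := by
  set c₀ := g⁻¹ x with hc₀
  have hc₀Γ : c₀ ∉ Γ := by
    intro h
    exact mem_free.1 hx _ h (by simp [hc₀])
  have hE : ∀ c ∈ Γᶜ, ((ext (insert c Γ) (1 : Perm α)).card : ℝ) =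
      ((ext (insert c₀ Γ) (1 : Perm α)).card : ℝ) := by
    intro c hc
    have h1 := ext_card_insert (Finset.mem_compl.1 hc)
    have h2 := ext_card_insert hc₀Γ
    rw [h1] at h2
    exact mul_left_cancel₀ (card_sub_pos hc₀Γ).ne' h2
  have h1 : ∑ X ∈ ext Γ g, φ X = ∑ c ∈ Γᶜ, ∑ X ∈ ext (insert c Γ) (mv g c x), φ X := by
    rw [← Finset.sum_fiberwise_of_maps_to (s := ext Γ g) (t := Γᶜ) (g := fun X => X⁻¹ x)]
    · refine Finset.sum_congr rfl fun c hc => ?_
      rw [← ext_fiber (Finset.mem_compl.1 hc) hx]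
      refine Finset.sum_congr ?_ fun _ _ => rfl
      ext X
      simp only [Finset.mem_filter, Perm.inv_eq_iff_eq]
      exact and_congr_right fun _ => eq_comm
    · intro X hX
      rw [Finset.mem_compl]
      intro h
      have h2 := mem_ext.1 hX _ h
      have h3 : X (X⁻¹ x) = x := by simp
      exact mem_free.1 hx _ h (h2.symm.trans h3)
  have h2 : ∑ c ∈ Γᶜ, av φ (insert c Γ) (mv g c x) =
      (∑ X ∈ ext Γ g, φ X) / ((ext (insert c₀ Γ) (1 : Perm α)).card : ℝ) := by
    rw [h1, Finset.sum_div]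
    refine Finset.sum_congr rfl fun c hc => ?_
    rw [av, hE c hc]
  rw [h2, av, ext_card_insert hc₀Γ]
  have := card_sub_pos hc₀Γ
  have hE0 : (0 : ℝ) < ((ext (insert c₀ Γ) (1 : Perm α)).card : ℝ) := by
    exact_mod_cast ext_one_card_pos (insert c₀ Γ)
  field_simp

end Pool.Agent.Lib.MP_8c2010_pr
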